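import Pool.Agent.Lib.CharExpP.Small

/-!
# From line sums to groups with many independent subgroups of exponent `p`

Let `P` be a group with a surjection `τ : P → F_p ^ ι` and a function `f : P → F_p` such that
`∑_{s < p} f (w g ^ s) = φ (τ g)` for all `w, g`, where `φ` vanishes on the coordinate hyperplanes
and is not zero. If `f` and `τ` factor through a finite quotient of `P`, then there is a finite
`p`-group with `card ι + 1` independent subgroups of index `p` and exponent `p` which is not of
exponent `p`.
-/

set_option autoImplicit false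

namespace Pool.H51Loop

open Pool.CharExpP

variable {p : ℕ} [hp : Fact p.Prime]

theorem not_forces_of_hom {ι : Type} [Fintype ι] (G : Type) [Group G] [Finite G]
    (hG : IsPGroup p G) (T : G →* (ι → Multiplicative (ZMod p))) (hT : Function.Surjective T)
    (h : ∀ x i, T x i = 1 → x ^ p = 1) (x : G) (hx : x ^ p ≠ 1) :
    ¬ Forces p (Fintype.card ι) := by
  classical
  intro hF
  let e : ι ≃ Fin (Fintype.card ι) := Fintype.equivFin ι
  let H : Fin (Fintype.card ι) → Subgroup G :=
    fun i => ((Pi.evalMonoidHom (fun _ : ι => Multiplicative (ZMod p)) (e.symm i)).comp T).ker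
  have hmem : ∀ i y, y ∈ H i ↔ T y (e.symm i) = 1 := by
    intro i y
    exact Iff.rfl
  have hcard : Nat.card (Multiplicative (ZMod p)) = p := by
    show Nat.card (ZMod p) = p
    rw [Nat.card_zmod]
  refine hx (hF G hG H ⟨?_, ?_, ?_⟩ x)
  · intro i
    have hs : Function.Surjective
        ((Pi.evalMonoidHom (fun _ : ι => Multiplicative (ZMod p)) (e.symm i)).comp T) := by
      intro y
      obtain ⟨g, hg⟩ := hT (fun _ => y)
      refine ⟨g, ?_⟩
      rw [MonoidHom.comp_apply, hg]
      rfl
    rw [Subgroup.index_ker, MonoidHom.range_eq_top.mpr hs, Subgroup.card_top, hcard]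
  · intro i y hy
    exact h y _ ((hmem i y).mp hy)
  · have hker : (⨅ i, H i) = T.ker := by
      ext y
      rw [Subgroup.mem_iInf, MonoidHom.mem_ker]
      constructor
      · intro hy
        funext j
        have := (hmem (e j) y).mp (hy (e j))
        rwa [Equiv.symm_apply_apply] at this
      · intro hy i
        rw [hmem, hy]
        rfl
    rw [hker, Subgroup.index_ker, MonoidHom.range_eq_top.mpr hT, Subgroup.card_top, Nat.card_pi]
    simp [hcard]

section build

variable {Q : Type} [Group Q] {ι : Type} (τ : Q →* (ι → Multiplicative (ZMod p)))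
  (φ : (ι → Multiplicative (ZMod p)) → ZMod p)

/-- The pairs `(m, c)` such that the line sums of `m` are `c * φ`. -/
def LS : AddSubgroup ((Q → ZMod p) × ZMod p) where
  carrier := {x | ∀ w g, ∑ s ∈ Finset.range p, x.1 (w * g ^ s) = x.2 * φ (τ g)}
  zero_mem' := by intro w g; simp
  add_mem' := by
    intro x y hx hy w g
    simp only [Prod.fst_add, Prod.snd_add, Pi.add_apply, Finset.sum_add_distrib]
    rw [hx w g, hy w g, add_mul]
  neg_mem' := by
    intro x hx w g
    simp only [Prod.fst_neg, Prod.snd_neg, Pi.neg_apply, Finset.sum_neg_distrib]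
    rw [hx w g, neg_mul]

theorem mem_LS (x : (Q → ZMod p) × ZMod p) :
    x ∈ LS τ φ ↔ ∀ w g, ∑ s ∈ Finset.range p, x.1 (w * g ^ s) = x.2 * φ (τ g) := Iff.rfl

theorem shift_mem (u : Q) {x : (Q → ZMod p) × ZMod p} (hx : x ∈ LS τ φ) :
    ((fun w => x.1 (w * u), x.2) : (Q → ZMod p) × ZMod p) ∈ LS τ φ := by
  rw [mem_LS]
  intro w g
  have h1 := hx (w * u) (u⁻¹ * g * u)
  have h2 : τ (u⁻¹ * g * u) = τ g := by
    rw [map_mul, map_mul, map_inv, mul_comm (τ u)⁻¹, inv_mul_cancel_right]
  rw [h2] at h1
  rw [← h1]
  refine Finset.sum_congr rfl fun s _ => ?_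
  have h3 : (u⁻¹ * g * u) ^ s = u⁻¹ * g ^ s * u := by
    have := conj_pow (a := u⁻¹) (b := g) (i := s)
    rwa [inv_inv] at this
  rw [h3]
  group

/-- The action by right translations. -/
def act (u : Q) : Multiplicative (LS τ φ) ≃* Multiplicative (LS τ φ) where
  toFun x := Multiplicative.ofAdd ⟨_, shift_mem τ φ u (Multiplicative.toAdd x).2⟩
  invFun x := Multiplicative.ofAdd ⟨_, shift_mem τ φ u⁻¹ (Multiplicative.toAdd x).2⟩
  left_inv x := by
    apply Multiplicative.toAdd.injective
    apply Subtype.ext
    apply Prod.ext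
    · funext w
      show (Multiplicative.toAdd x).1.1 (w * u⁻¹ * u) = _
      rw [inv_mul_cancel_right]
    · rfl
  right_inv x := by
    apply Multiplicative.toAdd.injective
    apply Subtype.ext
    apply Prod.ext
    · funext w
      show (Multiplicative.toAdd x).1.1 (w * u * u⁻¹) = _
      rw [mul_inv_cancel_right]
    · rfl
  map_mul' x y := by
    apply Multiplicative.toAdd.injective
    apply Subtype.ext
    apply Prod.ext
    · rfl
    · rfl

/-- The action as a homomorphism. -/
def actHom : Q →* MulAut (Multiplicative (LS τ φ)) where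
  toFun := act τ φ
  map_one' := by
    apply MulEquiv.ext
    intro x
    apply Multiplicative.toAdd.injective
    apply Subtype.ext
    apply Prod.ext
    · funext w
      show (Multiplicative.toAdd x).1.1 (w * 1) = _
      rw [mul_one]
      rfl
    · rfl
  map_mul' u v := by
    apply MulEquiv.ext
    intro x
    apply Multiplicative.toAdd.injective
    apply Subtype.ext
    apply Prod.ext
    · funext w
      show (Multiplicative.toAdd x).1.1 (w * (u * v)) =
        (Multiplicative.toAdd x).1.1 (w * u * v)
      rw [mul_assoc]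
    · rfl

/-- The group. -/
abbrev GG : Type := Multiplicative (LS τ φ) ⋊[actHom τ φ] Q

theorem pow_fst (x : GG τ φ) (n : ℕ) (w : Q) :
    (Multiplicative.toAdd (x ^ n).left).1.1 w =
      ∑ s ∈ Finset.range n, (Multiplicative.toAdd x.left).1.1 (w * x.right ^ s) := by
  induction n generalizing w with
  | zero => simp
  | succ n ih =>
    rw [pow_succ, SemidirectProduct.mul_left, toAdd_mul, Finset.sum_range_succ]
    have h1 : (x ^ n).right = x.right ^ n := by
      have := map_pow (SemidirectProduct.rightHom (φ := actHom τ φ)) x n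
      simpa using this
    rw [h1]
    show (Multiplicative.toAdd (x ^ n).left).1.1 w +
      (Multiplicative.toAdd x.left).1.1 (w * x.right ^ n) = _
    rw [ih]

/-- The coefficient of `φ` as a homomorphism. -/
def kap : GG τ φ →* Multiplicative (ZMod p) where
  toFun x := Multiplicative.ofAdd (Multiplicative.toAdd x.left).1.2
  map_one' := rfl
  map_mul' _ _ := rfl

theorem kap_pow (x : GG τ φ) : kap τ φ (x ^ p) = 1 := by
  rw [map_pow]
  apply Multiplicative.toAdd.injective
  rw [toAdd_pow]
  simp

/-- The joint homomorphism. -/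
def joint : GG τ φ →* (Option ι → Multiplicative (ZMod p)) where
  toFun x i := i.elim (kap τ φ x) (fun j => τ x.right j)
  map_one' := by
    funext i
    cases i with
    | none => exact map_one (kap τ φ)
    | some j =>
      show τ (1 : GG τ φ).right j = 1
      rw [SemidirectProduct.one_right, map_one]
      rfl
  map_mul' x y := by
    funext i
    cases i with
    | none => exact map_mul (kap τ φ) x y
    | some j =>
      show τ (x * y).right j = τ x.right j * τ y.right j
      rw [SemidirectProduct.mul_right, map_mul]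
      rfl

theorem not_forces_aux [Fintype ι] [Finite Q] (hQ : ∀ g : Q, g ^ p = 1)
    (hτ : Function.Surjective τ) (f : Q → ZMod p)
    (hline : ∀ w g, ∑ s ∈ Finset.range p, f (w * g ^ s) = φ (τ g))
    (hφ0 : ∀ x i, x i = 1 → φ x = 0) (x₀ : ι → Multiplicative (ZMod p)) (hφ1 : φ x₀ ≠ 0) :
    ¬ Forces p (Fintype.card ι + 1) := by
  classical
  have hf : (f, (1 : ZMod p)) ∈ LS τ φ := by
    rw [mem_LS]
    intro w g
    rw [hline, one_mul]
  have hpow : ∀ x : GG τ φ, (Multiplicative.toAdd (x ^ p).left).1.1 =
      fun _ => (Multiplicative.toAdd x.left).1.2 * φ (τ x.right) := by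
    intro x
    funext w
    rw [pow_fst]
    exact (Multiplicative.toAdd x.left).2 w x.right
  have hright : ∀ x : GG τ φ, (x ^ p).right = 1 := by
    intro x
    have := map_pow (SemidirectProduct.rightHom (φ := actHom τ φ)) x p
    rw [SemidirectProduct.rightHom_eq_right] at this
    rw [this]
    exact hQ _
  have hsnd : ∀ x : GG τ φ, (Multiplicative.toAdd (x ^ p).left).1.2 = 0 := by
    intro x
    exact congrArg Multiplicative.toAdd (kap_pow τ φ x)
  have hone : ∀ x : GG τ φ, (Multiplicative.toAdd x.left).1.2 * φ (τ x.right) = 0 →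
      x ^ p = 1 := by
    intro x hx
    apply SemidirectProduct.ext
    · apply Multiplicative.toAdd.injective
      apply Subtype.ext
      apply Prod.ext
      · rw [hpow, hx]
        rfl
      · rw [hsnd]
        rfl
    · rw [hright]
      rfl
  have hfin : Finite (GG τ φ) := by
    have h1 : Finite ((Q → ZMod p) × ZMod p) := inferInstance
    have h2 : Finite (LS τ φ) := Subtype.finite
    have h3 : Finite (Multiplicative (LS τ φ)) := h2
    exact Finite.of_equiv _ (SemidirectProduct.equivProd (φ := actHom τ φ)).symm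
  have hG : IsPGroup p (GG τ φ) := by
    intro x
    refine ⟨2, ?_⟩
    rw [pow_two, pow_mul]
    apply hone
    rw [hsnd, zero_mul]
  have hsurj : Function.Surjective (joint τ φ) := by
    intro y
    obtain ⟨q, hq⟩ := hτ (fun j => y (some j))
    let c : ZMod p := Multiplicative.toAdd (y none)
    have hc : (fun w => c * f w, c) ∈ LS τ φ := by
      rw [mem_LS]
      intro w g
      simp only
      rw [← Finset.mul_sum, hline]
    refine ⟨⟨Multiplicative.ofAdd ⟨_, hc⟩, q⟩, ?_⟩
    funext i
    cases i with
    | none => rfl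
    | some j => exact congrFun hq j
  have hkey := not_forces_of_hom (GG τ φ) hG (joint τ φ) hsurj (by
    intro x i hi
    apply hone
    cases i with
    | none =>
      have : (Multiplicative.toAdd x.left).1.2 = 0 := congrArg Multiplicative.toAdd hi
      rw [this, zero_mul]
    | some j =>
      have hj : φ (τ x.right) = 0 := hφ0 (τ x.right) j hi
      rw [hj, mul_zero])
  obtain ⟨q, hq⟩ := hτ x₀
  have hx := hkey ⟨Multiplicative.ofAdd ⟨_, hf⟩, q⟩ (by
    intro h
    have h1 := hpow ⟨Multiplicative.ofAdd ⟨_, hf⟩, q⟩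
    rw [h] at h1
    have h2 := congrFun h1 1
    have h3 : (0 : ZMod p) = 1 * φ (τ q) := h2
    rw [one_mul, hq] at h3
    exact hφ1 h3.symm)
  rwa [Fintype.card_option] at hx

end build

theorem shift_pow {P : Type} [Group P] (f : P → ZMod p) (φ : P → ZMod p)
    (hline : ∀ w g, ∑ s ∈ Finset.range p, f (w * g ^ s) = φ g) (w g : P) :
    f (w * g ^ p) = f w := by
  have h1 := hline w g
  have h2 := hline (w * g) g
  have h3 : ∑ s ∈ Finset.range p, f (w * g * g ^ s) =
      ∑ s ∈ Finset.range p, f (w * g ^ (s + 1)) := by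
    refine Finset.sum_congr rfl fun s _ => ?_
    rw [pow_succ', mul_assoc]
  rw [h3] at h2
  have h4 := Finset.sum_range_succ (fun s => f (w * g ^ s)) p
  have h5 := Finset.sum_range_succ' (fun s => f (w * g ^ s)) p
  rw [h4, h1] at h5
  rw [h2] at h5
  simpa using h5

/-- The main abstract criterion. -/
theorem not_forces_of_lineSum {ι : Type} [Fintype ι] {P : Type} [Group P]
    (τ : P →* (ι → Multiplicative (ZMod p))) (hτ : Function.Surjective τ)
    (C : Subgroup P) [C.Normal] [Finite (P ⧸ C)] (hCτ : C ≤ τ.ker)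
    (f : P → ZMod p) (hfC : ∀ w, ∀ x ∈ C, f (w * x) = f w)
    (φ : (ι → Multiplicative (ZMod p)) → ZMod p)
    (hline : ∀ w g, ∑ s ∈ Finset.range p, f (w * g ^ s) = φ (τ g))
    (hφ0 : ∀ x i, x i = 1 → φ x = 0) (x₀ : ι → Multiplicative (ZMod p)) (hφ1 : φ x₀ ≠ 0) :
    ¬ Forces p (Fintype.card ι + 1) := by
  classical
  let S : Subgroup P :=
    { carrier := {r | ∀ w, f (w * r) = f w}
      one_mem' := by intro w; rw [mul_one]
      mul_mem' := by
        intro a b ha hb w
        rw [← mul_assoc, hb, ha]
      inv_mem' := by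
        intro a ha w
        have := ha (w * a⁻¹)
        rw [inv_mul_cancel_right] at this
        exact this.symm }
  let R : Subgroup P := Subgroup.normalClosure (Set.range fun g : P => g ^ p) ⊔ C
  have hRS : R ≤ S := by
    refine sup_le ?_ ?_
    · rw [Subgroup.normalClosure, Subgroup.closure_le]
      intro y hy
      rw [Group.mem_conjugatesOfSet_iff] at hy
      obtain ⟨a, ⟨g, rfl⟩, ha⟩ := hy
      obtain ⟨c, rfl⟩ := isConj_iff.mp ha
      intro w
      rw [← conj_pow]
      exact shift_pow f (fun g => φ (τ g)) hline w _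
    · intro x hx w
      exact hfC w x hx
  have hRτ : R ≤ τ.ker := by
    refine sup_le ?_ hCτ
    apply Subgroup.normalClosure_le_normal
    rintro _ ⟨g, rfl⟩
    show τ (g ^ p) = 1
    rw [map_pow]
    funext i
    apply Multiplicative.toAdd.injective
    rw [Pi.pow_apply, toAdd_pow]
    simp
  have hRn : R.Normal := Subgroup.sup_normal _ _
  have hfin : Finite (P ⧸ R) := by
    have hCR : C ≤ R := le_sup_right
    refine Finite.of_surjective (QuotientGroup.map C R (MonoidHom.id P) hCR) ?_
    intro y
    obtain ⟨x, rfl⟩ := QuotientGroup.mk_surjective y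
    exact ⟨(x : P ⧸ C), rfl⟩
  let τ' : (P ⧸ R) →* (ι → Multiplicative (ZMod p)) := QuotientGroup.lift R τ hRτ
  let f' : (P ⧸ R) → ZMod p := fun x => Quotient.liftOn' x f (by
    intro a b hab
    rw [QuotientGroup.leftRel_apply] at hab
    have := hRS hab a
    rw [mul_inv_cancel_left] at this
    exact this.symm)
  have hf' : ∀ x : P, f' (x : P ⧸ R) = f x := fun x => rfl
  have hτ' : ∀ x : P, τ' (x : P ⧸ R) = τ x := fun x => rfl
  refine not_forces_aux τ' φ ?_ ?_ f' ?_ hφ0 x₀ hφ1
  · intro g
    obtain ⟨x, rfl⟩ := QuotientGroup.mk_surjective g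
    rw [← QuotientGroup.mk_pow, QuotientGroup.eq_one_iff]
    exact Subgroup.mem_sup_left (Subgroup.subset_normalClosure ⟨x, rfl⟩)
  · intro y
    obtain ⟨x, hx⟩ := hτ y
    exact ⟨(x : P ⧸ R), hx⟩
  · intro w g
    obtain ⟨w, rfl⟩ := QuotientGroup.mk_surjective w
    obtain ⟨g, rfl⟩ := QuotientGroup.mk_surjective g
    rw [hτ', ← hline w g]
    rfl

end Pool.H51Loop
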