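import Pool.Agent.Lib.H51Loop.LimitA

/-!
# The limit in the first case, for matrices

The explicit identities of this file were written by a script.
-/

set_option autoImplicit false
set_option linter.unusedSimpArgs false
set_option linter.unusedVariables false

namespace Pool.H51Loop

open PowerSeries

variable {K : Type} [Field K]

theorem rec_coeff (n : Mt K) (u : Fin 3 → K⟦X⟧) (e : ℕ) (i : Fin 3) :
    24 * (24 * coeff e (n.mulVec u i)) =
      ∑ a ∈ Finset.range (e + 1), ∑ l : Fin 3, (24 * coeff a (n i l)) *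
        (24 * coeff (e - a) (u l)) := by
  simp only [Matrix.mulVec, dotProduct, map_sum, coeff_mul]
  rw [Finset.sum_comm (s := Finset.range (e + 1)) (t := Finset.univ)]
  rw [Finset.mul_sum, Finset.mul_sum]
  refine Finset.sum_congr rfl fun l _ => ?_
  rw [Finset.Nat.sum_antidiagonal_eq_sum_range_succ_mk, Finset.mul_sum, Finset.mul_sum]
  refine Finset.sum_congr rfl fun a _ => ?_
  ring

theorem coeff_texp (A : Matrix (Fin 3) (Fin 3) K) (a : ℕ) (ha : a ≤ 4) (i l : Fin 3) :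
    coeff a ((texp (A.map (C (R := K)))) i l) = (a.factorial : K)⁻¹ * (A ^ a) i l := by
  unfold texp
  rw [Matrix.sum_apply, map_sum]
  have h3 : ∀ m, coeff a (((C ((m.factorial : K)⁻¹) * X ^ m) • (A.map (C (R := K))) ^ m) i l) =
      if m = a then ((m.factorial : K)⁻¹) * (A ^ m) i l else 0 := by
    intro m
    have h4 : (A.map (C (R := K))) ^ m = (A ^ m).map (C (R := K)) :=
      (map_pow ((C (R := K)).mapMatrix) A m).symm
    rw [h4, Matrix.smul_apply, Matrix.map_apply, smul_eq_mul, mul_assoc, coeff_C_mul,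
      coeff_X_pow_mul', coeff_C]
    by_cases hma : m = a
    · subst hma
      simp
    · rw [if_neg hma]
      by_cases hle : m ≤ a
      · rw [if_pos hle, if_neg (by omega), mul_zero]
      · rw [if_neg hle, mul_zero]
  rw [Finset.sum_congr rfl fun m _ => h3 m, Finset.sum_ite_eq',
    if_pos (Finset.mem_range.mpr (by omega))]

theorem coeff_limit (W A : Matrix (Fin 3) (Fin 3) K) (a : ℕ) (ha : a ≤ 4) (i l : Fin 3) :
    coeff a ((W.map (C (R := K)) * texp (A.map (C (R := K)))) i l) =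
      (a.factorial : K)⁻¹ * (W * A ^ a) i l := by
  rw [Matrix.mul_apply, Matrix.mul_apply, map_sum, Finset.mul_sum]
  refine Finset.sum_congr rfl fun k _ => ?_
  rw [Matrix.map_apply, coeff_C_mul, coeff_texp A a ha]
  ring

theorem coeff_limit_zero (W A : Matrix (Fin 3) (Fin 3) K) (i l : Fin 3) :
    24 * coeff 0 ((W.map (C (R := K)) * texp (A.map (C (R := K))) - 1) i l) =
      24 * (W i l - (1 : Matrix (Fin 3) (Fin 3) K) i l) := by
  have h1 : coeff 0 ((1 : Mt K) i l) = (1 : Matrix (Fin 3) (Fin 3) K) i l := by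
    by_cases h : i = l
    · subst h; simp
    · simp [Matrix.one_apply_ne h]
  rw [Matrix.sub_apply, map_sub, h1, coeff_limit W A 0 (by norm_num), pow_zero, mul_one,
    Nat.factorial_zero, Nat.cast_one, inv_one, one_mul]

theorem coeff_limit_pos (W A : Matrix (Fin 3) (Fin 3) K) (a : ℕ) (ha : a ≤ 4) (h0 : 0 < a)
    (c : K) (hc : c * (a.factorial : K) = 24) (hfac : (a.factorial : K) ≠ 0) (i l : Fin 3) :
    24 * coeff a ((W.map (C (R := K)) * texp (A.map (C (R := K))) - 1) i l) =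
      c * (W * A ^ a) i l := by
  have h1 : coeff a ((1 : Mt K) i l) = 0 := by
    by_cases h : i = l
    · subst h
      rw [Matrix.one_apply_eq, coeff_one, if_neg h0.ne']
    · rw [Matrix.one_apply_ne h, map_zero]
  rw [Matrix.sub_apply, map_sub, h1, sub_zero, coeff_limit W A a ha, ← hc, ← mul_assoc,
    mul_assoc c, mul_inv_cancel₀ hfac, mul_one]

section explicit

variable (x y v d m : K)

/-- The constant matrix of `w`. -/
def WA : Matrix (Fin 3) (Fin 3) K := !![1, 0, 0; y, 1, x; x, 0, 1]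

/-- The constant matrix of `g`. -/
def MA : Matrix (Fin 3) (Fin 3) K := !![v, 0, 1; m, v, d; -d, -1, -(2 * v)]

/-- The product `WA * MA ^ 1`. -/
def WM1 : Matrix (Fin 3) (Fin 3) K :=
  !![v, 0, 1;
    -x * d + y * v + m, -x + v, -2 * x * v + y + d;
    x * v - d, -1, x - 2 * v]

/-- The product `WA * MA ^ 2`. -/
def WM2 : Matrix (Fin 3) (Fin 3) K :=
  !![v ^ 2 - d, -1, -v;
    x * v * d - x * m + y * v ^ 2 - y * d + 2 * v * m - d ^ 2, x * v - y + v ^ 2 - d, 4 * x * v ^ 2 - 2 * x * d - y * v - v * d + m;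
    x * v ^ 2 - x * d + v * d - m, -x + v, -x * v + 4 * v ^ 2 - 2 * d]

/-- The product `WA * MA ^ 3`. -/
def WM3 : Matrix (Fin 3) (Fin 3) K :=
  !![v ^ 3 - m, 0, 3 * v ^ 2 - 2 * d;
    -3 * x * v ^ 2 * d + 2 * x * d ^ 2 + y * v ^ 3 - y * m + 3 * v ^ 2 * m - 2 * d * m, -3 * x * v ^ 2 + 2 * x * d + v ^ 3 - m, -8 * x * v ^ 3 + 6 * x * v * d - x * m + 3 * y * v ^ 2 - 2 * y * d + 3 * v ^ 2 * d - 2 * d ^ 2;
    x * v ^ 3 - x * m - 3 * v ^ 2 * d + 2 * d ^ 2, -3 * v ^ 2 + 2 * d, 3 * x * v ^ 2 - 2 * x * d - 8 * v ^ 3 + 6 * v * d - m]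

/-- The product `WA * MA ^ 4`. -/
def WM4 : Matrix (Fin 3) (Fin 3) K :=
  !![v ^ 4 - 3 * v ^ 2 * d - v * m + 2 * d ^ 2, -3 * v ^ 2 + 2 * d, -5 * v ^ 3 + 4 * v * d - m;
    5 * x * v ^ 3 * d - 3 * x * v ^ 2 * m - 4 * x * v * d ^ 2 + 3 * x * d * m + y * v ^ 4 - 3 * y * v ^ 2 * d - y * v * m + 2 * y * d ^ 2 + 4 * v ^ 3 * m - 3 * v ^ 2 * d ^ 2 - 2 * v * d * m + 2 * d ^ 3 - m ^ 2, 5 * x * v ^ 3 - 4 * x * v * d + x * m - 3 * y * v ^ 2 + 2 * y * d + v ^ 4 - 3 * v ^ 2 * d - v * m + 2 * d ^ 2, 16 * x * v ^ 4 - 18 * x * v ^ 2 * d + 2 * x * v * m + 4 * x * d ^ 2 - 5 * y * v ^ 3 + 4 * y * v * d - y * m - 5 * v ^ 3 * d + 3 * v ^ 2 * m + 4 * v * d ^ 2 - 3 * d * m;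
    x * v ^ 4 - 3 * x * v ^ 2 * d - x * v * m + 2 * x * d ^ 2 + 5 * v ^ 3 * d - 3 * v ^ 2 * m - 4 * v * d ^ 2 + 3 * d * m, -3 * x * v ^ 2 + 2 * x * d + 5 * v ^ 3 - 4 * v * d + m, -5 * x * v ^ 3 + 4 * x * v * d - x * m + 16 * v ^ 4 - 18 * v ^ 2 * d + 2 * v * m + 4 * d ^ 2]

theorem WM1_eq : WA x y * MA v d m ^ 1 = WM1 x y v d m := by
  rw [pow_one]
  ext i j
  fin_cases i <;> fin_cases j <;>
    simp [WA, MA, WM1, Matrix.mul_apply, Fin.sum_univ_three] <;> ring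

theorem WM2_eq : WA x y * MA v d m ^ 2 = WM2 x y v d m := by
  rw [pow_succ, ← mul_assoc, WM1_eq]
  ext i j
  fin_cases i <;> fin_cases j <;>
    simp [WM1, MA, WM2, Matrix.mul_apply, Fin.sum_univ_three] <;> ring

theorem WM3_eq : WA x y * MA v d m ^ 3 = WM3 x y v d m := by
  rw [pow_succ, ← mul_assoc, WM2_eq]
  ext i j
  fin_cases i <;> fin_cases j <;>
    simp [WM2, MA, WM3, Matrix.mul_apply, Fin.sum_univ_three] <;> ring

theorem WM4_eq : WA x y * MA v d m ^ 4 = WM4 x y v d m := by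
  rw [pow_succ, ← mul_assoc, WM3_eq]
  ext i j
  fin_cases i <;> fin_cases j <;>
    simp [WM3, MA, WM4, Matrix.mul_apply, Fin.sum_univ_three] <;> ring

end explicit

/-- The limit matrix. -/
noncomputable def HA (x y v d m : K) : Mt K :=
  (WA x y).map (C (R := K)) * texp ((MA v d m).map (C (R := K)))

theorem limA (x y v d m : K) (h24 : (24 : K) ≠ 0) (hy : 2 * y = x ^ 2) :
    24 * coeff 1 (zcol (HA x y v d m) 0) = 288 ∧
    24 * coeff 2 (zcol (HA x y v d m) 0) = -72 * x ∧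
    24 * coeff 3 (zcol (HA x y v d m) 0) = 12 * x ^ 2 ∧
    24 * coeff 4 (zcol (HA x y v d m) 0) = -3 * x ^ 3 + 18 * x * v ^ 2 - 12 * x * d ∧
    24 * coeff 0 (zcol (HA x y v d m) 1) = 288 * x ∧
    24 * coeff 1 (zcol (HA x y v d m) 1) = 72 * x ^ 2 - 432 * x * v + 288 * d ∧
    24 * coeff 2 (zcol (HA x y v d m) 1) = 12 * x ^ 3 - 36 * x ^ 2 * v + 216 * x * v ^ 2 - 120 * x * d ∧
    24 * coeff 3 (zcol (HA x y v d m) 1) = 3 * x ^ 4 - 18 * x ^ 3 * v + 12 * x ^ 2 * d ∧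
    24 * coeff 1 (zcol (HA x y v d m) 2) = 288 * x - 576 * v ∧
    24 * coeff 3 (zcol (HA x y v d m) 2) = 12 * x ^ 3 - 24 * x ^ 2 * v := by
  have h2 : (2 : K) ≠ 0 := by
    intro h
    apply h24
    have : (24 : K) = 2 * 12 := by norm_num
    rw [this, h, zero_mul]
  have h6 : (6 : K) ≠ 0 := by
    intro h
    apply h24
    have : (24 : K) = 6 * 4 := by norm_num
    rw [this, h, zero_mul]
  have hN0 : ∀ i l, 24 * coeff 0 ((HA x y v d m - 1) i l) =
      24 * (WA x y i l - (1 : Matrix (Fin 3) (Fin 3) K) i l) :=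
    coeff_limit_zero (WA x y) (MA v d m)
  have hN1 : ∀ i l, 24 * coeff 1 ((HA x y v d m - 1) i l) =
      24 * WM1 x y v d m i l := by
    intro i l
    rw [← WM1_eq]
    exact coeff_limit_pos (WA x y) (MA v d m) 1 (by norm_num) (by norm_num) 24
      (by norm_num [Nat.factorial]) (by norm_num [Nat.factorial]) i l
  have hN2 : ∀ i l, 24 * coeff 2 ((HA x y v d m - 1) i l) =
      12 * WM2 x y v d m i l := by
    intro i l
    rw [← WM2_eq]
    exact coeff_limit_pos (WA x y) (MA v d m) 2 (by norm_num) (by norm_num) 12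
      (by norm_num [Nat.factorial]) (by norm_num [Nat.factorial]; exact h2) i l
  have hN3 : ∀ i l, 24 * coeff 3 ((HA x y v d m - 1) i l) =
      4 * WM3 x y v d m i l := by
    intro i l
    rw [← WM3_eq]
    exact coeff_limit_pos (WA x y) (MA v d m) 3 (by norm_num) (by norm_num) 4
      (by norm_num [Nat.factorial]) (by norm_num [Nat.factorial]; exact h6) i l
  have hN4 : ∀ i l, 24 * coeff 4 ((HA x y v d m - 1) i l) =
      1 * WM4 x y v d m i l := by
    intro i l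
    rw [← WM4_eq]
    exact coeff_limit_pos (WA x y) (MA v d m) 4 (by norm_num) (by norm_num) 1
      (by norm_num [Nat.factorial]) (by norm_num [Nat.factorial]; exact h24) i l
  have key := limA_aux x v d m h24 (fun a i l => 24 * coeff a ((HA x y v d m - 1) i l))
    (fun j e i => 24 * coeff e (uu (HA x y v d m) j i))
    (fun j e i => rec_coeff (HA x y v d m - 1) (uu (HA x y v d m) j) e i)
    (by show 24 * coeff 0 (e3 (K := K) 0) = _; simp [e3])
    (by show 24 * coeff 0 (e3 (K := K) 1) = _; simp [e3])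
    (by show 24 * coeff 0 (e3 (K := K) 2) = _; simp [e3])
    (by show 24 * coeff 1 (e3 (K := K) 0) = _; simp [e3])
    (by show 24 * coeff 1 (e3 (K := K) 1) = _; simp [e3])
    (by show 24 * coeff 1 (e3 (K := K) 2) = _; simp [e3])
    (by show 24 * coeff 2 (e3 (K := K) 0) = _; simp [e3])
    (by show 24 * coeff 2 (e3 (K := K) 1) = _; simp [e3])
    (by show 24 * coeff 2 (e3 (K := K) 2) = _; simp [e3])
    (by show 24 * coeff 3 (e3 (K := K) 0) = _; simp [e3])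
    (by show 24 * coeff 3 (e3 (K := K) 1) = _; simp [e3])
    (by show 24 * coeff 3 (e3 (K := K) 2) = _; simp [e3])
    (by show 24 * coeff 4 (e3 (K := K) 0) = _; simp [e3])
    (by show 24 * coeff 4 (e3 (K := K) 1) = _; simp [e3])
    (by show 24 * coeff 4 (e3 (K := K) 2) = _; simp [e3])
    ((hN0 0 0).trans (by rw [show (1 : Matrix (Fin 3) (Fin 3) K) 0 0 = 1 from by simp]; show 24 * ((1 : K) - 1) = 0; ring))
    ((hN0 0 1).trans (by rw [show (1 : Matrix (Fin 3) (Fin 3) K) 0 1 = 0 from by simp]; show 24 * ((0 : K) - 0) = 0; ring))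
    ((hN0 0 2).trans (by rw [show (1 : Matrix (Fin 3) (Fin 3) K) 0 2 = 0 from by simp]; show 24 * ((0 : K) - 0) = 0; ring))
    ((hN0 1 0).trans (by rw [show (1 : Matrix (Fin 3) (Fin 3) K) 1 0 = 0 from by simp]; show 24 * ((y : K) - 0) = 12 * x ^ 2; linear_combination (12) * hy))
    ((hN0 1 1).trans (by rw [show (1 : Matrix (Fin 3) (Fin 3) K) 1 1 = 1 from by simp]; show 24 * ((1 : K) - 1) = 0; linear_combination (0) * hy))
    ((hN0 1 2).trans (by rw [show (1 : Matrix (Fin 3) (Fin 3) K) 1 2 = 0 from by simp]; show 24 * ((x : K) - 0) = 24 * x; linear_combination (0) * hy))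
    ((hN0 2 0).trans (by rw [show (1 : Matrix (Fin 3) (Fin 3) K) 2 0 = 0 from by simp]; show 24 * ((x : K) - 0) = 24 * x; ring))
    ((hN0 2 1).trans (by rw [show (1 : Matrix (Fin 3) (Fin 3) K) 2 1 = 0 from by simp]; show 24 * ((0 : K) - 0) = 0; ring))
    ((hN0 2 2).trans (by rw [show (1 : Matrix (Fin 3) (Fin 3) K) 2 2 = 1 from by simp]; show 24 * ((1 : K) - 1) = 0; ring))
    ((hN1 0 0).trans (by show (24 : K) * (v) = 24 * v; ring))
    ((hN1 0 1).trans (by show (24 : K) * (0) = 0; ring))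
    ((hN1 0 2).trans (by show (24 : K) * (1) = 24; ring))
    ((hN1 1 0).trans (by show (24 : K) * (-x * d + y * v + m) = 12 * x ^ 2 * v - 24 * x * d + 24 * m; linear_combination (12 * v) * hy))
    ((hN1 1 1).trans (by show (24 : K) * (-x + v) = -24 * x + 24 * v; linear_combination (0) * hy))
    ((hN1 1 2).trans (by show (24 : K) * (-2 * x * v + y + d) = 12 * x ^ 2 - 48 * x * v + 24 * d; linear_combination (12) * hy))
    ((hN1 2 0).trans (by show (24 : K) * (x * v - d) = 24 * x * v - 24 * d; ring))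
    ((hN1 2 1).trans (by show (24 : K) * (-1) = -24; ring))
    ((hN1 2 2).trans (by show (24 : K) * (x - 2 * v) = 24 * x - 48 * v; ring))
    ((hN2 0 0).trans (by show (12 : K) * (v ^ 2 - d) = 12 * v ^ 2 - 12 * d; ring))
    ((hN2 0 1).trans (by show (12 : K) * (-1) = -12; ring))
    ((hN2 0 2).trans (by show (12 : K) * (-v) = -12 * v; ring))
    ((hN2 1 0).trans (by show (12 : K) * (x * v * d - x * m + y * v ^ 2 - y * d + 2 * v * m - d ^ 2) = 6 * x ^ 2 * v ^ 2 - 6 * x ^ 2 * d + 12 * x * v * d - 12 * x * m + 24 * v * m - 12 * d ^ 2; linear_combination (6 * v ^ 2 - 6 * d) * hy))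
    ((hN2 1 1).trans (by show (12 : K) * (x * v - y + v ^ 2 - d) = -6 * x ^ 2 + 12 * x * v + 12 * v ^ 2 - 12 * d; linear_combination (-6) * hy))
    ((hN2 1 2).trans (by show (12 : K) * (4 * x * v ^ 2 - 2 * x * d - y * v - v * d + m) = -6 * x ^ 2 * v + 48 * x * v ^ 2 - 24 * x * d - 12 * v * d + 12 * m; linear_combination (-6 * v) * hy))
    ((hN2 2 0).trans (by show (12 : K) * (x * v ^ 2 - x * d + v * d - m) = 12 * x * v ^ 2 - 12 * x * d + 12 * v * d - 12 * m; ring))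
    ((hN2 2 1).trans (by show (12 : K) * (-x + v) = -12 * x + 12 * v; ring))
    ((hN2 2 2).trans (by show (12 : K) * (-x * v + 4 * v ^ 2 - 2 * d) = -12 * x * v + 48 * v ^ 2 - 24 * d; ring))
    ((hN3 0 0).trans (by show (4 : K) * (v ^ 3 - m) = 4 * v ^ 3 - 4 * m; ring))
    ((hN3 0 1).trans (by show (4 : K) * (0) = 0; ring))
    ((hN3 0 2).trans (by show (4 : K) * (3 * v ^ 2 - 2 * d) = 12 * v ^ 2 - 8 * d; ring))
    ((hN3 1 0).trans (by show (4 : K) * (-3 * x * v ^ 2 * d + 2 * x * d ^ 2 + y * v ^ 3 - y * m + 3 * v ^ 2 * m - 2 * d * m) = 2 * x ^ 2 * v ^ 3 - 2 * x ^ 2 * m - 12 * x * v ^ 2 * d + 8 * x * d ^ 2 + 12 * v ^ 2 * m - 8 * d * m; linear_combination (2 * v ^ 3 - 2 * m) * hy))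
    ((hN3 1 1).trans (by show (4 : K) * (-3 * x * v ^ 2 + 2 * x * d + v ^ 3 - m) = -12 * x * v ^ 2 + 8 * x * d + 4 * v ^ 3 - 4 * m; linear_combination (0) * hy))
    ((hN3 1 2).trans (by show (4 : K) * (-8 * x * v ^ 3 + 6 * x * v * d - x * m + 3 * y * v ^ 2 - 2 * y * d + 3 * v ^ 2 * d - 2 * d ^ 2) = 6 * x ^ 2 * v ^ 2 - 4 * x ^ 2 * d - 32 * x * v ^ 3 + 24 * x * v * d - 4 * x * m + 12 * v ^ 2 * d - 8 * d ^ 2; linear_combination (6 * v ^ 2 - 4 * d) * hy))
    ((hN3 2 0).trans (by show (4 : K) * (x * v ^ 3 - x * m - 3 * v ^ 2 * d + 2 * d ^ 2) = 4 * x * v ^ 3 - 4 * x * m - 12 * v ^ 2 * d + 8 * d ^ 2; ring))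
    ((hN3 2 1).trans (by show (4 : K) * (-3 * v ^ 2 + 2 * d) = -12 * v ^ 2 + 8 * d; ring))
    ((hN3 2 2).trans (by show (4 : K) * (3 * x * v ^ 2 - 2 * x * d - 8 * v ^ 3 + 6 * v * d - m) = 12 * x * v ^ 2 - 8 * x * d - 32 * v ^ 3 + 24 * v * d - 4 * m; ring))
    ((hN4 0 0).trans (by show (1 : K) * (v ^ 4 - 3 * v ^ 2 * d - v * m + 2 * d ^ 2) = v ^ 4 - 3 * v ^ 2 * d - v * m + 2 * d ^ 2; ring))
    ((hN4 0 1).trans (by show (1 : K) * (-3 * v ^ 2 + 2 * d) = -3 * v ^ 2 + 2 * d; ring))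
    ((hN4 0 2).trans (by show (1 : K) * (-5 * v ^ 3 + 4 * v * d - m) = -5 * v ^ 3 + 4 * v * d - m; ring))
  have hz : ∀ e i, 24 * coeff e (zcol (HA x y v d m) i) =
      12 * (24 * coeff e (uu (HA x y v d m) 1 i)) - 6 * (24 * coeff e (uu (HA x y v d m) 2 i)) +
      4 * (24 * coeff e (uu (HA x y v d m) 3 i)) -
      3 * (24 * coeff e (uu (HA x y v d m) 4 i)) := by
    intro e i
    have hc : ∀ (n : ℕ) (q : K⟦X⟧), coeff e ((n : K⟦X⟧) * q) = (n : K) * coeff e q := by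
      intro n q
      rw [← nsmul_eq_mul, map_nsmul, nsmul_eq_mul]
    unfold zcol
    rw [map_sub, map_add, map_sub, hc, hc, hc, hc]
    push_cast
    ring
  obtain ⟨k0, k1, k2, k3, k4, k5, k6, k7, k8, k9⟩ := key
  refine ⟨(hz 1 0).trans k0, (hz 2 0).trans k1, (hz 3 0).trans k2, (hz 4 0).trans k3, (hz 0 1).trans k4, (hz 1 1).trans k5, (hz 2 1).trans k6, (hz 3 1).trans k7, (hz 1 2).trans k8, (hz 3 2).trans k9⟩

theorem j4_limA (x y v d m : K) (h24 : (24 : K) ≠ 0) (hy : 2 * y = x ^ 2) :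
    j4 (shA (zcol (HA x y v d m))) = 6 * x ^ 4 := by
  obtain ⟨k0, k1, k2, k3, k4, k5, k6, k7, k8, k9⟩ := limA x y v d m h24 hy
  set z := zcol (HA x y v d m) with hz
  apply mul_left_cancel₀ (pow_ne_zero 2 h24)
  have e0 : ∀ k, coeff k (shA z 0) = coeff k (z 0) := fun k => rfl
  have e1 : ∀ k, coeff (k + 1) (shA z 1) = coeff k (z 1) := fun k => coeff_succ_X_mul k _
  have e2 : ∀ k, coeff k (shA z 2) = coeff k (z 2) := fun k => rfl
  have f1 := e1 0
  have f2 := e1 1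
  have f3 := e1 2
  have f4 := e1 3
  simp only [zero_add, Nat.reduceAdd] at f1 f2 f3 f4
  unfold j4 Om
  rw [e0, e0, e0, e0, f1, f2, f3, f4, e2, e2]
  have main : (24 : K) ^ 2 * (24 * (coeff 1 (z 0) * coeff 3 (z 1) - coeff 0 (z 1) * coeff 4 (z 0)) -
      32 * (coeff 2 (z 0) * coeff 2 (z 1) - coeff 1 (z 1) * coeff 3 (z 0)) -
      27 * (coeff 1 (z 2) * coeff 3 (z 2))) =
      24 * ((24 * coeff 1 (z 0)) * (24 * coeff 3 (z 1)) - (24 * coeff 0 (z 1)) *
        (24 * coeff 4 (z 0))) - 32 * ((24 * coeff 2 (z 0)) * (24 * coeff 2 (z 1)) -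
        (24 * coeff 1 (z 1)) * (24 * coeff 3 (z 0))) -
        27 * ((24 * coeff 1 (z 2)) * (24 * coeff 3 (z 2))) := by ring
  rw [main, k0, k1, k2, k3, k4, k5, k6, k7, k8, k9]
  ring

theorem j6_limA (x y v d m : K) (h24 : (24 : K) ≠ 0) (hy : 2 * y = x ^ 2) :
    j6 (shA (zcol (HA x y v d m))) = 864 * x ^ 6 := by
  obtain ⟨k0, k1, k2, k3, k4, k5, k6, k7, k8, k9⟩ := limA x y v d m h24 hy
  set z := zcol (HA x y v d m) with hz
  apply mul_left_cancel₀ (pow_ne_zero 4 h24)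
  have e0 : ∀ k, coeff k (shA z 0) = coeff k (z 0) := fun k => rfl
  have e1 : ∀ k, coeff (k + 1) (shA z 1) = coeff k (z 1) := fun k => coeff_succ_X_mul k _
  have e2 : ∀ k, coeff k (shA z 2) = coeff k (z 2) := fun k => rfl
  have f1 := e1 0
  have f2 := e1 1
  have f3 := e1 2
  have f4 := e1 3
  simp only [zero_add, Nat.reduceAdd] at f1 f2 f3 f4
  unfold j6 Om
  rw [e0, e0, e0, e0, f1, f2, f3, f4, e2, e2]
  generalize coeff 1 (z 0) = a1 at *
  generalize coeff 2 (z 0) = a2 at *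
  generalize coeff 3 (z 0) = a3 at *
  generalize coeff 4 (z 0) = a4 at *
  generalize coeff 0 (z 1) = b1 at *
  generalize coeff 1 (z 1) = b2 at *
  generalize coeff 2 (z 1) = b3 at *
  generalize coeff 3 (z 1) = b4 at *
  generalize coeff 1 (z 2) = c1 at *
  generalize coeff 3 (z 2) = c3 at *
  have main : (24 : K) ^ 4 * (-55296 * (a3 * b4 - b3 * a4) +
      160 * ((a1 * b2 - b1 * a2) * (a1 * b4 - b1 * a4)) -
      320 * ((a1 * b2 - b1 * a2) * (a2 * b3 - b2 * a3)) -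
      168 * ((a1 * b2 - b1 * a2) * (c1 * c3)) - 27 * (c1 ^ 3 * c3)) =
      -55296 * 576 * ((24 * a3) * (24 * b4) - (24 * b3) * (24 * a4)) +
      160 * (((24 * a1) * (24 * b2) - (24 * b1) * (24 * a2)) *
        ((24 * a1) * (24 * b4) - (24 * b1) * (24 * a4))) -
      320 * (((24 * a1) * (24 * b2) - (24 * b1) * (24 * a2)) *
        ((24 * a2) * (24 * b3) - (24 * b2) * (24 * a3))) -
      168 * (((24 * a1) * (24 * b2) - (24 * b1) * (24 * a2)) * ((24 * c1) * (24 * c3))) -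
      27 * ((24 * c1) ^ 3 * (24 * c3)) := by ring
  rw [main, k0, k1, k2, k3, k4, k5, k6, k7, k8, k9]
  ring

end Pool.H51Loop
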