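import Pool.Agent.Lib.H51Loop.Shape
import Pool.Agent.Lib.H51Loop.LimitA2

/-!
# The two cases and the key lemma
-/

set_option autoImplicit false

namespace Pool.H51Loop

open PowerSeries

variable {K : Type} [Field K]

theorem exists_X_mul {f : K⟦X⟧} (h : coeff 0 f = 0) : ∃ q : K⟦X⟧, f = X * q := by
  have h1 : (X : K⟦X⟧) ^ 1 ∣ f := by
    rw [X_pow_dvd_iff]
    intro m hm
    have : m = 0 := by omega
    rw [this, h]
  rwa [pow_one] at h1

theorem exists_X_sq_mul {f : K⟦X⟧} (h : coeff 0 f = 0) (h1 : coeff 1 f = 0) :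
    ∃ q : K⟦X⟧, f = X * (X * q) := by
  have h2 : (X : K⟦X⟧) ^ 2 ∣ f := by
    rw [X_pow_dvd_iff]
    intro m hm
    interval_cases m
    · exact h
    · exact h1
  obtain ⟨q, hq⟩ := h2
  exact ⟨q, by rw [hq, pow_two, mul_assoc]⟩

theorem cX (n : ℕ) (q : K⟦X⟧) : coeff (n + 1) (X * q) = coeff n q := coeff_succ_X_mul n q

theorem cc1 (q : K⟦X⟧) : constantCoeff q = coeff 1 (X * q) := by
  have h := cX 0 q
  rw [coeff_zero_eq_constantCoeff_apply] at h
  exact h.symm

theorem cc2 (q : K⟦X⟧) : constantCoeff q = coeff 2 (X * (X * q)) := by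
  have h := cX 1 (X * q)
  rw [← cc1] at h
  exact h.symm

theorem rel_pow {A G G' : Mt K} (h : A * G = G' * A) (s : ℕ) : A * G ^ s = G' ^ s * A := by
  induction s with
  | zero => rw [pow_zero, pow_zero, mul_one, one_mul]
  | succ s ih => rw [pow_succ, pow_succ, ← mul_assoc, ih, mul_assoc, h, mul_assoc]

theorem rel_mul_pow {A W W' G G' : Mt K} (hW : A * W = W' * A) (h : A * G = G' * A) (s : ℕ) :
    A * (W * G ^ s) = (W' * G' ^ s) * A := by
  rw [← mul_assoc, hW, mul_assoc, rel_pow h, mul_assoc]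

theorem MPl_limit (W M : Mt K) (h24 : (24 : K) ≠ 0) :
    MPl (fun s => W * (1 + (X : K⟦X⟧) • M) ^ s) (ct W * texp (ct M)) :=
  (MPl.const W).mul (MPl.binom M h24)

section caseA

/-- The first conjugating matrix. -/
noncomputable def DA : Mt K := !![X, 0, 0; 0, 1, 0; 0, 0, X]

theorem DA_e3 : (DA (K := K)).mulVec e3 = (X : K⟦X⟧) • e3 := by
  funext i
  fin_cases i <;> simp [DA, e3, Matrix.mulVec, dotProduct, Fin.sum_univ_three]

theorem zcol_A {G G' : Mt K} (h : DA * G = G' * DA) : zcol G = shA (zcol G') := by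
  have h1 := zcol_conj h DA_e3
  have hX : (X : K⟦X⟧) ≠ 0 := X_ne_zero
  have k0 := congrFun h1 0
  have k1 := congrFun h1 1
  have k2 := congrFun h1 2
  simp [DA, Matrix.mulVec, dotProduct, Fin.sum_univ_three] at k0 k1 k2
  funext i
  fin_cases i
  · exact k0
  · exact k1
  · exact k2

theorem caseA_w {w : Mt K} {a b t c d : K} (h : Qs w a b t c d) :
    ∃ (W : Mt K) (y : K), DA * w = W * DA ∧ 2 * y = b ^ 2 ∧ ct W = (WA b y).map (C (R := K)) := by
  obtain ⟨q1, hq1⟩ := exists_X_mul h.z10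
  obtain ⟨q2, hq2⟩ := exists_X_mul h.z12
  refine ⟨!![w 0 0, X * w 0 1, w 0 2; q1, w 1 1, q2; w 2 0, X * w 2 1, w 2 2],
    coeff 1 (w 1 0), ?_, h.o10, ?_⟩
  · apply Matrix.ext
    intro i j
    fin_cases i <;> fin_cases j <;>
      simp [DA, Matrix.mul_apply, Fin.sum_univ_three] <;>
      first | ring1 | (rw [hq1] <;> ring1) | (rw [hq2] <;> ring1)
  · have e1 : constantCoeff q1 = coeff 1 (w 1 0) := by
      rw [hq1]
      exact cc1 q1
    have e2 : constantCoeff q2 = b := by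
      rw [← h.o12, hq2]
      exact cc1 q2
    have z00 := h.z00
    have z02 := h.z02
    have z11 := h.z11
    have z20 := h.z20
    have z22 := h.z22
    rw [coeff_zero_eq_constantCoeff_apply] at z00 z02 z11 z20 z22
    apply Matrix.ext
    intro i j
    fin_cases i <;> fin_cases j <;> simp [ct, WA, e1, e2, z00, z02, z11, z20, z22]

theorem caseA_g (h2 : (2 : K) ≠ 0) {g : Mt K} {t c d : K} (h : Qs g 1 0 t c d) :
    ∃ (M : Mt K) (v d' m : K), DA * g = (1 + (X : K⟦X⟧) • M) * DA ∧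
      ct M = (MA v d' m).map (C (R := K)) := by
  obtain ⟨m00, e00⟩ := exists_X_mul (f := g 0 0 - 1) (by rw [map_sub, h.z00]; simp)
  obtain ⟨m02, e02⟩ := exists_X_mul h.z02
  obtain ⟨m10, e10⟩ := exists_X_sq_mul h.z10 (by
    apply mul_left_cancel₀ h2
    rw [h.o10]; ring)
  obtain ⟨m11, e11⟩ := exists_X_mul (f := g 1 1 - 1) (by rw [map_sub, h.z11]; simp)
  obtain ⟨m12, e12⟩ := exists_X_sq_mul h.z12 h.o12
  obtain ⟨m20, e20⟩ := exists_X_mul (f := g 2 0) h.z20
  obtain ⟨m22, e22⟩ := exists_X_mul (f := g 2 2 - 1) (by rw [map_sub, h.z22]; simp)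
  have e00' : g 0 0 = 1 + X * m00 := by rw [← e00]; ring
  have e11' : g 1 1 = 1 + X * m11 := by rw [← e11]; ring
  have e22' : g 2 2 = 1 + X * m22 := by rw [← e22]; ring
  refine ⟨!![m00, g 0 1, m02; m10, m11, m12; m20, g 2 1, m22], coeff 1 (g 0 0), coeff 2 (g 1 2),
    coeff 2 (g 1 0), ?_, ?_⟩
  · apply Matrix.ext
    intro i j
    fin_cases i <;> fin_cases j <;>
      simp [DA, Matrix.mul_apply, Fin.sum_univ_three] <;>
      first | ring1 | (rw [e00'] <;> ring1) | (rw [e02] <;> ring1) | (rw [e10] <;> ring1) |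
        (rw [e11'] <;> ring1) | (rw [e12] <;> ring1) | (rw [e20] <;> ring1) | (rw [e22'] <;> ring1)
  · have f00 : constantCoeff m00 = coeff 1 (g 0 0) := by
      rw [e00', map_add, coeff_one, if_neg one_ne_zero, zero_add]
      exact cc1 m00
    have f02 : constantCoeff m02 = 1 := by
      rw [← h.o02, e02]
      exact cc1 m02
    have f10 : constantCoeff m10 = coeff 2 (g 1 0) := by
      rw [e10]
      exact cc2 m10
    have f11 : constantCoeff m11 = coeff 1 (g 0 0) := by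
      have k1 : coeff 1 (g 1 1) = coeff 1 (g 0 0) := by
        apply mul_left_cancel₀ h2
        rw [h.o11, h.o00]; ring
      rw [← k1, e11', map_add, coeff_one, if_neg one_ne_zero, zero_add]
      exact cc1 m11
    have f12 : constantCoeff m12 = coeff 2 (g 1 2) := by
      rw [e12]
      exact cc2 m12
    have f20 : constantCoeff m20 = -coeff 2 (g 1 2) := by
      have k1 : coeff 1 (g 2 0) = -coeff 2 (g 1 2) := by
        apply mul_left_cancel₀ h2
        rw [h.o20, mul_neg, h.w12]; ring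
      rw [← k1, e20]
      exact cc1 m20
    have f21 : constantCoeff (g 2 1) = -1 := by
      have := h.z21
      rwa [coeff_zero_eq_constantCoeff_apply] at this
    have f01 : constantCoeff (g 0 1) = 0 := by
      have := h.z01
      rwa [coeff_zero_eq_constantCoeff_apply] at this
    have f22 : constantCoeff m22 = -(2 * coeff 1 (g 0 0)) := by
      have k1 : coeff 1 (g 2 2) = -(2 * coeff 1 (g 0 0)) := by
        rw [h.o22, h.o00]; ring
      rw [← k1, e22', map_add, coeff_one, if_neg one_ne_zero, zero_add]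
      exact cc1 m22
    apply Matrix.ext
    intro i j
    fin_cases i <;> fin_cases j <;>
      simp [ct, MA, f00, f01, f02, f10, f11, f12, f20, f21, f22]

theorem caseA (h24 : (24 : K) ≠ 0) (h2 : (2 : K) ≠ 0) {w g : Mt K} {a b t c d t' c' d' : K}
    (hw : Qs w a b t c d) (hg : Qs g 1 0 t' c' d') :
    Pl (fun s => j4 (zcol (w * g ^ s))) 4 (6 * b ^ 4) ∧
      Pl (fun s => j6 (zcol (w * g ^ s))) 6 (864 * b ^ 6) := by
  obtain ⟨W, y, hW, hy, hW'⟩ := caseA_w hw
  obtain ⟨M, v, e, m, hM, hM'⟩ := caseA_g h2 hg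
  have h1 : ∀ s, zcol (w * g ^ s) = shA (zcol (W * (1 + (X : K⟦X⟧) • M) ^ s)) := fun s =>
    zcol_A (rel_mul_pow hW hM s)
  have h3 := MPl_limit W M h24
  rw [hW', hM'] at h3
  have h4 := zcol_VPl h3
  constructor
  · exact (j4_shA h4).congr (fun s => by rw [h1]) (j4_limA b y v e m h24 hy)
  · exact (j6_shA h4).congr (fun s => by rw [h1]) (j6_limA b y v e m h24 hy)

end caseA

section caseB

/-- The second conjugating matrix. -/
noncomputable def DB : Mt K := !![1, 0, 0; 0, 1, 0; 0, 0, X]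

theorem DB_e3 : (DB (K := K)).mulVec e3 = (X : K⟦X⟧) • e3 := by
  funext i
  fin_cases i <;> simp [DB, e3, Matrix.mulVec, dotProduct, Fin.sum_univ_three]

theorem zcol_B {G G' : Mt K} (h : DB * G = G' * DB) : zcol G = shB (zcol G') := by
  have h1 := zcol_conj h DB_e3
  have k0 := congrFun h1 0
  have k1 := congrFun h1 1
  have k2 := congrFun h1 2
  simp [DB, Matrix.mulVec, dotProduct, Fin.sum_univ_three] at k0 k1 k2
  funext i
  fin_cases i
  · exact k0
  · exact k1
  · exact k2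

/-- The limit in the second case. -/
theorem limB (W A : Matrix (Fin 3) (Fin 3) K) (h24 : (24 : K) ≠ 0)
    (hW0 : W 2 0 = 0) (hW1 : W 2 1 = 0) (hW2 : W 2 2 = 1) (hA0 : A 2 0 = 0) (hA1 : A 2 1 = 0) :
    coeff 3 (zcol (W.map (C (R := K)) * texp (A.map (C (R := K)))) 2) = 0 := by
  set H := W.map (C (R := K)) * texp (A.map (C (R := K))) with hH
  set r := A 2 2 with hr
  have h2 : (2 : K) ≠ 0 := by
    intro h
    apply h24
    have : (24 : K) = 2 * 12 := by norm_num
    rw [this, h, zero_mul]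
  have h6 : (6 : K) ≠ 0 := by
    intro h
    apply h24
    have : (24 : K) = 6 * 4 := by norm_num
    rw [this, h, zero_mul]
  -- powers of `A`
  have hA : ∀ n, (A ^ n) 2 0 = 0 ∧ (A ^ n) 2 1 = 0 ∧ (A ^ n) 2 2 = r ^ n := by
    intro n
    induction n with
    | zero => simp
    | succ n ih =>
      obtain ⟨i0, i1, i2⟩ := ih
      rw [pow_succ]
      simp only [Matrix.mul_apply, Fin.sum_univ_three, i0, i1, i2, hA0, hA1]
      refine ⟨by ring, by ring, by rw [← hr]; ring⟩
  have hWA : ∀ n l, (W * A ^ n) 2 l = (A ^ n) 2 l := by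
    intro n l
    rw [Matrix.mul_apply, Fin.sum_univ_three, hW0, hW1, hW2]
    ring
  have n0 : ∀ l, 24 * coeff 0 ((H - 1) 2 l) = 0 := by
    intro l
    have hl : W 2 l = (1 : Matrix (Fin 3) (Fin 3) K) 2 l := by
      fin_cases l
      · show W 2 0 = (1 : Matrix (Fin 3) (Fin 3) K) 2 0
        rw [hW0]; rfl
      · show W 2 1 = (1 : Matrix (Fin 3) (Fin 3) K) 2 1
        rw [hW1]; rfl
      · show W 2 2 = (1 : Matrix (Fin 3) (Fin 3) K) 2 2
        rw [hW2]; rfl
    rw [hH, coeff_limit_zero, hl, sub_self, mul_zero]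
  have hpos : ∀ (a : ℕ) (ha : a ≤ 4) (h0 : 0 < a) (c : K) (hc : c * (a.factorial : K) = 24)
      (hfac : (a.factorial : K) ≠ 0), 24 * coeff a ((H - 1) 2 0) = 0 ∧
      24 * coeff a ((H - 1) 2 1) = 0 ∧ 24 * coeff a ((H - 1) 2 2) = c * r ^ a := by
    intro a ha h0 c hc hfac
    refine ⟨?_, ?_, ?_⟩
    · rw [hH, coeff_limit_pos W A a ha h0 c hc hfac, hWA, (hA a).1, mul_zero]
    · rw [hH, coeff_limit_pos W A a ha h0 c hc hfac, hWA, (hA a).2.1, mul_zero]
    · rw [hH, coeff_limit_pos W A a ha h0 c hc hfac, hWA, (hA a).2.2]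
  obtain ⟨p10, p11, p12⟩ := hpos 1 (by norm_num) (by norm_num) 24 (by norm_num [Nat.factorial])
    (by norm_num [Nat.factorial])
  obtain ⟨p20, p21, p22⟩ := hpos 2 (by norm_num) (by norm_num) 12 (by norm_num [Nat.factorial])
    (by norm_num [Nat.factorial]; exact h2)
  obtain ⟨p30, p31, p32⟩ := hpos 3 (by norm_num) (by norm_num) 4 (by norm_num [Nat.factorial])
    (by norm_num [Nat.factorial]; exact h6)
  have hrec := fun j e => rec_coeff (H - 1) (uu H j) e 2
  have u0 : ∀ e, 24 * coeff e (uu H 0 2) = if e = 0 then 24 else 0 := by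
    intro e
    show 24 * coeff e ((1 : K⟦X⟧)) = _
    rw [coeff_one]
    split_ifs <;> simp
  have hstep : ∀ j (e : ℕ), 24 * (24 * coeff e (uu H (j + 1) 2)) =
      ∑ a ∈ Finset.range (e + 1), ∑ l : Fin 3, (24 * coeff a ((H - 1) 2 l)) *
        (24 * coeff (e - a) (uu H j l)) := hrec
  have s0 : ∀ j, 24 * (24 * coeff 0 (uu H (j + 1) 2)) = 0 := by
    intro j
    rw [hstep]
    simp only [zero_add, Finset.sum_range_succ, Finset.sum_range_zero, Fin.sum_univ_three, n0]
    ring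
  have s1 : ∀ j, 24 * (24 * coeff 1 (uu H (j + 1) 2)) = 24 * r * (24 * coeff 0 (uu H j 2)) := by
    intro j
    rw [hstep]
    simp only [zero_add, Finset.sum_range_succ, Finset.sum_range_zero, Fin.sum_univ_three, n0,
      p10, p11, p12, Nat.reduceAdd, Nat.reduceSub, Nat.sub_zero, Nat.sub_self]
    ring
  have s2 : ∀ j, 24 * (24 * coeff 2 (uu H (j + 1) 2)) = 24 * r * (24 * coeff 1 (uu H j 2)) +
      12 * r ^ 2 * (24 * coeff 0 (uu H j 2)) := by
    intro j
    rw [hstep]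
    simp only [zero_add, Finset.sum_range_succ, Finset.sum_range_zero, Fin.sum_univ_three, n0,
      p10, p11, p12, p20, p21, p22, Nat.reduceAdd, Nat.reduceSub, Nat.sub_zero, Nat.sub_self]
    ring
  have s3 : ∀ j, 24 * (24 * coeff 3 (uu H (j + 1) 2)) = 24 * r * (24 * coeff 2 (uu H j 2)) +
      12 * r ^ 2 * (24 * coeff 1 (uu H j 2)) + 4 * r ^ 3 * (24 * coeff 0 (uu H j 2)) := by
    intro j
    rw [hstep]
    simp only [zero_add, Finset.sum_range_succ, Finset.sum_range_zero, Fin.sum_univ_three, n0,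
      p10, p11, p12, p20, p21, p22, p30, p31, p32, Nat.reduceAdd, Nat.reduceSub, Nat.sub_zero,
      Nat.sub_self]
    ring
  have u00 : 24 * coeff 0 (uu H 0 2) = 24 := by rw [u0, if_pos rfl]
  have u01 : 24 * coeff 1 (uu H 0 2) = 0 := by rw [u0, if_neg (by norm_num)]
  have u02 : 24 * coeff 2 (uu H 0 2) = 0 := by rw [u0, if_neg (by norm_num)]
  have z : ∀ j, 24 * coeff 0 (uu H (j + 1) 2) = 0 := by
    intro j
    apply mul_left_cancel₀ h24
    rw [s0, mul_zero]
  have u11 : 24 * coeff 1 (uu H 1 2) = 24 * r := by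
    apply mul_left_cancel₀ h24
    rw [s1 0, u00]; ring
  have u12 : 24 * coeff 2 (uu H 1 2) = 12 * r ^ 2 := by
    apply mul_left_cancel₀ h24
    rw [s2 0, u00, u01]; ring
  have u13 : 24 * coeff 3 (uu H 1 2) = 4 * r ^ 3 := by
    apply mul_left_cancel₀ h24
    rw [s3 0, u00, u01, u02]; ring
  have u21 : 24 * coeff 1 (uu H 2 2) = 0 := by
    apply mul_left_cancel₀ h24
    rw [s1 1, z 0]; ring
  have u22 : 24 * coeff 2 (uu H 2 2) = 24 * r ^ 2 := by
    apply mul_left_cancel₀ h24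
    rw [s2 1, z 0, u11]; ring
  have u23 : 24 * coeff 3 (uu H 2 2) = 24 * r ^ 3 := by
    apply mul_left_cancel₀ h24
    rw [s3 1, z 0, u11, u12]; ring
  have u31 : 24 * coeff 1 (uu H 3 2) = 0 := by
    apply mul_left_cancel₀ h24
    rw [s1 2, z 1]; ring
  have u32 : 24 * coeff 2 (uu H 3 2) = 0 := by
    apply mul_left_cancel₀ h24
    rw [s2 2, z 1, u21]; ring
  have u33 : 24 * coeff 3 (uu H 3 2) = 24 * r ^ 3 := by
    apply mul_left_cancel₀ h24
    rw [s3 2, z 1, u21, u22]; ring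
  have u43 : 24 * coeff 3 (uu H 4 2) = 0 := by
    apply mul_left_cancel₀ h24
    rw [s3 3, z 2, u31, u32]; ring
  have hc : ∀ (n : ℕ) (q : K⟦X⟧), coeff 3 ((n : K⟦X⟧) * q) = (n : K) * coeff 3 q := by
    intro n q
    rw [← nsmul_eq_mul, map_nsmul, nsmul_eq_mul]
  apply mul_left_cancel₀ h24
  unfold zcol
  rw [map_sub, map_add, map_sub, hc, hc, hc, hc]
  push_cast
  linear_combination 12 * u13 - 6 * u23 + 4 * u33 - 3 * u43

theorem ct_eq (M : Mt K) : ct M = (M.map (constantCoeff (R := K))).map (C (R := K)) := by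
  unfold ct
  rw [Matrix.map_map]
  rfl

theorem caseB (h24 : (24 : K) ≠ 0) (h2 : (2 : K) ≠ 0) {w g : Mt K} {a b t c d t' c' d' : K}
    (hw : Qs w a b t c d) (hg : Qs g 0 0 t' c' d') :
    Pl (fun s => j4 (zcol (w * g ^ s))) 4 0 ∧ Pl (fun s => j6 (zcol (w * g ^ s))) 6 0 := by
  obtain ⟨q0, hq0⟩ := exists_X_mul hw.z02
  obtain ⟨q1, hq1⟩ := exists_X_mul hw.z12
  obtain ⟨m00, e00⟩ := exists_X_mul (f := g 0 0 - 1) (by rw [map_sub, hg.z00]; simp)
  obtain ⟨m01, e01⟩ := exists_X_mul hg.z01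
  obtain ⟨m02, e02⟩ := exists_X_sq_mul hg.z02 hg.o02
  obtain ⟨m10, e10⟩ := exists_X_mul hg.z10
  obtain ⟨m11, e11⟩ := exists_X_mul (f := g 1 1 - 1) (by rw [map_sub, hg.z11]; simp)
  obtain ⟨m12, e12⟩ := exists_X_sq_mul hg.z12 hg.o12
  obtain ⟨m22, e22⟩ := exists_X_mul (f := g 2 2 - 1) (by rw [map_sub, hg.z22]; simp)
  have e00' : g 0 0 = 1 + X * m00 := by rw [← e00]; ring
  have e11' : g 1 1 = 1 + X * m11 := by rw [← e11]; ring
  have e22' : g 2 2 = 1 + X * m22 := by rw [← e22]; ring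
  let W : Mt K := !![w 0 0, w 0 1, q0; w 1 0, w 1 1, q1; X * w 2 0, X * w 2 1, w 2 2]
  let M : Mt K := !![m00, m01, m02; m10, m11, m12; g 2 0, g 2 1, m22]
  have hW : DB * w = W * DB := by
    apply Matrix.ext
    intro i j
    fin_cases i <;> fin_cases j <;>
      simp [W, DB, Matrix.mul_apply, Fin.sum_univ_three] <;>
      first | ring1 | (rw [hq0] <;> ring1) | (rw [hq1] <;> ring1)
  have hM : DB * g = (1 + (X : K⟦X⟧) • M) * DB := by
    apply Matrix.ext
    intro i j
    fin_cases i <;> fin_cases j <;>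
      simp [M, DB, Matrix.mul_apply, Fin.sum_univ_three] <;>
      first | ring1 | (rw [e00'] <;> ring1) | (rw [e01] <;> ring1) | (rw [e02] <;> ring1) |
        (rw [e10] <;> ring1) | (rw [e11'] <;> ring1) | (rw [e12] <;> ring1) | (rw [e22'] <;> ring1)
  have h1 : ∀ s, zcol (w * g ^ s) = shB (zcol (W * (1 + (X : K⟦X⟧) • M) ^ s)) := fun s =>
    zcol_B (rel_mul_pow hW hM s)
  have h3 := MPl_limit W M h24
  rw [ct_eq, ct_eq] at h3
  have z20 := hg.z20
  have z21 := hg.z21
  have z22 := hw.z22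
  rw [coeff_zero_eq_constantCoeff_apply] at z20 z21 z22
  have h5 := limB (W.map (constantCoeff (R := K))) (M.map (constantCoeff (R := K))) h24
    (by simp [W]) (by simp [W]) (by simp [W, z22]) (by simp [M, z20]) (by simp [M, z21])
  have h4 := zcol_VPl h3
  constructor
  · exact (j4_shB h4 h5).congr (fun s => by rw [h1]) rfl
  · exact (j6_shB h4 h5).congr (fun s => by rw [h1]) rfl

end caseB

section conj

theorem cA_e3 (p q r s : K) : ((cA p q r s).map (C (R := K))).mulVec e3 = (1 : K⟦X⟧) • e3 := by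
  funext i
  fin_cases i <;> simp [cA, e3, Matrix.mulVec, dotProduct, Fin.sum_univ_three]

theorem zcol_conjM {p q r s : K} {G G' : Mt K}
    (h : (cA p q r s).map (C (R := K)) * G = G' * (cA p q r s).map (C (R := K))) :
    zcol G' = ![C p * zcol G 0 + C q * zcol G 1, C r * zcol G 0 + C s * zcol G 1, zcol G 2] := by
  have h1 := zcol_conj h (cA_e3 p q r s)
  rw [one_smul] at h1
  rw [← h1]
  funext i
  fin_cases i <;> simp [cA, Matrix.mulVec, dotProduct, Fin.sum_univ_three]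

theorem Om_conj {p q r s : K} (hdet : p * s - q * r = 1) (z : Fin 3 → K⟦X⟧) (i j : ℕ) :
    Om ![C p * z 0 + C q * z 1, C r * z 0 + C s * z 1, z 2] i j = Om z i j := by
  have e0 : ∀ n, coeff n ((![C p * z 0 + C q * z 1, C r * z 0 + C s * z 1, z 2] :
      Fin 3 → K⟦X⟧) 0) = p * coeff n (z 0) + q * coeff n (z 1) := by
    intro n
    show coeff n (C p * z 0 + C q * z 1) = _
    rw [map_add, coeff_C_mul, coeff_C_mul]
  have e1 : ∀ n, coeff n ((![C p * z 0 + C q * z 1, C r * z 0 + C s * z 1, z 2] :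
      Fin 3 → K⟦X⟧) 1) = r * coeff n (z 0) + s * coeff n (z 1) := by
    intro n
    show coeff n (C r * z 0 + C s * z 1) = _
    rw [map_add, coeff_C_mul, coeff_C_mul]
  unfold Om
  rw [e0, e0, e1, e1]
  linear_combination (coeff i (z 0) * coeff j (z 1) - coeff i (z 1) * coeff j (z 0)) * hdet

theorem j4_conj {p q r s : K} (hdet : p * s - q * r = 1) (z : Fin 3 → K⟦X⟧) :
    j4 ![C p * z 0 + C q * z 1, C r * z 0 + C s * z 1, z 2] = j4 z := by
  unfold j4
  rw [Om_conj hdet, Om_conj hdet]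
  rfl

theorem j6_conj {p q r s : K} (hdet : p * s - q * r = 1) (z : Fin 3 → K⟦X⟧) :
    j6 ![C p * z 0 + C q * z 1, C r * z 0 + C s * z 1, z 2] = j6 z := by
  unfold j6
  rw [Om_conj hdet, Om_conj hdet, Om_conj hdet, Om_conj hdet]
  rfl

/-- **Key lemma.** -/
theorem key (h24 : (24 : K) ≠ 0) {w g : Mt K} {a b t c d a' b' t' c' d' : K}
    (hw : Qs w a b t c d) (hg : Qs g a' b' t' c' d') :
    Pl (fun s => j4 (zcol (w * g ^ s))) 4 (6 * (a' * b - b' * a) ^ 4) ∧
      Pl (fun s => j6 (zcol (w * g ^ s))) 6 (864 * (a' * b - b' * a) ^ 6) := by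
  have h2 : (2 : K) ≠ 0 := by
    intro h
    apply h24
    have : (24 : K) = 2 * 12 := by norm_num
    rw [this, h, zero_mul]
  by_cases hab : a' = 0 ∧ b' = 0
  · obtain ⟨ha, hb⟩ := hab
    rw [ha, hb] at hg
    have h1 := caseB h24 h2 hw hg
    rw [ha, hb]
    exact ⟨h1.1.congr (fun _ => rfl) (by ring), h1.2.congr (fun _ => rfl) (by ring)⟩
  · obtain ⟨p, q, r, s, hdet, e1, e2, e3⟩ : ∃ p q r s : K, p * s - q * r = 1 ∧
        p * a' + q * b' = 1 ∧ r * a' + s * b' = 0 ∧ r * a + s * b = a' * b - b' * a := by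
      by_cases ha : a' = 0
      · have hb : b' ≠ 0 := fun hb => hab ⟨ha, hb⟩
        refine ⟨0, b'⁻¹, -b', 0, ?_, ?_, ?_, ?_⟩
        · rw [mul_neg, inv_mul_cancel₀ hb]; ring
        · rw [inv_mul_cancel₀ hb]; ring
        · rw [ha]; ring
        · rw [ha]; ring
      · refine ⟨a'⁻¹, 0, -b', a', ?_, ?_, ?_, ?_⟩
        · rw [inv_mul_cancel₀ ha]; ring
        · rw [inv_mul_cancel₀ ha]; ring
        · ring
        · ring
    have kw := hw.conj hdet
    have kg := hg.conj hdet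
    rw [e1, e2] at kg
    rw [e3] at kw
    have h1 := caseA h24 h2 kw kg
    have h3 : ∀ n, zcol (conjM p q r s w * conjM p q r s g ^ n) =
        ![C p * zcol (w * g ^ n) 0 + C q * zcol (w * g ^ n) 1,
          C r * zcol (w * g ^ n) 0 + C s * zcol (w * g ^ n) 1, zcol (w * g ^ n) 2] := fun n =>
      zcol_conjM (rel_mul_pow (conjM_rel hdet w) (conjM_rel hdet g) n)
    refine ⟨h1.1.congr (fun n => ?_) rfl, h1.2.congr (fun n => ?_) rfl⟩
    · rw [h3, j4_conj hdet]
    · rw [h3, j6_conj hdet]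

end conj

end Pool.H51Loop
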