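import Pool.Agent.Lib.H51Loop.Abstract

/-!
# The fibre product

From a group `P` with a surjection onto `F_p ^ 2` and a function whose line sums are
`[π g = 0] - 1` to a group with a surjection onto `F_p ^ (2 (p - 1))` and a function whose line
sums vanish on all coordinate hyperplanes, but not everywhere.
-/

set_option autoImplicit false

namespace Pool.H51Loop

open Pool.CharExpP

section toggle

variable {N : ℕ}

/-- Toggling one element of a finite set. -/
def toggle (i : Fin N) (S : Finset (Fin N)) : Finset (Fin N) :=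
  if i ∈ S then S.erase i else insert i S

theorem toggle_ne (i : Fin N) (S : Finset (Fin N)) : toggle i S ≠ S := by
  unfold toggle
  split_ifs with h
  · intro h2
    rw [← h2] at h
    exact Finset.notMem_erase i S h
  · intro h2
    exact h (by rw [← h2]; exact Finset.mem_insert_self i S)

theorem toggle_toggle (i : Fin N) (S : Finset (Fin N)) : toggle i (toggle i S) = S := by
  unfold toggle
  split_ifs with h h1 h1
  · exact absurd h1 (Finset.notMem_erase i S)
  · exact Finset.insert_erase h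
  · exact Finset.erase_insert h
  · exact absurd (Finset.mem_insert_self i S) h1

theorem toggle_prod {M : Type} [CommMonoid M] (i : Fin N) (S : Finset (Fin N)) (t : Fin N → M)
    (ht : t i = 1) : ∏ j ∈ toggle i S, t j = ∏ j ∈ S, t j := by
  unfold toggle
  split_ifs with h
  · rw [← Finset.mul_prod_erase S t h, ht, one_mul]
  · rw [Finset.prod_insert h, ht, one_mul]

theorem toggle_sign {K : Type} [CommRing K] (i : Fin N) (S : Finset (Fin N)) :
    (-1 : K) ^ (toggle i S).card = -(-1 : K) ^ S.card := by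
  unfold toggle
  split_ifs with h
  · have h1 := Finset.card_erase_add_one h
    rw [← h1, pow_succ]
    ring
  · rw [Finset.card_insert_of_notMem h, pow_succ]
    ring

theorem sum_toggle {K : Type} [CommRing K] (i : Fin N) (F : Finset (Fin N) → K)
    (hF : ∀ S, F (toggle i S) = F S) : ∑ S : Finset (Fin N), (-1 : K) ^ S.card * F S = 0 := by
  refine Finset.sum_involution (fun S _ => toggle i S) ?_ ?_ ?_ ?_
  · intro S _
    rw [hF, toggle_sign]
    ring
  · intro S _ _
    exact toggle_ne i S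
  · intro S _
    exact Finset.mem_univ _
  · intro S _
    exact toggle_toggle i S

theorem sum_toggle_left {K : Type} [CommRing K] (i : Fin N)
    (F : Finset (Fin N) × Finset (Fin N) → K)
    (hF : ∀ S T, F (toggle i S, T) = F (S, T)) :
    ∑ S : Finset (Fin N) × Finset (Fin N), (-1 : K) ^ (S.1.card + S.2.card) * F S = 0 := by
  rw [Fintype.sum_prod_type_right]
  refine Finset.sum_eq_zero fun T _ => ?_
  have := sum_toggle i (fun S => (-1 : K) ^ T.card * F (S, T)) (by
    intro S
    simp only [hF])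
  rw [← this]
  refine Finset.sum_congr rfl fun S _ => ?_
  rw [pow_add]
  ring

theorem sum_toggle_right {K : Type} [CommRing K] (i : Fin N)
    (F : Finset (Fin N) × Finset (Fin N) → K)
    (hF : ∀ S T, F (S, toggle i T) = F (S, T)) :
    ∑ S : Finset (Fin N) × Finset (Fin N), (-1 : K) ^ (S.1.card + S.2.card) * F S = 0 := by
  rw [Fintype.sum_prod_type]
  refine Finset.sum_eq_zero fun S _ => ?_
  have := sum_toggle i (fun T => (-1 : K) ^ S.card * F (S, T)) (by
    intro T
    simp only [hF])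
  rw [← this]
  refine Finset.sum_congr rfl fun T _ => ?_
  rw [pow_add]
  ring

end toggle

variable {p : ℕ} [hp : Fact p.Prime]

section fibre

variable {P : Type} [Group P] (π₁ π₂ : P →* Multiplicative (ZMod p)) (N : ℕ)

/-- The index set of the copies of `P`. -/
abbrev Idx (N : ℕ) : Type := Finset (Fin N) × Finset (Fin N)

/-- The fibre product. -/
def Fib : Subgroup ((Fin N ⊕ Fin N → Multiplicative (ZMod p)) × (Idx N → P)) where
  carrier := {x | ∀ S : Idx N, π₁ (x.2 S) = ∏ i ∈ S.1, x.1 (Sum.inl i) ∧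
    π₂ (x.2 S) = ∏ i ∈ S.2, x.1 (Sum.inr i)}
  one_mem' := by
    intro S
    constructor <;> simp
  mul_mem' := by
    intro x y hx hy S
    constructor
    · rw [Prod.snd_mul, Pi.mul_apply, map_mul, (hx S).1, (hy S).1, Prod.fst_mul,
        ← Finset.prod_mul_distrib]
      rfl
    · rw [Prod.snd_mul, Pi.mul_apply, map_mul, (hx S).2, (hy S).2, Prod.fst_mul,
        ← Finset.prod_mul_distrib]
      rfl
  inv_mem' := by
    intro x hx S
    constructor
    · rw [Prod.snd_inv, Pi.inv_apply, map_inv, (hx S).1, Prod.fst_inv, ← Finset.prod_inv_distrib]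
      rfl
    · rw [Prod.snd_inv, Pi.inv_apply, map_inv, (hx S).2, Prod.fst_inv, ← Finset.prod_inv_distrib]
      rfl

/-- The projection to the coordinates. -/
def fibTau : Fib π₁ π₂ N →* (Fin N ⊕ Fin N → Multiplicative (ZMod p)) :=
  (MonoidHom.fst _ _).comp (Fib π₁ π₂ N).subtype

theorem fibTau_surjective (hs : ∀ a b, ∃ g, π₁ g = a ∧ π₂ g = b) :
    Function.Surjective (fibTau π₁ π₂ N) := by
  intro t
  choose g hg using fun S : Idx N => hs (∏ i ∈ S.1, t (Sum.inl i)) (∏ i ∈ S.2, t (Sum.inr i))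
  exact ⟨⟨(t, g), hg⟩, rfl⟩

/-- The map to the finite quotient. -/
def fibTheta (C : Subgroup P) [C.Normal] :
    Fib π₁ π₂ N →* (Fin N ⊕ Fin N → Multiplicative (ZMod p)) × (Idx N → P ⧸ C) where
  toFun x := (x.1.1, fun S => (x.1.2 S : P ⧸ C))
  map_one' := rfl
  map_mul' x y := rfl

/-- The function on the fibre product. -/
def fibFun (f : P → ZMod p) (x : Fib π₁ π₂ N) : ZMod p :=
  ∑ S : Idx N, (-1 : ZMod p) ^ (S.1.card + S.2.card) * f (x.1.2 S)

/-- The line sums of `fibFun`. -/
noncomputable def fibPhi (p N : ℕ) (t : Fin N ⊕ Fin N → Multiplicative (ZMod p)) : ZMod p :=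
  open scoped Classical in
  ∑ S : Idx N, (-1 : ZMod p) ^ (S.1.card + S.2.card) *
    ((if ∏ i ∈ S.1, t (Sum.inl i) = 1 ∧ ∏ i ∈ S.2, t (Sum.inr i) = 1 then 1 else 0) - 1)

theorem fib_line (f : P → ZMod p)
    (hline : ∀ w g, (∑ s ∈ Finset.range p, f (w * g ^ s)) =
      (open scoped Classical in if π₁ g = 1 ∧ π₂ g = 1 then 1 else 0) - 1)
    (w g : Fib π₁ π₂ N) :
    ∑ s ∈ Finset.range p, fibFun π₁ π₂ N f (w * g ^ s) = fibPhi p N (fibTau π₁ π₂ N g) := by
  classical
  unfold fibFun fibPhi
  rw [Finset.sum_comm]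
  refine Finset.sum_congr rfl fun S _ => ?_
  rw [← Finset.mul_sum]
  congr 1
  have h1 := hline (w.1.2 S) (g.1.2 S)
  have h2 : ∑ s ∈ Finset.range p, f ((w * g ^ s).1.2 S) =
      ∑ s ∈ Finset.range p, f (w.1.2 S * g.1.2 S ^ s) := rfl
  rw [h2, h1, (g.2 S).1, (g.2 S).2]
  rfl

theorem fibPhi_zero (t : Fin N ⊕ Fin N → Multiplicative (ZMod p)) (i : Fin N ⊕ Fin N)
    (hi : t i = 1) : fibPhi p N t = 0 := by
  classical
  unfold fibPhi
  cases i with
  | inl i =>
    refine sum_toggle_left i _ ?_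
    intro S T
    simp only [toggle_prod i S (fun i => t (Sum.inl i)) hi]
  | inr i =>
    refine sum_toggle_right i _ ?_
    intro S T
    simp only [toggle_prod i T (fun i => t (Sum.inr i)) hi]

theorem fibPhi_one (hN : 0 < N) (hNp : N < p) :
    fibPhi p N (fun _ => Multiplicative.ofAdd 1) ≠ 0 := by
  classical
  have h1 : ∀ S : Finset (Fin N), (∏ i ∈ S, (Multiplicative.ofAdd (1 : ZMod p))) = 1 ↔ S = ∅ := by
    intro S
    constructor
    · intro h
      have h2 := congrArg Multiplicative.toAdd h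
      rw [Finset.prod_const, toAdd_pow, toAdd_ofAdd, toAdd_one, nsmul_eq_mul, mul_one,
        ZMod.natCast_eq_zero_iff] at h2
      rw [← Finset.card_eq_zero]
      refine Nat.eq_zero_of_dvd_of_lt h2 ?_
      refine lt_of_le_of_lt (Finset.card_le_univ S) ?_
      rwa [Fintype.card_fin]
    · rintro rfl
      simp
  have h2 : fibPhi p N (fun _ => Multiplicative.ofAdd 1) = 1 := by
    unfold fibPhi
    simp only [h1, mul_sub, Finset.sum_sub_distrib, mul_one]
    have h3 : ∑ S : Idx N, (-1 : ZMod p) ^ (S.1.card + S.2.card) = 0 := by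
      have := sum_toggle_left (K := ZMod p) (⟨0, hN⟩ : Fin N) (fun _ => 1) (fun _ _ => rfl)
      simpa using this
    rw [h3, sub_zero]
    rw [Finset.sum_eq_single (∅, ∅)]
    · simp
    · rintro ⟨S, T⟩ _ hne
      rw [if_neg, mul_zero]
      rintro ⟨rfl, rfl⟩
      exact hne rfl
    · intro h
      exact absurd (Finset.mem_univ _) h
  rw [h2]
  exact one_ne_zero

end fibre

/-- The criterion with two homomorphisms. -/
theorem not_forces_two {P : Type} [Group P] (π₁ π₂ : P →* Multiplicative (ZMod p))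
    (hs : ∀ a b, ∃ g, π₁ g = a ∧ π₂ g = b) (hp2 : 2 < p)
    (C : Subgroup P) [C.Normal] [Finite (P ⧸ C)]
    (f : P → ZMod p) (hfC : ∀ w, ∀ x ∈ C, f (w * x) = f w)
    (hline : ∀ w g, (∑ s ∈ Finset.range p, f (w * g ^ s)) =
      (open scoped Classical in if π₁ g = 1 ∧ π₂ g = 1 then 1 else 0) - 1) :
    ¬ Forces p (2 * p - 1) := by
  classical
  let N := p - 1
  have hN : 0 < N := by
    show 0 < p - 1
    omega
  have hNp : N < p := by
    show p - 1 < p
    omega
  let Θ := fibTheta π₁ π₂ N C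
  have hfin : Finite (Fib π₁ π₂ N ⧸ Θ.ker) :=
    Finite.of_equiv _ (QuotientGroup.quotientKerEquivRange Θ).symm.toEquiv
  have hΘ : ∀ x ∈ Θ.ker, x.1.1 = 1 ∧ ∀ S, x.1.2 S ∈ C := by
    intro x hx
    have h1 : Θ x = 1 := hx
    have h2 := congrArg Prod.fst h1
    have h3 := congrArg Prod.snd h1
    refine ⟨h2, fun S => ?_⟩
    exact (QuotientGroup.eq_one_iff _).mp (congrFun h3 S)
  have key := not_forces_of_lineSum (fibTau π₁ π₂ N) (fibTau_surjective π₁ π₂ N hs) Θ.ker
    (fun x hx => (hΘ x hx).1) (fibFun π₁ π₂ N f) (by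
      intro w x hx
      unfold fibFun
      refine Finset.sum_congr rfl fun S _ => ?_
      have h1 : (w * x).1.2 S = w.1.2 S * x.1.2 S := rfl
      rw [h1, hfC _ _ ((hΘ x hx).2 S)])
    (fibPhi p N) (fib_line π₁ π₂ N f hline) (fibPhi_zero N) _ (fibPhi_one N hN hNp)
  have h1 : Fintype.card (Fin N ⊕ Fin N) + 1 = 2 * p - 1 := by
    rw [Fintype.card_sum, Fintype.card_fin]
    show (p - 1) + (p - 1) + 1 = 2 * p - 1
    omega
  rwa [h1] at key

end Pool.H51Loop
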