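import Pool.Agent.Lib.H51Loop.Fibre
import Pool.Agent.Lib.H51Loop.Cases

/-!
# The lower bound
-/

set_option autoImplicit false

namespace Pool.H51Loop

open PowerSeries Pool.CharExpP

section group

variable {K : Type} [Field K]

/-- The group of all invertible matrices of the given shape. -/
def PP (K : Type) [Field K] : Subgroup (Mt K)ˣ where
  carrier := {u | (∃ a b t c d, Qs u.val a b t c d) ∧ (∃ a b t c d, Qs u⁻¹.val a b t c d)}
  one_mem' := by
    refine ⟨⟨0, 0, 0, 0, 0, Qs.one⟩, ⟨0, 0, 0, 0, 0, ?_⟩⟩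
    rw [inv_one]
    exact Qs.one
  mul_mem' := by
    rintro u v ⟨⟨a, b, t, c, d, hu⟩, ⟨a1, b1, t1, c1, d1, hu'⟩⟩
      ⟨⟨a2, b2, t2, c2, d2, hv⟩, ⟨a3, b3, t3, c3, d3, hv'⟩⟩
    refine ⟨⟨_, _, _, _, _, hu.mul hv⟩, ?_⟩
    rw [mul_inv_rev]
    exact ⟨_, _, _, _, _, hv'.mul hu'⟩
  inv_mem' := by
    rintro u ⟨h1, h2⟩
    refine ⟨h2, ?_⟩
    rw [inv_inv]
    exact h1

/-- The underlying matrix. -/
def mt (u : PP K) : Mt K := u.1.val

theorem mt_mul (u v : PP K) : (mt (u * v)) = (mt u) * (mt v) := rfl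

theorem mt_one : (mt (1 : PP K)) = 1 := rfl

theorem mt_pow (u : PP K) (n : ℕ) : (mt (u ^ n)) = (mt u) ^ n := by
  induction n with
  | zero => rw [pow_zero, pow_zero, mt_one]
  | succ n ih => rw [pow_succ, pow_succ, mt_mul, ih]

theorem exists_shape (u : PP K) :
    ∃ t c d, Qs (mt u) (coeff 1 ((mt u) 0 2)) (coeff 1 ((mt u) 1 2)) t c d := by
  obtain ⟨a, b, t, c, d, h⟩ := u.2.1
  refine ⟨t, c, d, ?_⟩
  have h1 : coeff 1 ((mt u) 0 2) = a := h.o02
  have h2 : coeff 1 ((mt u) 1 2) = b := h.o12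
  rw [h1, h2]
  exact h

/-- The first coordinate. -/
noncomputable def pi1 : PP K →* Multiplicative K where
  toFun u := Multiplicative.ofAdd (coeff 1 ((mt u) 0 2))
  map_one' := by
    rw [mt_one]
    rw [Qs.one.o02]
    rfl
  map_mul' u v := by
    obtain ⟨t, c, d, hu⟩ := exists_shape u
    obtain ⟨t', c', d', hv⟩ := exists_shape v
    rw [mt_mul, (hu.mul hv).o02]
    rfl

/-- The second coordinate. -/
noncomputable def pi2 : PP K →* Multiplicative K where
  toFun u := Multiplicative.ofAdd (coeff 1 ((mt u) 1 2))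
  map_one' := by
    rw [mt_one]
    rw [Qs.one.o12]
    rfl
  map_mul' u v := by
    obtain ⟨t, c, d, hu⟩ := exists_shape u
    obtain ⟨t', c', d', hv⟩ := exists_shape v
    rw [mt_mul, (hu.mul hv).o12]
    rfl

theorem pi_surj (h2 : (2 : K) ≠ 0) (a b : Multiplicative K) :
    ∃ g : PP K, pi1 g = a ∧ pi2 g = b := by
  have e1 := Em_mul h2 (Multiplicative.toAdd a) (Multiplicative.toAdd b)
  have e2 := Em_mul h2 (-Multiplicative.toAdd a) (-Multiplicative.toAdd b)
  rw [neg_neg, neg_neg] at e2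
  have q1 := Em_Qs h2 (Multiplicative.toAdd a) (Multiplicative.toAdd b)
  have q2 := Em_Qs h2 (-Multiplicative.toAdd a) (-Multiplicative.toAdd b)
  refine ⟨⟨⟨_, _, e1, e2⟩, ⟨⟨_, _, _, _, _, q1⟩, ⟨_, _, _, _, _, q2⟩⟩⟩, ?_, ?_⟩
  · exact congrArg Multiplicative.ofAdd q1.o02
  · exact congrArg Multiplicative.ofAdd q1.o12

/-- The congruence subgroup. -/
def Cg (K : Type) [Field K] : Subgroup (PP K) where
  carrier := {u | ∃ Y : Mt K, (mt u) = 1 + (X : K⟦X⟧) ^ 5 • Y}
  one_mem' := ⟨0, by rw [mt_one, smul_zero, add_zero]⟩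
  mul_mem' := by
    rintro u v ⟨Y, hY⟩ ⟨Z, hZ⟩
    refine ⟨Y + Z + (X : K⟦X⟧) ^ 5 • (Y * Z), ?_⟩
    rw [mt_mul, hY, hZ, add_mul, mul_add, mul_add, one_mul, one_mul, mul_one, smul_add,
      smul_add, Matrix.smul_mul, Matrix.mul_smul]
    abel
  inv_mem' := by
    rintro u ⟨Y, hY⟩
    refine ⟨-((mt u⁻¹) * Y), ?_⟩
    have h1 : (mt u⁻¹) * (mt u) = 1 := by rw [← mt_mul, inv_mul_cancel, mt_one]
    rw [hY, mul_add, mul_one, Matrix.mul_smul] at h1
    rw [smul_neg, ← sub_eq_add_neg, eq_sub_iff_add_eq]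
    exact h1

instance Cg_normal : (Cg K).Normal where
  conj_mem := by
    rintro u ⟨Y, hY⟩ g
    refine ⟨(mt g) * Y * (mt g⁻¹), ?_⟩
    rw [mt_mul, mt_mul, hY, mul_add, mul_one, add_mul, ← mt_mul, mul_inv_cancel,
      mt_one, Matrix.mul_smul, Matrix.smul_mul]

theorem mem_Cg_of_coeff (u v : PP K)
    (h : ∀ i j, ∀ k < 5, coeff k ((mt u) i j) = coeff k ((mt v) i j)) : u⁻¹ * v ∈ Cg K := by
  have h1 : ∀ i j, ∃ y : K⟦X⟧, (mt v) i j = (mt u) i j + X ^ 5 * y := by
    intro i j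
    have h2 : (X : K⟦X⟧) ^ 5 ∣ (mt v) i j - (mt u) i j := by
      rw [X_pow_dvd_iff]
      intro k hk
      rw [map_sub, h i j k hk, sub_self]
    obtain ⟨y, hy⟩ := h2
    exact ⟨y, by rw [← hy]; ring⟩
  choose y hy using h1
  refine ⟨(mt u⁻¹) * Matrix.of y, ?_⟩
  have h3 : (mt v) = (mt u) + (X : K⟦X⟧) ^ 5 • Matrix.of y := by
    apply Matrix.ext
    intro i j
    rw [hy]
    rfl
  rw [mt_mul, h3, mul_add, ← mt_mul, inv_mul_cancel, mt_one, Matrix.mul_smul]

instance Cg_finite [Finite K] : Finite (PP K ⧸ Cg K) := by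
  let F : PP K ⧸ Cg K → (Fin 3 → Fin 3 → Fin 5 → K) :=
    fun q i j k => coeff k (mt q.out i j)
  refine Finite.of_injective F ?_
  intro q r hqr
  have h1 : q.out⁻¹ * r.out ∈ Cg K := by
    apply mem_Cg_of_coeff
    intro i j k hk
    exact congrFun (congrFun (congrFun hqr i) j) ⟨k, hk⟩
  have h2 := QuotientGroup.eq.mpr h1
  rwa [QuotientGroup.out_eq', QuotientGroup.out_eq'] at h2

theorem uu_congr {G G' Y : Mt K} (h : G' = G + (X : K⟦X⟧) ^ 5 • Y) (j : ℕ) :
    ∃ y : Fin 3 → K⟦X⟧, uu G' j = uu G j + (X : K⟦X⟧) ^ 5 • y := by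
  induction j with
  | zero => exact ⟨0, by rw [smul_zero, add_zero]; rfl⟩
  | succ j ih =>
    obtain ⟨y, hy⟩ := ih
    refine ⟨(G - 1).mulVec y + Y.mulVec (uu G j) + (X : K⟦X⟧) ^ 5 • Y.mulVec y, ?_⟩
    show (G' - 1).mulVec (uu G' j) = (G - 1).mulVec (uu G j) + _
    have h1 : G' - 1 = (G - 1) + (X : K⟦X⟧) ^ 5 • Y := by rw [h]; abel
    rw [h1, hy, Matrix.add_mulVec, Matrix.mulVec_add, Matrix.mulVec_add, Matrix.mulVec_smul,
      Matrix.mulVec_smul, Matrix.smul_mulVec, Matrix.smul_mulVec, smul_add, smul_add]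
    abel

theorem zcol_congr {G G' Y : Mt K} (h : G' = G + (X : K⟦X⟧) ^ 5 • Y) (i : Fin 3) (k : ℕ)
    (hk : k < 5) : coeff k (zcol G' i) = coeff k (zcol G i) := by
  obtain ⟨y1, h1⟩ := uu_congr h 1
  obtain ⟨y2, h2⟩ := uu_congr h 2
  obtain ⟨y3, h3⟩ := uu_congr h 3
  obtain ⟨y4, h4⟩ := uu_congr h 4
  have h5 : zcol G' i = zcol G i + X ^ 5 * (((12 : ℕ) : K⟦X⟧) * y1 i - ((6 : ℕ) : K⟦X⟧) * y2 i +
      ((4 : ℕ) : K⟦X⟧) * y3 i - ((3 : ℕ) : K⟦X⟧) * y4 i) := by
    unfold zcol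
    rw [h1, h2, h3, h4]
    simp only [Pi.add_apply, Pi.smul_apply, smul_eq_mul]
    ring
  rw [h5, map_add, coeff_X_pow_mul', if_neg (by omega), add_zero]

theorem j4_congr {z z' : Fin 3 → K⟦X⟧} (h : ∀ i, ∀ k < 5, coeff k (z' i) = coeff k (z i)) :
    j4 z' = j4 z := by
  unfold j4 Om
  rw [h 0 1 (by norm_num), h 0 2 (by norm_num), h 0 3 (by norm_num), h 0 4 (by norm_num),
    h 1 1 (by norm_num), h 1 2 (by norm_num), h 1 3 (by norm_num), h 1 4 (by norm_num),
    h 2 1 (by norm_num), h 2 3 (by norm_num)]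

theorem j6_congr {z z' : Fin 3 → K⟦X⟧} (h : ∀ i, ∀ k < 5, coeff k (z' i) = coeff k (z i)) :
    j6 z' = j6 z := by
  unfold j6 Om
  rw [h 0 1 (by norm_num), h 0 2 (by norm_num), h 0 3 (by norm_num), h 0 4 (by norm_num),
    h 1 1 (by norm_num), h 1 2 (by norm_num), h 1 3 (by norm_num), h 1 4 (by norm_num),
    h 2 1 (by norm_num), h 2 3 (by norm_num)]

/-- The homogeneous function of degree `N`. -/
noncomputable def hN (N : ℕ) (u : PP K) : K :=
  if 4 ∣ N then j4 (zcol (mt u)) ^ (N / 4) else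
    j6 (zcol (mt u)) * j4 (zcol (mt u)) ^ ((N - 6) / 4)

/-- Its leading constant. -/
def cN (K : Type) [Field K] (N : ℕ) : K :=
  if 4 ∣ N then 6 ^ (N / 4) else 864 * 6 ^ ((N - 6) / 4)

theorem hN_inv (N : ℕ) (w : PP K) {x : PP K} (hx : x ∈ Cg K) : hN N (w * x) = hN N w := by
  obtain ⟨Y, hY⟩ := hx
  have h1 : (mt (w * x)) = (mt w) + (X : K⟦X⟧) ^ 5 • ((mt w) * Y) := by
    rw [mt_mul, hY, mul_add, mul_one, Matrix.mul_smul]
  have h2 := zcol_congr h1
  unfold hN
  rw [j4_congr h2, j6_congr h2]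

theorem hN_Pl (h24 : (24 : K) ≠ 0) {N : ℕ} (hN4 : 4 ≤ N) (hev : 2 ∣ N) (w g : PP K) :
    Pl (fun s => hN N (w * g ^ s)) N (cN K N *
      (coeff 1 ((mt g) 0 2) * coeff 1 ((mt w) 1 2) - coeff 1 ((mt g) 1 2) * coeff 1 ((mt w) 0 2)) ^
        N) := by
  obtain ⟨t, c, d, hw⟩ := exists_shape w
  obtain ⟨t', c', d', hg⟩ := exists_shape g
  obtain ⟨k4, k6⟩ := key h24 hw hg
  have hmat : ∀ s, (mt (w * g ^ s)) = (mt w) * (mt g) ^ s := fun s => by
    rw [mt_mul, mt_pow]
  set D := coeff 1 ((mt g) 0 2) * coeff 1 ((mt w) 1 2) - coeff 1 ((mt g) 1 2) * coeff 1 ((mt w) 0 2)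
    with hD
  unfold hN cN
  by_cases h4 : 4 ∣ N
  · obtain ⟨m, rfl⟩ := h4
    have h5 : 4 * m / 4 = m := by omega
    have k := k4.pow m
    rw [mul_comm m 4] at k
    refine k.congr (fun s => ?_) ?_
    · rw [if_pos (Dvd.intro m rfl), h5, hmat]
    · rw [if_pos (Dvd.intro m rfl), h5, mul_pow, ← pow_mul]
  · obtain ⟨m, hm⟩ : ∃ m, N = 6 + m * 4 := ⟨(N - 6) / 4, by omega⟩
    have h5 : (N - 6) / 4 = m := by omega
    have k := k6.mul (k4.pow m)
    rw [← hm] at k
    refine k.congr (fun s => ?_) ?_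
    · rw [if_neg h4, h5, hmat]
    · rw [if_neg h4, h5, mul_pow, ← pow_mul, hm]
      ring

end group

section lines

variable {p : ℕ} [hp : Fact p.Prime]

theorem sum_range_zmod (f : ZMod p → ZMod p) :
    ∑ s ∈ Finset.range p, f (s : ZMod p) = ∑ x : ZMod p, f x := by
  refine Finset.sum_nbij' (fun s => (s : ZMod p)) (fun x => x.val) ?_ ?_ ?_ ?_ ?_
  · intro s _
    exact Finset.mem_univ _
  · intro x _
    exact Finset.mem_range.mpr (ZMod.val_lt x)
  · intro s hs
    exact ZMod.val_natCast_of_lt (Finset.mem_range.mp hs)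
  · intro x _
    exact ZMod.natCast_zmod_val x
  · intro s _
    rfl

theorem sum_pow_top : ∑ x : ZMod p, x ^ (p - 1) = -1 := by
  classical
  have h1 : ∀ x : ZMod p, x ^ (p - 1) = if x = 0 then 0 else 1 := by
    intro x
    split_ifs with h
    · rw [h, zero_pow]
      have := hp.out.two_le
      omega
    · exact ZMod.pow_card_sub_one_eq_one h
  simp only [h1]
  rw [Finset.sum_ite, Finset.sum_const_zero, zero_add, Finset.sum_const, nsmul_eq_mul, mul_one]
  have h2 : (Finset.univ.filter fun x : ZMod p => ¬ x = 0).card = p - 1 := by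
    rw [Finset.filter_not, Finset.filter_eq' _ (0 : ZMod p), if_pos (Finset.mem_univ _),
      Finset.card_sdiff_of_subset (Finset.subset_univ _), Finset.card_singleton,
      Finset.card_univ, ZMod.card]
  rw [h2, Nat.cast_sub hp.out.one_le, ZMod.natCast_self]
  simp

theorem Pl.lineSum {f : ℕ → ZMod p} {c : ZMod p} (h : Pl f (p - 1) c) :
    ∑ s ∈ Finset.range p, f s = -c := by
  obtain ⟨F, h1, h2, h3⟩ := h
  have hp1 : p - 1 + 1 = p := Nat.sub_add_cancel hp.out.one_le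
  rw [Finset.sum_congr rfl fun s _ => h3 s, sum_range_zmod (fun x => F.eval x)]
  have h4 : ∀ x : ZMod p, F.eval x = ∑ i ∈ Finset.range p, F.coeff i * x ^ i := by
    intro x
    exact Polynomial.eval_eq_sum_range' (by omega) x
  rw [Finset.sum_congr rfl fun x _ => h4 x, Finset.sum_comm]
  have h5 : ∀ i ∈ Finset.range p, ∑ x : ZMod p, F.coeff i * x ^ i =
      if i = p - 1 then -c else 0 := by
    intro i hi
    rw [← Finset.mul_sum]
    split_ifs with hip
    · rw [hip, h2, sum_pow_top]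
      ring
    · rw [FiniteField.sum_pow_lt_card_sub_one (ZMod p) i, mul_zero]
      rw [ZMod.card]
      rw [Finset.mem_range] at hi
      omega
  rw [Finset.sum_congr rfl h5, Finset.sum_ite_eq', if_pos (Finset.mem_range.mpr (by omega))]

theorem pow_ind (x : ZMod p) : x ^ (p - 1) = if x = 0 then 0 else 1 := by
  split_ifs with h
  · rw [h, zero_pow]
    have := hp.out.two_le
    omega
  · exact ZMod.pow_card_sub_one_eq_one h

theorem point_sum (a b a' b' : ZMod p) :
    (∑ s ∈ Finset.range p, if a + s * a' = 0 ∧ b + s * b' = 0 then (1 : ZMod p) else 0) =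
      1 - (if a' = 0 ∧ b' = 0 then 1 else 0) - (a' * b - b' * a) ^ (p - 1) := by
  rw [sum_range_zmod (fun x => if a + x * a' = 0 ∧ b + x * b' = 0 then (1 : ZMod p) else 0),
    pow_ind]
  by_cases ha : a' = 0
  · by_cases hb : b' = 0
    · subst ha hb
      simp
    · have hx : ∀ x : ZMod p, b + x * b' = 0 ↔ x = -b / b' := by
        intro x
        rw [eq_div_iff hb]
        constructor
        · intro h; linear_combination h
        · intro h; linear_combination h
      rw [Finset.sum_eq_single (-b / b')]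
      · have h1 : b + -b / b' * b' = 0 := (hx _).mpr rfl
        rw [ha]
        by_cases h2 : a = 0
        · rw [h2]
          simp [h1, hb]
        · have h3 : ¬ (0 * b - b' * a = 0) := by
            rw [zero_mul, zero_sub, neg_eq_zero]
            exact mul_ne_zero hb h2
          simp [h2, hb, h3]
      · intro x _ hne
        rw [if_neg]
        rintro ⟨_, h⟩
        exact hne ((hx x).mp h)
      · intro h
        exact absurd (Finset.mem_univ _) h
  · have hx : ∀ x : ZMod p, a + x * a' = 0 ↔ x = -a / a' := by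
      intro x
      rw [eq_div_iff ha]
      constructor
      · intro h; linear_combination h
      · intro h; linear_combination h
    rw [Finset.sum_eq_single (-a / a')]
    · have h1 : a + -a / a' * a' = 0 := (hx _).mpr rfl
      have h2 : b + -a / a' * b' = 0 ↔ a' * b - b' * a = 0 := by
        have h3 : a' * (b + -a / a' * b') = a' * b - b' * a := by
          field_simp
          ring
        constructor
        · intro h
          rw [← h3, h, mul_zero]
        · intro h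
          rw [← h3] at h
          exact (mul_eq_zero.mp h).resolve_left ha
      rw [if_neg (fun h : a' = 0 ∧ b' = 0 => ha h.1)]
      by_cases h4 : a' * b - b' * a = 0
      · rw [if_pos ⟨h1, h2.mpr h4⟩, if_pos h4]
        ring
      · rw [if_neg (fun h => h4 (h2.mp h.2)), if_neg h4]
        ring
    · intro x _ hne
      rw [if_neg]
      rintro ⟨h, _⟩
      exact hne ((hx x).mp h)
    · intro h
      exact absurd (Finset.mem_univ _) h

/-- Not every finite `p`-group with `2 p - 1` independent subgroups of index `p` and exponent `p`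
has exponent `p`, for every prime `p ≥ 5`. -/
theorem not_forces_loop (hp5 : 5 ≤ p) : ¬ Forces p (2 * p - 1) := by
  classical
  have hpp := hp.out
  have h2 : (2 : ZMod p) ≠ 0 := by
    intro h
    have h1 : ((2 : ℕ) : ZMod p) = 0 := by exact_mod_cast h
    rw [ZMod.natCast_eq_zero_iff] at h1
    have := Nat.le_of_dvd (by norm_num) h1
    omega
  have h3 : (3 : ZMod p) ≠ 0 := by
    intro h
    have h1 : ((3 : ℕ) : ZMod p) = 0 := by exact_mod_cast h
    rw [ZMod.natCast_eq_zero_iff] at h1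
    have := Nat.le_of_dvd (by norm_num) h1
    omega
  have h24 : (24 : ZMod p) ≠ 0 := by
    have : (24 : ZMod p) = 2 ^ 3 * 3 := by norm_num
    rw [this]
    exact mul_ne_zero (pow_ne_zero 3 h2) h3
  have h6 : (6 : ZMod p) ≠ 0 := by
    have : (6 : ZMod p) = 2 * 3 := by norm_num
    rw [this]
    exact mul_ne_zero h2 h3
  have h864 : (864 : ZMod p) ≠ 0 := by
    have : (864 : ZMod p) = 2 ^ 5 * 3 ^ 3 := by norm_num
    rw [this]
    exact mul_ne_zero (pow_ne_zero 5 h2) (pow_ne_zero 3 h3)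
  have hev : 2 ∣ p - 1 := by
    have := hpp.eq_two_or_odd
    omega
  have hc : cN (ZMod p) (p - 1) ≠ 0 := by
    unfold cN
    split_ifs
    · exact pow_ne_zero _ h6
    · exact mul_ne_zero h864 (pow_ne_zero _ h6)
  let f : PP (ZMod p) → ZMod p := fun u => (cN (ZMod p) (p - 1))⁻¹ * hN (p - 1) u -
    (if coeff 1 ((mt u) 0 2) = 0 ∧ coeff 1 ((mt u) 1 2) = 0 then 1 else 0)
  refine not_forces_two (p := p) pi1 pi2 (pi_surj h2) (by omega) (Cg (ZMod p)) f ?_ ?_
  · intro w x hx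
    have e1 := hN_inv (p - 1) w hx
    obtain ⟨Y, hY⟩ := hx
    have e2 : ∀ i j, coeff 1 ((mt (w * x)) i j) = coeff 1 ((mt w) i j) := by
      intro i j
      rw [mt_mul, hY, mul_add, mul_one, Matrix.mul_smul, Matrix.add_apply, Matrix.smul_apply,
        map_add, smul_eq_mul, coeff_X_pow_mul', if_neg (by norm_num), add_zero]
    show _ - _ = _ - _
    rw [e1, e2, e2]
  · intro w g
    have k1 := (hN_Pl h24 (show 4 ≤ p - 1 by omega) hev w g).lineSum
    have k2 : ∀ s : ℕ, (if coeff 1 ((mt (w * g ^ s)) 0 2) = 0 ∧ coeff 1 ((mt (w * g ^ s)) 1 2) = 0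
        then (1 : ZMod p) else 0) =
        if coeff 1 ((mt w) 0 2) + s * coeff 1 ((mt g) 0 2) = 0 ∧
          coeff 1 ((mt w) 1 2) + s * coeff 1 ((mt g) 1 2) = 0 then 1 else 0 := by
      intro s
      have m1 : coeff 1 ((mt (w * g ^ s)) 0 2) =
          coeff 1 ((mt w) 0 2) + s * coeff 1 ((mt g) 0 2) := by
        have := congrArg Multiplicative.toAdd (map_mul (pi1 (K := ZMod p)) w (g ^ s))
        rw [map_pow, toAdd_mul, toAdd_pow, nsmul_eq_mul] at this
        exact this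
      have m2 : coeff 1 ((mt (w * g ^ s)) 1 2) =
          coeff 1 ((mt w) 1 2) + s * coeff 1 ((mt g) 1 2) := by
        have := congrArg Multiplicative.toAdd (map_mul (pi2 (K := ZMod p)) w (g ^ s))
        rw [map_pow, toAdd_mul, toAdd_pow, nsmul_eq_mul] at this
        exact this
      rw [m1, m2]
    have k3 := point_sum (coeff 1 ((mt w) 0 2)) (coeff 1 ((mt w) 1 2)) (coeff 1 ((mt g) 0 2))
      (coeff 1 ((mt g) 1 2))
    have k4 : ∑ s ∈ Finset.range p, f (w * g ^ s) =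
        (cN (ZMod p) (p - 1))⁻¹ * (∑ s ∈ Finset.range p, hN (p - 1) (w * g ^ s)) -
        ∑ s ∈ Finset.range p, (if coeff 1 ((mt w) 0 2) + s * coeff 1 ((mt g) 0 2) = 0 ∧
          coeff 1 ((mt w) 1 2) + s * coeff 1 ((mt g) 1 2) = 0 then (1 : ZMod p) else 0) := by
      rw [Finset.mul_sum, ← Finset.sum_sub_distrib]
      refine Finset.sum_congr rfl fun s _ => ?_
      rw [← k2 s]
    have k5 : (pi1 g = 1 ∧ pi2 g = 1) ↔ (coeff 1 ((mt g) 0 2) = 0 ∧ coeff 1 ((mt g) 1 2) = 0) :=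
      Iff.rfl
    rw [k4, k1, k3]
    have k6 : (if pi1 g = 1 ∧ pi2 g = 1 then (1 : ZMod p) else 0) =
        if coeff 1 ((mt g) 0 2) = 0 ∧ coeff 1 ((mt g) 1 2) = 0 then 1 else 0 := by
      by_cases h : coeff 1 ((mt g) 0 2) = 0 ∧ coeff 1 ((mt g) 1 2) = 0
      · rw [if_pos h, if_pos (k5.mpr h)]
      · rw [if_neg h, if_neg (fun h' => h (k5.mp h'))]
    rw [k6, mul_neg, inv_mul_cancel_left₀ hc]
    ring

end lines

/-- The lower bound for the function of Q1. -/
theorem pow_le_of_bound {p : ℕ} (hp : p.Prime) (hp5 : 5 ≤ p) {N : ℕ} (h : Bound p N) :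
    p ^ (2 * p - 1) ≤ N := by
  have : Fact p.Prime := ⟨hp⟩
  by_contra hlt
  exact not_forces_loop hp5 (forces_of_bound (by omega) (by omega) h (by omega))

end Pool.H51Loop
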