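import Pool.Agent.Lib.H51Loop.Poly

/-!
# The functions `j4` and `j6`
-/

set_option autoImplicit false

namespace Pool.H51Loop

open PowerSeries

variable {K : Type} [Field K]

/-- The last unit vector. -/
noncomputable def e3 : Fin 3 → K⟦X⟧ := ![0, 0, 1]

/-- `uu G j = (G - 1) ^ j e3`. -/
noncomputable def uu (G : Mt K) : ℕ → Fin 3 → K⟦X⟧
  | 0 => e3
  | j + 1 => (G - 1).mulVec (uu G j)

/-- The last column of `12 n - 6 n ^ 2 + 4 n ^ 3 - 3 n ^ 4`, `n = G - 1`. -/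
noncomputable def zcol (G : Mt K) : Fin 3 → K⟦X⟧ := fun i =>
  (12 : ℕ) * uu G 1 i - (6 : ℕ) * uu G 2 i + (4 : ℕ) * uu G 3 i - (3 : ℕ) * uu G 4 i

/-- `2 × 2` minors of the coefficients. -/
noncomputable def Om (z : Fin 3 → K⟦X⟧) (i j : ℕ) : K :=
  coeff i (z 0) * coeff j (z 1) - coeff i (z 1) * coeff j (z 0)

/-- The function of degree four. -/
noncomputable def j4 (z : Fin 3 → K⟦X⟧) : K :=
  24 * Om z 1 4 - 32 * Om z 2 3 - 27 * (coeff 1 (z 2) * coeff 3 (z 2))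

/-- The function of degree six. -/
noncomputable def j6 (z : Fin 3 → K⟦X⟧) : K :=
  -55296 * Om z 3 4 + 160 * (Om z 1 2 * Om z 1 4) - 320 * (Om z 1 2 * Om z 2 3)
    - 168 * (Om z 1 2 * (coeff 1 (z 2) * coeff 3 (z 2)))
    - 27 * (coeff 1 (z 2) ^ 3 * coeff 3 (z 2))

theorem uu_conj {A G G' : Mt K} {q : K⟦X⟧} (h : A * G = G' * A) (hA : A.mulVec e3 = q • e3)
    (j : ℕ) : A.mulVec (uu G j) = q • uu G' j := by
  induction j with
  | zero => exact hA
  | succ j ih =>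
    show A.mulVec ((G - 1).mulVec (uu G j)) = q • (G' - 1).mulVec (uu G' j)
    rw [Matrix.mulVec_mulVec]
    have h1 : A * (G - 1) = (G' - 1) * A := by
      rw [mul_sub, sub_mul, h, mul_one, one_mul]
    rw [h1, ← Matrix.mulVec_mulVec, ih, Matrix.mulVec_smul]

theorem zcol_eq (G : Mt K) : zcol G =
    (12 : ℕ) • uu G 1 - (6 : ℕ) • uu G 2 + (4 : ℕ) • uu G 3 - (3 : ℕ) • uu G 4 := by
  funext i
  simp only [zcol, Pi.sub_apply, Pi.add_apply, Pi.smul_apply]
  simp only [nsmul_eq_mul]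

theorem zcol_conj {A G G' : Mt K} {q : K⟦X⟧} (h : A * G = G' * A) (hA : A.mulVec e3 = q • e3) :
    A.mulVec (zcol G) = q • zcol G' := by
  have hn : ∀ (n : ℕ) (v : Fin 3 → K⟦X⟧), A.mulVec (n • v) = n • A.mulVec v := by
    intro n v
    exact map_nsmul (Matrix.mulVecLin A) n v
  rw [zcol_eq, zcol_eq, Matrix.mulVec_sub, Matrix.mulVec_add, Matrix.mulVec_sub, hn, hn, hn, hn,
    uu_conj h hA, uu_conj h hA, uu_conj h hA, uu_conj h hA]
  funext i
  simp only [Pi.sub_apply, Pi.add_apply, Pi.smul_apply, smul_eq_mul]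
  simp only [nsmul_eq_mul]
  ring

theorem ct_e3 : ∀ i, C (constantCoeff ((e3 (K := K)) i)) = e3 (K := K) i := by
  intro i
  fin_cases i <;> simp [e3]

theorem VPl.e3 : VPl (fun _ => e3 (K := K)) (Pool.H51Loop.e3 (K := K)) := by
  intro i
  have := SPl.const ((Pool.H51Loop.e3 (K := K)) i)
  rwa [ct_e3] at this

theorem uu_VPl {G : ℕ → Mt K} {H : Mt K} (h : MPl G H) (j : ℕ) :
    VPl (fun s => uu (G s) j) (uu H j) := by
  induction j with
  | zero => exact VPl.e3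
  | succ j ih => exact h.sub_one.mulVec ih

theorem zcol_VPl {G : ℕ → Mt K} {H : Mt K} (h : MPl G H) :
    VPl (fun s => zcol (G s)) (zcol H) := by
  intro i
  exact ((((uu_VPl h 1 i).natCast_mul 12).sub ((uu_VPl h 2 i).natCast_mul 6)).add
    ((uu_VPl h 3 i).natCast_mul 4)).sub ((uu_VPl h 4 i).natCast_mul 3)

section caseA

/-- Multiplying the second component by `X`. -/
noncomputable def shA (z : Fin 3 → K⟦X⟧) : Fin 3 → K⟦X⟧ := ![z 0, X * z 1, z 2]

theorem j4_shA {z : ℕ → Fin 3 → K⟦X⟧} {h : Fin 3 → K⟦X⟧} (hz : VPl z h) :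
    Pl (fun s => j4 (shA (z s))) 4 (j4 (shA h)) := by
  have a : ∀ k ≤ 4, Pl (fun s => coeff k (shA (z s) 0)) k (coeff k (shA h 0)) := hz 0
  have b : ∀ k ≤ 4, Pl (fun s => coeff (k + 1) (shA (z s) 1)) k (coeff (k + 1) (shA h 1)) := by
    intro k hk
    refine (hz 1 k hk).congr (fun s => ?_) ?_
    · exact coeff_succ_X_mul k _
    · exact (coeff_succ_X_mul k _).symm
  have c : ∀ k ≤ 4, Pl (fun s => coeff k (shA (z s) 2)) k (coeff k (shA h 2)) := hz 2
  have h14 : Pl (fun s => Om (shA (z s)) 1 4) 4 (Om (shA h) 1 4) :=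
    ((a 1 (by norm_num)).mul (b 3 (by norm_num))).sub
      ((b 0 (by norm_num)).mul (a 4 (by norm_num)))
  have h23 : Pl (fun s => Om (shA (z s)) 2 3) 4 (Om (shA h) 2 3) :=
    ((a 2 (by norm_num)).mul (b 2 (by norm_num))).sub
      ((b 1 (by norm_num)).mul (a 3 (by norm_num)))
  have h33 := (c 1 (by norm_num)).mul (c 3 (by norm_num))
  exact ((h14.cmul 24).sub (h23.cmul 32)).sub (h33.cmul 27)

theorem j6_shA {z : ℕ → Fin 3 → K⟦X⟧} {h : Fin 3 → K⟦X⟧} (hz : VPl z h) :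
    Pl (fun s => j6 (shA (z s))) 6 (j6 (shA h)) := by
  have a : ∀ k ≤ 4, Pl (fun s => coeff k (shA (z s) 0)) k (coeff k (shA h 0)) := hz 0
  have b : ∀ k ≤ 4, Pl (fun s => coeff (k + 1) (shA (z s) 1)) k (coeff (k + 1) (shA h 1)) := by
    intro k hk
    refine (hz 1 k hk).congr (fun s => ?_) ?_
    · exact coeff_succ_X_mul k _
    · exact (coeff_succ_X_mul k _).symm
  have c : ∀ k ≤ 4, Pl (fun s => coeff k (shA (z s) 2)) k (coeff k (shA h 2)) := hz 2
  have h12 : Pl (fun s => Om (shA (z s)) 1 2) 2 (Om (shA h) 1 2) :=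
    ((a 1 (by norm_num)).mul (b 1 (by norm_num))).sub
      ((b 0 (by norm_num)).mul (a 2 (by norm_num)))
  have h14 : Pl (fun s => Om (shA (z s)) 1 4) 4 (Om (shA h) 1 4) :=
    ((a 1 (by norm_num)).mul (b 3 (by norm_num))).sub
      ((b 0 (by norm_num)).mul (a 4 (by norm_num)))
  have h23 : Pl (fun s => Om (shA (z s)) 2 3) 4 (Om (shA h) 2 3) :=
    ((a 2 (by norm_num)).mul (b 2 (by norm_num))).sub
      ((b 1 (by norm_num)).mul (a 3 (by norm_num)))
  have h34 : Pl (fun s => Om (shA (z s)) 3 4) 6 (Om (shA h) 3 4) :=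
    ((a 3 (by norm_num)).mul (b 3 (by norm_num))).sub
      ((b 2 (by norm_num)).mul (a 4 (by norm_num)))
  have h33 := (c 1 (by norm_num)).mul (c 3 (by norm_num))
  have h333 := ((c 1 (by norm_num)).pow 3).mul (c 3 (by norm_num))
  exact ((((h34.cmul (-55296)).add ((h12.mul h14).cmul 160)).sub
    ((h12.mul h23).cmul 320)).sub ((h12.mul h33).cmul 168)).sub (h333.cmul 27)

end caseA

section caseB

/-- Multiplying the first two components by `X`. -/
noncomputable def shB (z : Fin 3 → K⟦X⟧) : Fin 3 → K⟦X⟧ := ![X * z 0, X * z 1, z 2]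

theorem j4_shB {z : ℕ → Fin 3 → K⟦X⟧} {h : Fin 3 → K⟦X⟧} (hz : VPl z h)
    (h0 : coeff 3 (h 2) = 0) : Pl (fun s => j4 (shB (z s))) 4 0 := by
  have a : ∀ k ≤ 4, Pl (fun s => coeff (k + 1) (shB (z s) 0)) k (coeff (k + 1) (shB h 0)) := by
    intro k hk
    refine (hz 0 k hk).congr (fun s => ?_) ?_
    · exact coeff_succ_X_mul k _
    · exact (coeff_succ_X_mul k _).symm
  have b : ∀ k ≤ 4, Pl (fun s => coeff (k + 1) (shB (z s) 1)) k (coeff (k + 1) (shB h 1)) := by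
    intro k hk
    refine (hz 1 k hk).congr (fun s => ?_) ?_
    · exact coeff_succ_X_mul k _
    · exact (coeff_succ_X_mul k _).symm
  have c : ∀ k ≤ 4, Pl (fun s => coeff k (shB (z s) 2)) k (coeff k (shB h 2)) := hz 2
  have h14 : Pl (fun s => Om (shB (z s)) 1 4) 3 (Om (shB h) 1 4) :=
    ((a 0 (by norm_num)).mul (b 3 (by norm_num))).sub
      ((b 0 (by norm_num)).mul (a 3 (by norm_num)))
  have h23 : Pl (fun s => Om (shB (z s)) 2 3) 3 (Om (shB h) 2 3) :=
    ((a 1 (by norm_num)).mul (b 2 (by norm_num))).sub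
      ((b 1 (by norm_num)).mul (a 2 (by norm_num)))
  have h33 := (c 1 (by norm_num)).mul (c 3 (by norm_num))
  have h0' : coeff 3 (shB h 2) = 0 := h0
  have l14 := h14.lift (show 3 < 4 by norm_num)
  have l23 := h23.lift (show 3 < 4 by norm_num)
  exact (((l14.cmul 24).sub (l23.cmul 32)).sub (h33.cmul 27)).congr (fun _ => rfl)
    (by rw [h0']; ring)

theorem j6_shB {z : ℕ → Fin 3 → K⟦X⟧} {h : Fin 3 → K⟦X⟧} (hz : VPl z h)
    (h0 : coeff 3 (h 2) = 0) : Pl (fun s => j6 (shB (z s))) 6 0 := by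
  have a : ∀ k ≤ 4, Pl (fun s => coeff (k + 1) (shB (z s) 0)) k (coeff (k + 1) (shB h 0)) := by
    intro k hk
    refine (hz 0 k hk).congr (fun s => ?_) ?_
    · exact coeff_succ_X_mul k _
    · exact (coeff_succ_X_mul k _).symm
  have b : ∀ k ≤ 4, Pl (fun s => coeff (k + 1) (shB (z s) 1)) k (coeff (k + 1) (shB h 1)) := by
    intro k hk
    refine (hz 1 k hk).congr (fun s => ?_) ?_
    · exact coeff_succ_X_mul k _
    · exact (coeff_succ_X_mul k _).symm
  have c : ∀ k ≤ 4, Pl (fun s => coeff k (shB (z s) 2)) k (coeff k (shB h 2)) := hz 2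
  have h12 : Pl (fun s => Om (shB (z s)) 1 2) 1 (Om (shB h) 1 2) :=
    ((a 0 (by norm_num)).mul (b 1 (by norm_num))).sub
      ((b 0 (by norm_num)).mul (a 1 (by norm_num)))
  have h14 : Pl (fun s => Om (shB (z s)) 1 4) 3 (Om (shB h) 1 4) :=
    ((a 0 (by norm_num)).mul (b 3 (by norm_num))).sub
      ((b 0 (by norm_num)).mul (a 3 (by norm_num)))
  have h23 : Pl (fun s => Om (shB (z s)) 2 3) 3 (Om (shB h) 2 3) :=
    ((a 1 (by norm_num)).mul (b 2 (by norm_num))).sub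
      ((b 1 (by norm_num)).mul (a 2 (by norm_num)))
  have h34 : Pl (fun s => Om (shB (z s)) 3 4) 5 (Om (shB h) 3 4) :=
    ((a 2 (by norm_num)).mul (b 3 (by norm_num))).sub
      ((b 2 (by norm_num)).mul (a 3 (by norm_num)))
  have h33 := (c 1 (by norm_num)).mul (c 3 (by norm_num))
  have h333 := ((c 1 (by norm_num)).pow 3).mul (c 3 (by norm_num))
  have h0' : coeff 3 (shB h 2) = 0 := h0
  have l34 := h34.lift (show 5 < 6 by norm_num)
  have l1214 := (h12.mul h14).lift (show 1 + 3 < 6 by norm_num)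
  have l1223 := (h12.mul h23).lift (show 1 + 3 < 6 by norm_num)
  have l1233 := (h12.mul h33).lift (show 1 + (1 + 3) < 6 by norm_num)
  exact (((((l34.cmul (-55296)).add (l1214.cmul 160)).sub
    (l1223.cmul 320)).sub (l1233.cmul 168)).sub (h333.cmul 27)).congr (fun _ => rfl)
    (by rw [h0']; ring)

end caseB

end Pool.H51Loop
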