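import Pool.Agent.Lib.H51Loop.Func

/-!
# The limit in the first case

This file was written by a script; it contains only explicit polynomial identities.
-/

set_option autoImplicit false
set_option linter.unusedSimpArgs false
set_option linter.unusedVariables false

namespace Pool.H51Loop

open PowerSeries

variable {K : Type} [Field K]

theorem limA_aux (x v d m : K) (h24 : (24 : K) ≠ 0) (cN : ℕ → Fin 3 → Fin 3 → K)
    (cu : ℕ → ℕ → Fin 3 → K)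
    (hrec : ∀ j e i, 24 * cu (j + 1) e i =
      ∑ a ∈ Finset.range (e + 1), ∑ l : Fin 3, cN a i l * cu j (e - a) l)
    (u0_0_0 : cu 0 0 0 = 0)
    (u0_0_1 : cu 0 0 1 = 0)
    (u0_0_2 : cu 0 0 2 = 24)
    (u0_1_0 : cu 0 1 0 = 0)
    (u0_1_1 : cu 0 1 1 = 0)
    (u0_1_2 : cu 0 1 2 = 0)
    (u0_2_0 : cu 0 2 0 = 0)
    (u0_2_1 : cu 0 2 1 = 0)
    (u0_2_2 : cu 0 2 2 = 0)
    (u0_3_0 : cu 0 3 0 = 0)
    (u0_3_1 : cu 0 3 1 = 0)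
    (u0_3_2 : cu 0 3 2 = 0)
    (u0_4_0 : cu 0 4 0 = 0)
    (u0_4_1 : cu 0 4 1 = 0)
    (u0_4_2 : cu 0 4 2 = 0)
    (n0_0_0 : cN 0 0 0 = 0)
    (n0_0_1 : cN 0 0 1 = 0)
    (n0_0_2 : cN 0 0 2 = 0)
    (n0_1_0 : cN 0 1 0 = 12 * x ^ 2)
    (n0_1_1 : cN 0 1 1 = 0)
    (n0_1_2 : cN 0 1 2 = 24 * x)
    (n0_2_0 : cN 0 2 0 = 24 * x)
    (n0_2_1 : cN 0 2 1 = 0)
    (n0_2_2 : cN 0 2 2 = 0)
    (n1_0_0 : cN 1 0 0 = 24 * v)
    (n1_0_1 : cN 1 0 1 = 0)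
    (n1_0_2 : cN 1 0 2 = 24)
    (n1_1_0 : cN 1 1 0 = 12 * x ^ 2 * v - 24 * x * d + 24 * m)
    (n1_1_1 : cN 1 1 1 = -24 * x + 24 * v)
    (n1_1_2 : cN 1 1 2 = 12 * x ^ 2 - 48 * x * v + 24 * d)
    (n1_2_0 : cN 1 2 0 = 24 * x * v - 24 * d)
    (n1_2_1 : cN 1 2 1 = -24)
    (n1_2_2 : cN 1 2 2 = 24 * x - 48 * v)
    (n2_0_0 : cN 2 0 0 = 12 * v ^ 2 - 12 * d)
    (n2_0_1 : cN 2 0 1 = -12)
    (n2_0_2 : cN 2 0 2 = -12 * v)
    (n2_1_0 : cN 2 1 0 = 6 * x ^ 2 * v ^ 2 - 6 * x ^ 2 * d + 12 * x * v * d - 12 * x * m + 24 * v * m - 12 * d ^ 2)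
    (n2_1_1 : cN 2 1 1 = -6 * x ^ 2 + 12 * x * v + 12 * v ^ 2 - 12 * d)
    (n2_1_2 : cN 2 1 2 = -6 * x ^ 2 * v + 48 * x * v ^ 2 - 24 * x * d - 12 * v * d + 12 * m)
    (n2_2_0 : cN 2 2 0 = 12 * x * v ^ 2 - 12 * x * d + 12 * v * d - 12 * m)
    (n2_2_1 : cN 2 2 1 = -12 * x + 12 * v)
    (n2_2_2 : cN 2 2 2 = -12 * x * v + 48 * v ^ 2 - 24 * d)
    (n3_0_0 : cN 3 0 0 = 4 * v ^ 3 - 4 * m)
    (n3_0_1 : cN 3 0 1 = 0)
    (n3_0_2 : cN 3 0 2 = 12 * v ^ 2 - 8 * d)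
    (n3_1_0 : cN 3 1 0 = 2 * x ^ 2 * v ^ 3 - 2 * x ^ 2 * m - 12 * x * v ^ 2 * d + 8 * x * d ^ 2 + 12 * v ^ 2 * m - 8 * d * m)
    (n3_1_1 : cN 3 1 1 = -12 * x * v ^ 2 + 8 * x * d + 4 * v ^ 3 - 4 * m)
    (n3_1_2 : cN 3 1 2 = 6 * x ^ 2 * v ^ 2 - 4 * x ^ 2 * d - 32 * x * v ^ 3 + 24 * x * v * d - 4 * x * m + 12 * v ^ 2 * d - 8 * d ^ 2)
    (n3_2_0 : cN 3 2 0 = 4 * x * v ^ 3 - 4 * x * m - 12 * v ^ 2 * d + 8 * d ^ 2)
    (n3_2_1 : cN 3 2 1 = -12 * v ^ 2 + 8 * d)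
    (n3_2_2 : cN 3 2 2 = 12 * x * v ^ 2 - 8 * x * d - 32 * v ^ 3 + 24 * v * d - 4 * m)
    (n4_0_0 : cN 4 0 0 = v ^ 4 - 3 * v ^ 2 * d - v * m + 2 * d ^ 2)
    (n4_0_1 : cN 4 0 1 = -3 * v ^ 2 + 2 * d)
    (n4_0_2 : cN 4 0 2 = -5 * v ^ 3 + 4 * v * d - m)
    :
    12 * cu 1 1 0 - 6 * cu 2 1 0 + 4 * cu 3 1 0 - 3 * cu 4 1 0 = 288 ∧
    12 * cu 1 2 0 - 6 * cu 2 2 0 + 4 * cu 3 2 0 - 3 * cu 4 2 0 = -72 * x ∧
    12 * cu 1 3 0 - 6 * cu 2 3 0 + 4 * cu 3 3 0 - 3 * cu 4 3 0 = 12 * x ^ 2 ∧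
    12 * cu 1 4 0 - 6 * cu 2 4 0 + 4 * cu 3 4 0 - 3 * cu 4 4 0 = -3 * x ^ 3 + 18 * x * v ^ 2 - 12 * x * d ∧
    12 * cu 1 0 1 - 6 * cu 2 0 1 + 4 * cu 3 0 1 - 3 * cu 4 0 1 = 288 * x ∧
    12 * cu 1 1 1 - 6 * cu 2 1 1 + 4 * cu 3 1 1 - 3 * cu 4 1 1 = 72 * x ^ 2 - 432 * x * v + 288 * d ∧
    12 * cu 1 2 1 - 6 * cu 2 2 1 + 4 * cu 3 2 1 - 3 * cu 4 2 1 = 12 * x ^ 3 - 36 * x ^ 2 * v + 216 * x * v ^ 2 - 120 * x * d ∧
    12 * cu 1 3 1 - 6 * cu 2 3 1 + 4 * cu 3 3 1 - 3 * cu 4 3 1 = 3 * x ^ 4 - 18 * x ^ 3 * v + 12 * x ^ 2 * d ∧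
    12 * cu 1 1 2 - 6 * cu 2 1 2 + 4 * cu 3 1 2 - 3 * cu 4 1 2 = 288 * x - 576 * v ∧
    12 * cu 1 3 2 - 6 * cu 2 3 2 + 4 * cu 3 3 2 - 3 * cu 4 3 2 = 12 * x ^ 3 - 24 * x ^ 2 * v := by
  have u1_0_0 : cu 1 0 0 = 0 := by
    apply mul_left_cancel₀ h24
    have hr := hrec 0 0 0
    simp only [Finset.sum_range_succ, Finset.sum_range_zero, Fin.sum_univ_three,
      Nat.reduceAdd, Nat.reduceSub, zero_add, Nat.sub_zero, zero_mul, n0_0_0, u0_0_0, n0_0_1, u0_0_1, n0_0_2, u0_0_2] at hr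
    rw [hr]
    ring
  have u1_0_1 : cu 1 0 1 = 24 * x := by
    apply mul_left_cancel₀ h24
    have hr := hrec 0 0 1
    simp only [Finset.sum_range_succ, Finset.sum_range_zero, Fin.sum_univ_three,
      Nat.reduceAdd, Nat.reduceSub, zero_add, Nat.sub_zero, zero_mul, n0_1_0, u0_0_0, n0_1_1, u0_0_1, n0_1_2, u0_0_2] at hr
    rw [hr]
    ring
  have u1_0_2 : cu 1 0 2 = 0 := by
    apply mul_left_cancel₀ h24
    have hr := hrec 0 0 2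
    simp only [Finset.sum_range_succ, Finset.sum_range_zero, Fin.sum_univ_three,
      Nat.reduceAdd, Nat.reduceSub, zero_add, Nat.sub_zero, zero_mul, n0_2_0, u0_0_0, n0_2_1, u0_0_1, n0_2_2, u0_0_2] at hr
    rw [hr]
    ring
  have u1_1_0 : cu 1 1 0 = 24 := by
    apply mul_left_cancel₀ h24
    have hr := hrec 0 1 0
    simp only [Finset.sum_range_succ, Finset.sum_range_zero, Fin.sum_univ_three,
      Nat.reduceAdd, Nat.reduceSub, zero_add, Nat.sub_zero, zero_mul, n0_0_0, u0_1_0, n0_0_1, u0_1_1, n0_0_2, u0_1_2, n1_0_0, u0_0_0, n1_0_1, u0_0_1, n1_0_2, u0_0_2] at hr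
    rw [hr]
    ring
  have u1_1_1 : cu 1 1 1 = 12 * x ^ 2 - 48 * x * v + 24 * d := by
    apply mul_left_cancel₀ h24
    have hr := hrec 0 1 1
    simp only [Finset.sum_range_succ, Finset.sum_range_zero, Fin.sum_univ_three,
      Nat.reduceAdd, Nat.reduceSub, zero_add, Nat.sub_zero, zero_mul, n0_1_0, u0_1_0, n0_1_1, u0_1_1, n0_1_2, u0_1_2, n1_1_0, u0_0_0, n1_1_1, u0_0_1, n1_1_2, u0_0_2] at hr
    rw [hr]
    ring
  have u1_1_2 : cu 1 1 2 = 24 * x - 48 * v := by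
    apply mul_left_cancel₀ h24
    have hr := hrec 0 1 2
    simp only [Finset.sum_range_succ, Finset.sum_range_zero, Fin.sum_univ_three,
      Nat.reduceAdd, Nat.reduceSub, zero_add, Nat.sub_zero, zero_mul, n0_2_0, u0_1_0, n0_2_1, u0_1_1, n0_2_2, u0_1_2, n1_2_0, u0_0_0, n1_2_1, u0_0_1, n1_2_2, u0_0_2] at hr
    rw [hr]
    ring
  have u1_2_0 : cu 1 2 0 = -12 * v := by
    apply mul_left_cancel₀ h24
    have hr := hrec 0 2 0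
    simp only [Finset.sum_range_succ, Finset.sum_range_zero, Fin.sum_univ_three,
      Nat.reduceAdd, Nat.reduceSub, zero_add, Nat.sub_zero, zero_mul, n0_0_0, u0_2_0, n0_0_1, u0_2_1, n0_0_2, u0_2_2, n1_0_0, u0_1_0, n1_0_1, u0_1_1, n1_0_2, u0_1_2, n2_0_0, u0_0_0, n2_0_1, u0_0_1, n2_0_2, u0_0_2] at hr
    rw [hr]
    ring
  have u1_2_1 : cu 1 2 1 = -6 * x ^ 2 * v + 48 * x * v ^ 2 - 24 * x * d - 12 * v * d + 12 * m := by
    apply mul_left_cancel₀ h24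
    have hr := hrec 0 2 1
    simp only [Finset.sum_range_succ, Finset.sum_range_zero, Fin.sum_univ_three,
      Nat.reduceAdd, Nat.reduceSub, zero_add, Nat.sub_zero, zero_mul, n0_1_0, u0_2_0, n0_1_1, u0_2_1, n0_1_2, u0_2_2, n1_1_0, u0_1_0, n1_1_1, u0_1_1, n1_1_2, u0_1_2, n2_1_0, u0_0_0, n2_1_1, u0_0_1, n2_1_2, u0_0_2] at hr
    rw [hr]
    ring
  have u1_2_2 : cu 1 2 2 = -12 * x * v + 48 * v ^ 2 - 24 * d := by
    apply mul_left_cancel₀ h24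
    have hr := hrec 0 2 2
    simp only [Finset.sum_range_succ, Finset.sum_range_zero, Fin.sum_univ_three,
      Nat.reduceAdd, Nat.reduceSub, zero_add, Nat.sub_zero, zero_mul, n0_2_0, u0_2_0, n0_2_1, u0_2_1, n0_2_2, u0_2_2, n1_2_0, u0_1_0, n1_2_1, u0_1_1, n1_2_2, u0_1_2, n2_2_0, u0_0_0, n2_2_1, u0_0_1, n2_2_2, u0_0_2] at hr
    rw [hr]
    ring
  have u1_3_0 : cu 1 3 0 = 12 * v ^ 2 - 8 * d := by
    apply mul_left_cancel₀ h24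
    have hr := hrec 0 3 0
    simp only [Finset.sum_range_succ, Finset.sum_range_zero, Fin.sum_univ_three,
      Nat.reduceAdd, Nat.reduceSub, zero_add, Nat.sub_zero, zero_mul, n0_0_0, u0_3_0, n0_0_1, u0_3_1, n0_0_2, u0_3_2, n1_0_0, u0_2_0, n1_0_1, u0_2_1, n1_0_2, u0_2_2, n2_0_0, u0_1_0, n2_0_1, u0_1_1, n2_0_2, u0_1_2, n3_0_0, u0_0_0, n3_0_1, u0_0_1, n3_0_2, u0_0_2] at hr
    rw [hr]
    ring
  have u1_3_1 : cu 1 3 1 = 6 * x ^ 2 * v ^ 2 - 4 * x ^ 2 * d - 32 * x * v ^ 3 + 24 * x * v * d - 4 * x * m + 12 * v ^ 2 * d - 8 * d ^ 2 := by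
    apply mul_left_cancel₀ h24
    have hr := hrec 0 3 1
    simp only [Finset.sum_range_succ, Finset.sum_range_zero, Fin.sum_univ_three,
      Nat.reduceAdd, Nat.reduceSub, zero_add, Nat.sub_zero, zero_mul, n0_1_0, u0_3_0, n0_1_1, u0_3_1, n0_1_2, u0_3_2, n1_1_0, u0_2_0, n1_1_1, u0_2_1, n1_1_2, u0_2_2, n2_1_0, u0_1_0, n2_1_1, u0_1_1, n2_1_2, u0_1_2, n3_1_0, u0_0_0, n3_1_1, u0_0_1, n3_1_2, u0_0_2] at hr
    rw [hr]
    ring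
  have u1_3_2 : cu 1 3 2 = 12 * x * v ^ 2 - 8 * x * d - 32 * v ^ 3 + 24 * v * d - 4 * m := by
    apply mul_left_cancel₀ h24
    have hr := hrec 0 3 2
    simp only [Finset.sum_range_succ, Finset.sum_range_zero, Fin.sum_univ_three,
      Nat.reduceAdd, Nat.reduceSub, zero_add, Nat.sub_zero, zero_mul, n0_2_0, u0_3_0, n0_2_1, u0_3_1, n0_2_2, u0_3_2, n1_2_0, u0_2_0, n1_2_1, u0_2_1, n1_2_2, u0_2_2, n2_2_0, u0_1_0, n2_2_1, u0_1_1, n2_2_2, u0_1_2, n3_2_0, u0_0_0, n3_2_1, u0_0_1, n3_2_2, u0_0_2] at hr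
    rw [hr]
    ring
  have u1_4_0 : cu 1 4 0 = -5 * v ^ 3 + 4 * v * d - m := by
    apply mul_left_cancel₀ h24
    have hr := hrec 0 4 0
    simp only [Finset.sum_range_succ, Finset.sum_range_zero, Fin.sum_univ_three,
      Nat.reduceAdd, Nat.reduceSub, zero_add, Nat.sub_zero, zero_mul, n0_0_0, u0_4_0, n0_0_1, n0_0_2, n1_0_0, u0_3_0, n1_0_1, u0_3_1, n1_0_2, u0_3_2, n2_0_0, u0_2_0, n2_0_1, u0_2_1, n2_0_2, u0_2_2, n3_0_0, u0_1_0, n3_0_1, u0_1_1, n3_0_2, u0_1_2, n4_0_0, u0_0_0, n4_0_1, u0_0_1, n4_0_2, u0_0_2] at hr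
    rw [hr]
    ring
  have u2_0_0 : cu 2 0 0 = 0 := by
    apply mul_left_cancel₀ h24
    have hr := hrec 1 0 0
    simp only [Finset.sum_range_succ, Finset.sum_range_zero, Fin.sum_univ_three,
      Nat.reduceAdd, Nat.reduceSub, zero_add, Nat.sub_zero, zero_mul, n0_0_0, u1_0_0, n0_0_1, u1_0_1, n0_0_2, u1_0_2] at hr
    rw [hr]
    ring
  have u2_0_1 : cu 2 0 1 = 0 := by
    apply mul_left_cancel₀ h24
    have hr := hrec 1 0 1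
    simp only [Finset.sum_range_succ, Finset.sum_range_zero, Fin.sum_univ_three,
      Nat.reduceAdd, Nat.reduceSub, zero_add, Nat.sub_zero, zero_mul, n0_1_0, u1_0_0, n0_1_1, u1_0_1, n0_1_2, u1_0_2] at hr
    rw [hr]
    ring
  have u2_0_2 : cu 2 0 2 = 0 := by
    apply mul_left_cancel₀ h24
    have hr := hrec 1 0 2
    simp only [Finset.sum_range_succ, Finset.sum_range_zero, Fin.sum_univ_three,
      Nat.reduceAdd, Nat.reduceSub, zero_add, Nat.sub_zero, zero_mul, n0_2_0, u1_0_0, n0_2_1, u1_0_1, n0_2_2, u1_0_2] at hr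
    rw [hr]
    ring
  have u2_1_0 : cu 2 1 0 = 0 := by
    apply mul_left_cancel₀ h24
    have hr := hrec 1 1 0
    simp only [Finset.sum_range_succ, Finset.sum_range_zero, Fin.sum_univ_three,
      Nat.reduceAdd, Nat.reduceSub, zero_add, Nat.sub_zero, zero_mul, n0_0_0, u1_1_0, n0_0_1, u1_1_1, n0_0_2, u1_1_2, n1_0_0, u1_0_0, n1_0_1, u1_0_1, n1_0_2, u1_0_2] at hr
    rw [hr]
    ring
  have u2_1_1 : cu 2 1 1 = 12 * x ^ 2 - 24 * x * v := by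
    apply mul_left_cancel₀ h24
    have hr := hrec 1 1 1
    simp only [Finset.sum_range_succ, Finset.sum_range_zero, Fin.sum_univ_three,
      Nat.reduceAdd, Nat.reduceSub, zero_add, Nat.sub_zero, zero_mul, n0_1_0, u1_1_0, n0_1_1, u1_1_1, n0_1_2, u1_1_2, n1_1_0, u1_0_0, n1_1_1, u1_0_1, n1_1_2, u1_0_2] at hr
    rw [hr]
    ring
  have u2_1_2 : cu 2 1 2 = 0 := by
    apply mul_left_cancel₀ h24
    have hr := hrec 1 1 2
    simp only [Finset.sum_range_succ, Finset.sum_range_zero, Fin.sum_univ_three,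
      Nat.reduceAdd, Nat.reduceSub, zero_add, Nat.sub_zero, zero_mul, n0_2_0, u1_1_0, n0_2_1, u1_1_1, n0_2_2, u1_1_2, n1_2_0, u1_0_0, n1_2_1, u1_0_1, n1_2_2, u1_0_2] at hr
    rw [hr]
    ring
  have u2_2_0 : cu 2 2 0 = 12 * x - 24 * v := by
    apply mul_left_cancel₀ h24
    have hr := hrec 1 2 0
    simp only [Finset.sum_range_succ, Finset.sum_range_zero, Fin.sum_univ_three,
      Nat.reduceAdd, Nat.reduceSub, zero_add, Nat.sub_zero, zero_mul, n0_0_0, u1_2_0, n0_0_1, u1_2_1, n0_0_2, u1_2_2, n1_0_0, u1_1_0, n1_0_1, u1_1_1, n1_0_2, u1_1_2, n2_0_0, u1_0_0, n2_0_1, u1_0_1, n2_0_2, u1_0_2] at hr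
    rw [hr]
    ring
  have u2_2_1 : cu 2 2 1 = -6 * x ^ 3 - 6 * x ^ 2 * v + 108 * x * v ^ 2 - 60 * x * d - 24 * v * d + 24 * m := by
    apply mul_left_cancel₀ h24
    have hr := hrec 1 2 1
    simp only [Finset.sum_range_succ, Finset.sum_range_zero, Fin.sum_univ_three,
      Nat.reduceAdd, Nat.reduceSub, zero_add, Nat.sub_zero, zero_mul, n0_1_0, u1_2_0, n0_1_1, u1_2_1, n0_1_2, u1_2_2, n1_1_0, u1_1_0, n1_1_1, u1_1_1, n1_1_2, u1_1_2, n2_1_0, u1_0_0, n2_1_1, u1_0_1, n2_1_2, u1_0_2] at hr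
    rw [hr]
    ring
  have u2_2_2 : cu 2 2 2 = -24 * x * v + 96 * v ^ 2 - 48 * d := by
    apply mul_left_cancel₀ h24
    have hr := hrec 1 2 2
    simp only [Finset.sum_range_succ, Finset.sum_range_zero, Fin.sum_univ_three,
      Nat.reduceAdd, Nat.reduceSub, zero_add, Nat.sub_zero, zero_mul, n0_2_0, u1_2_0, n0_2_1, u1_2_1, n0_2_2, u1_2_2, n1_2_0, u1_1_0, n1_2_1, u1_1_1, n1_2_2, u1_1_2, n2_2_0, u1_0_0, n2_2_1, u1_0_1, n2_2_2, u1_0_2] at hr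
    rw [hr]
    ring
  have u2_3_0 : cu 2 3 0 = -6 * x ^ 2 + 72 * v ^ 2 - 48 * d := by
    apply mul_left_cancel₀ h24
    have hr := hrec 1 3 0
    simp only [Finset.sum_range_succ, Finset.sum_range_zero, Fin.sum_univ_three,
      Nat.reduceAdd, Nat.reduceSub, zero_add, Nat.sub_zero, zero_mul, n0_0_0, u1_3_0, n0_0_1, u1_3_1, n0_0_2, u1_3_2, n1_0_0, u1_2_0, n1_0_1, u1_2_1, n1_0_2, u1_2_2, n2_0_0, u1_1_0, n2_0_1, u1_1_1, n2_0_2, u1_1_2, n3_0_0, u1_0_0, n3_0_1, u1_0_1, n3_0_2, u1_0_2] at hr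
    rw [hr]
    ring
  have u2_3_1 : cu 2 3 1 = -3 * x ^ 4 + 12 * x ^ 3 * v + 42 * x ^ 2 * v ^ 2 - 34 * x ^ 2 * d - 196 * x * v ^ 3 + 144 * x * v * d - 20 * x * m + 72 * v ^ 2 * d - 48 * d ^ 2 := by
    apply mul_left_cancel₀ h24
    have hr := hrec 1 3 1
    simp only [Finset.sum_range_succ, Finset.sum_range_zero, Fin.sum_univ_three,
      Nat.reduceAdd, Nat.reduceSub, zero_add, Nat.sub_zero, zero_mul, n0_1_0, u1_3_0, n0_1_1, u1_3_1, n0_1_2, u1_3_2, n1_1_0, u1_2_0, n1_1_1, u1_2_1, n1_1_2, u1_2_2, n2_1_0, u1_1_0, n2_1_1, u1_1_1, n2_1_2, u1_1_2, n3_1_0, u1_0_0, n3_1_1, u1_0_1, n3_1_2, u1_0_2] at hr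
    rw [hr]
    ring
  have u2_3_2 : cu 2 3 2 = -6 * x ^ 3 + 12 * x ^ 2 * v + 72 * x * v ^ 2 - 48 * x * d - 192 * v ^ 3 + 144 * v * d - 24 * m := by
    apply mul_left_cancel₀ h24
    have hr := hrec 1 3 2
    simp only [Finset.sum_range_succ, Finset.sum_range_zero, Fin.sum_univ_three,
      Nat.reduceAdd, Nat.reduceSub, zero_add, Nat.sub_zero, zero_mul, n0_2_0, u1_3_0, n0_2_1, u1_3_1, n0_2_2, u1_3_2, n1_2_0, u1_2_0, n1_2_1, u1_2_1, n1_2_2, u1_2_2, n2_2_0, u1_1_0, n2_2_1, u1_1_1, n2_2_2, u1_1_2, n3_2_0, u1_0_0, n3_2_1, u1_0_1, n3_2_2, u1_0_2] at hr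
    rw [hr]
    ring
  have u2_4_0 : cu 2 4 0 = 3 * x ^ 2 * v + 3 * x * v ^ 2 - 2 * x * d - 70 * v ^ 3 + 56 * v * d - 14 * m := by
    apply mul_left_cancel₀ h24
    have hr := hrec 1 4 0
    simp only [Finset.sum_range_succ, Finset.sum_range_zero, Fin.sum_univ_three,
      Nat.reduceAdd, Nat.reduceSub, zero_add, Nat.sub_zero, zero_mul, n0_0_0, u1_4_0, n0_0_1, n0_0_2, n1_0_0, u1_3_0, n1_0_1, u1_3_1, n1_0_2, u1_3_2, n2_0_0, u1_2_0, n2_0_1, u1_2_1, n2_0_2, u1_2_2, n3_0_0, u1_1_0, n3_0_1, u1_1_1, n3_0_2, u1_1_2, n4_0_0, u1_0_0, n4_0_1, u1_0_1, n4_0_2, u1_0_2] at hr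
    rw [hr]
    ring
  have u3_0_0 : cu 3 0 0 = 0 := by
    apply mul_left_cancel₀ h24
    have hr := hrec 2 0 0
    simp only [Finset.sum_range_succ, Finset.sum_range_zero, Fin.sum_univ_three,
      Nat.reduceAdd, Nat.reduceSub, zero_add, Nat.sub_zero, zero_mul, n0_0_0, u2_0_0, n0_0_1, u2_0_1, n0_0_2, u2_0_2] at hr
    rw [hr]
    ring
  have u3_0_1 : cu 3 0 1 = 0 := by
    apply mul_left_cancel₀ h24
    have hr := hrec 2 0 1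
    simp only [Finset.sum_range_succ, Finset.sum_range_zero, Fin.sum_univ_three,
      Nat.reduceAdd, Nat.reduceSub, zero_add, Nat.sub_zero, zero_mul, n0_1_0, u2_0_0, n0_1_1, u2_0_1, n0_1_2, u2_0_2] at hr
    rw [hr]
    ring
  have u3_0_2 : cu 3 0 2 = 0 := by
    apply mul_left_cancel₀ h24
    have hr := hrec 2 0 2
    simp only [Finset.sum_range_succ, Finset.sum_range_zero, Fin.sum_univ_three,
      Nat.reduceAdd, Nat.reduceSub, zero_add, Nat.sub_zero, zero_mul, n0_2_0, u2_0_0, n0_2_1, u2_0_1, n0_2_2, u2_0_2] at hr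
    rw [hr]
    ring
  have u3_1_0 : cu 3 1 0 = 0 := by
    apply mul_left_cancel₀ h24
    have hr := hrec 2 1 0
    simp only [Finset.sum_range_succ, Finset.sum_range_zero, Fin.sum_univ_three,
      Nat.reduceAdd, Nat.reduceSub, zero_add, Nat.sub_zero, zero_mul, n0_0_0, u2_1_0, n0_0_1, u2_1_1, n0_0_2, u2_1_2, n1_0_0, u2_0_0, n1_0_1, u2_0_1, n1_0_2, u2_0_2] at hr
    rw [hr]
    ring
  have u3_1_1 : cu 3 1 1 = 0 := by
    apply mul_left_cancel₀ h24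
    have hr := hrec 2 1 1
    simp only [Finset.sum_range_succ, Finset.sum_range_zero, Fin.sum_univ_three,
      Nat.reduceAdd, Nat.reduceSub, zero_add, Nat.sub_zero, zero_mul, n0_1_0, u2_1_0, n0_1_1, u2_1_1, n0_1_2, u2_1_2, n1_1_0, u2_0_0, n1_1_1, u2_0_1, n1_1_2, u2_0_2] at hr
    rw [hr]
    ring
  have u3_1_2 : cu 3 1 2 = 0 := by
    apply mul_left_cancel₀ h24
    have hr := hrec 2 1 2
    simp only [Finset.sum_range_succ, Finset.sum_range_zero, Fin.sum_univ_three,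
      Nat.reduceAdd, Nat.reduceSub, zero_add, Nat.sub_zero, zero_mul, n0_2_0, u2_1_0, n0_2_1, u2_1_1, n0_2_2, u2_1_2, n1_2_0, u2_0_0, n1_2_1, u2_0_1, n1_2_2, u2_0_2] at hr
    rw [hr]
    ring
  have u3_2_0 : cu 3 2 0 = 0 := by
    apply mul_left_cancel₀ h24
    have hr := hrec 2 2 0
    simp only [Finset.sum_range_succ, Finset.sum_range_zero, Fin.sum_univ_three,
      Nat.reduceAdd, Nat.reduceSub, zero_add, Nat.sub_zero, zero_mul, n0_0_0, u2_2_0, n0_0_1, u2_2_1, n0_0_2, u2_2_2, n1_0_0, u2_1_0, n1_0_1, u2_1_1, n1_0_2, u2_1_2, n2_0_0, u2_0_0, n2_0_1, u2_0_1, n2_0_2, u2_0_2] at hr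
    rw [hr]
    ring
  have u3_2_1 : cu 3 2 1 = -6 * x ^ 3 + 72 * x * v ^ 2 - 48 * x * d := by
    apply mul_left_cancel₀ h24
    have hr := hrec 2 2 1
    simp only [Finset.sum_range_succ, Finset.sum_range_zero, Fin.sum_univ_three,
      Nat.reduceAdd, Nat.reduceSub, zero_add, Nat.sub_zero, zero_mul, n0_1_0, u2_2_0, n0_1_1, u2_2_1, n0_1_2, u2_2_2, n1_1_0, u2_1_0, n1_1_1, u2_1_1, n1_1_2, u2_1_2, n2_1_0, u2_0_0, n2_1_1, u2_0_1, n2_1_2, u2_0_2] at hr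
    rw [hr]
    ring
  have u3_2_2 : cu 3 2 2 = 0 := by
    apply mul_left_cancel₀ h24
    have hr := hrec 2 2 2
    simp only [Finset.sum_range_succ, Finset.sum_range_zero, Fin.sum_univ_three,
      Nat.reduceAdd, Nat.reduceSub, zero_add, Nat.sub_zero, zero_mul, n0_2_0, u2_2_0, n0_2_1, u2_2_1, n0_2_2, u2_2_2, n1_2_0, u2_1_0, n1_2_1, u2_1_1, n1_2_2, u2_1_2, n2_2_0, u2_0_0, n2_2_1, u2_0_1, n2_2_2, u2_0_2] at hr
    rw [hr]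
    ring
  have u3_3_0 : cu 3 3 0 = -6 * x ^ 2 + 72 * v ^ 2 - 48 * d := by
    apply mul_left_cancel₀ h24
    have hr := hrec 2 3 0
    simp only [Finset.sum_range_succ, Finset.sum_range_zero, Fin.sum_univ_three,
      Nat.reduceAdd, Nat.reduceSub, zero_add, Nat.sub_zero, zero_mul, n0_0_0, u2_3_0, n0_0_1, u2_3_1, n0_0_2, u2_3_2, n1_0_0, u2_2_0, n1_0_1, u2_2_1, n1_0_2, u2_2_2, n2_0_0, u2_1_0, n2_0_1, u2_1_1, n2_0_2, u2_1_2, n3_0_0, u2_0_0, n3_0_1, u2_0_1, n3_0_2, u2_0_2] at hr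
    rw [hr]
    ring
  have u3_3_1 : cu 3 3 1 = -6 * x ^ 4 + 18 * x ^ 3 * v + 72 * x ^ 2 * v ^ 2 - 54 * x ^ 2 * d - 288 * x * v ^ 3 + 216 * x * v * d - 36 * x * m + 72 * v ^ 2 * d - 48 * d ^ 2 := by
    apply mul_left_cancel₀ h24
    have hr := hrec 2 3 1
    simp only [Finset.sum_range_succ, Finset.sum_range_zero, Fin.sum_univ_three,
      Nat.reduceAdd, Nat.reduceSub, zero_add, Nat.sub_zero, zero_mul, n0_1_0, u2_3_0, n0_1_1, u2_3_1, n0_1_2, u2_3_2, n1_1_0, u2_2_0, n1_1_1, u2_2_1, n1_1_2, u2_2_2, n2_1_0, u2_1_0, n2_1_1, u2_1_1, n2_1_2, u2_1_2, n3_1_0, u2_0_0, n3_1_1, u2_0_1, n3_1_2, u2_0_2] at hr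
    rw [hr]
    ring
  have u3_3_2 : cu 3 3 2 = -6 * x ^ 3 + 12 * x ^ 2 * v + 72 * x * v ^ 2 - 48 * x * d - 192 * v ^ 3 + 144 * v * d - 24 * m := by
    apply mul_left_cancel₀ h24
    have hr := hrec 2 3 2
    simp only [Finset.sum_range_succ, Finset.sum_range_zero, Fin.sum_univ_three,
      Nat.reduceAdd, Nat.reduceSub, zero_add, Nat.sub_zero, zero_mul, n0_2_0, u2_3_0, n0_2_1, u2_3_1, n0_2_2, u2_3_2, n1_2_0, u2_2_0, n1_2_1, u2_2_1, n1_2_2, u2_2_2, n2_2_0, u2_1_0, n2_2_1, u2_1_1, n2_2_2, u2_1_2, n3_2_0, u2_0_0, n3_2_1, u2_0_1, n3_2_2, u2_0_2] at hr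
    rw [hr]
    ring
  have u3_4_0 : cu 3 4 0 = -3 * x ^ 3 + 9 * x ^ 2 * v + 36 * x * v ^ 2 - 24 * x * d - 180 * v ^ 3 + 144 * v * d - 36 * m := by
    apply mul_left_cancel₀ h24
    have hr := hrec 2 4 0
    simp only [Finset.sum_range_succ, Finset.sum_range_zero, Fin.sum_univ_three,
      Nat.reduceAdd, Nat.reduceSub, zero_add, Nat.sub_zero, zero_mul, n0_0_0, u2_4_0, n0_0_1, n0_0_2, n1_0_0, u2_3_0, n1_0_1, u2_3_1, n1_0_2, u2_3_2, n2_0_0, u2_2_0, n2_0_1, u2_2_1, n2_0_2, u2_2_2, n3_0_0, u2_1_0, n3_0_1, u2_1_1, n3_0_2, u2_1_2, n4_0_0, u2_0_0, n4_0_1, u2_0_1, n4_0_2, u2_0_2] at hr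
    rw [hr]
    ring
  have u4_0_0 : cu 4 0 0 = 0 := by
    apply mul_left_cancel₀ h24
    have hr := hrec 3 0 0
    simp only [Finset.sum_range_succ, Finset.sum_range_zero, Fin.sum_univ_three,
      Nat.reduceAdd, Nat.reduceSub, zero_add, Nat.sub_zero, zero_mul, n0_0_0, u3_0_0, n0_0_1, u3_0_1, n0_0_2, u3_0_2] at hr
    rw [hr]
    ring
  have u4_0_1 : cu 4 0 1 = 0 := by
    apply mul_left_cancel₀ h24
    have hr := hrec 3 0 1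
    simp only [Finset.sum_range_succ, Finset.sum_range_zero, Fin.sum_univ_three,
      Nat.reduceAdd, Nat.reduceSub, zero_add, Nat.sub_zero, zero_mul, n0_1_0, u3_0_0, n0_1_1, u3_0_1, n0_1_2, u3_0_2] at hr
    rw [hr]
    ring
  have u4_0_2 : cu 4 0 2 = 0 := by
    apply mul_left_cancel₀ h24
    have hr := hrec 3 0 2
    simp only [Finset.sum_range_succ, Finset.sum_range_zero, Fin.sum_univ_three,
      Nat.reduceAdd, Nat.reduceSub, zero_add, Nat.sub_zero, zero_mul, n0_2_0, u3_0_0, n0_2_1, u3_0_1, n0_2_2, u3_0_2] at hr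
    rw [hr]
    ring
  have u4_1_0 : cu 4 1 0 = 0 := by
    apply mul_left_cancel₀ h24
    have hr := hrec 3 1 0
    simp only [Finset.sum_range_succ, Finset.sum_range_zero, Fin.sum_univ_three,
      Nat.reduceAdd, Nat.reduceSub, zero_add, Nat.sub_zero, zero_mul, n0_0_0, u3_1_0, n0_0_1, u3_1_1, n0_0_2, u3_1_2, n1_0_0, u3_0_0, n1_0_1, u3_0_1, n1_0_2, u3_0_2] at hr
    rw [hr]
    ring
  have u4_1_1 : cu 4 1 1 = 0 := by
    apply mul_left_cancel₀ h24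
    have hr := hrec 3 1 1
    simp only [Finset.sum_range_succ, Finset.sum_range_zero, Fin.sum_univ_three,
      Nat.reduceAdd, Nat.reduceSub, zero_add, Nat.sub_zero, zero_mul, n0_1_0, u3_1_0, n0_1_1, u3_1_1, n0_1_2, u3_1_2, n1_1_0, u3_0_0, n1_1_1, u3_0_1, n1_1_2, u3_0_2] at hr
    rw [hr]
    ring
  have u4_1_2 : cu 4 1 2 = 0 := by
    apply mul_left_cancel₀ h24
    have hr := hrec 3 1 2
    simp only [Finset.sum_range_succ, Finset.sum_range_zero, Fin.sum_univ_three,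
      Nat.reduceAdd, Nat.reduceSub, zero_add, Nat.sub_zero, zero_mul, n0_2_0, u3_1_0, n0_2_1, u3_1_1, n0_2_2, u3_1_2, n1_2_0, u3_0_0, n1_2_1, u3_0_1, n1_2_2, u3_0_2] at hr
    rw [hr]
    ring
  have u4_2_0 : cu 4 2 0 = 0 := by
    apply mul_left_cancel₀ h24
    have hr := hrec 3 2 0
    simp only [Finset.sum_range_succ, Finset.sum_range_zero, Fin.sum_univ_three,
      Nat.reduceAdd, Nat.reduceSub, zero_add, Nat.sub_zero, zero_mul, n0_0_0, u3_2_0, n0_0_1, u3_2_1, n0_0_2, u3_2_2, n1_0_0, u3_1_0, n1_0_1, u3_1_1, n1_0_2, u3_1_2, n2_0_0, u3_0_0, n2_0_1, u3_0_1, n2_0_2, u3_0_2] at hr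
    rw [hr]
    ring
  have u4_2_1 : cu 4 2 1 = 0 := by
    apply mul_left_cancel₀ h24
    have hr := hrec 3 2 1
    simp only [Finset.sum_range_succ, Finset.sum_range_zero, Fin.sum_univ_three,
      Nat.reduceAdd, Nat.reduceSub, zero_add, Nat.sub_zero, zero_mul, n0_1_0, u3_2_0, n0_1_1, u3_2_1, n0_1_2, u3_2_2, n1_1_0, u3_1_0, n1_1_1, u3_1_1, n1_1_2, u3_1_2, n2_1_0, u3_0_0, n2_1_1, u3_0_1, n2_1_2, u3_0_2] at hr
    rw [hr]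
    ring
  have u4_2_2 : cu 4 2 2 = 0 := by
    apply mul_left_cancel₀ h24
    have hr := hrec 3 2 2
    simp only [Finset.sum_range_succ, Finset.sum_range_zero, Fin.sum_univ_three,
      Nat.reduceAdd, Nat.reduceSub, zero_add, Nat.sub_zero, zero_mul, n0_2_0, u3_2_0, n0_2_1, u3_2_1, n0_2_2, u3_2_2, n1_2_0, u3_1_0, n1_2_1, u3_1_1, n1_2_2, u3_1_2, n2_2_0, u3_0_0, n2_2_1, u3_0_1, n2_2_2, u3_0_2] at hr
    rw [hr]
    ring
  have u4_3_0 : cu 4 3 0 = 0 := by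
    apply mul_left_cancel₀ h24
    have hr := hrec 3 3 0
    simp only [Finset.sum_range_succ, Finset.sum_range_zero, Fin.sum_univ_three,
      Nat.reduceAdd, Nat.reduceSub, zero_add, Nat.sub_zero, zero_mul, n0_0_0, u3_3_0, n0_0_1, u3_3_1, n0_0_2, u3_3_2, n1_0_0, u3_2_0, n1_0_1, u3_2_1, n1_0_2, u3_2_2, n2_0_0, u3_1_0, n2_0_1, u3_1_1, n2_0_2, u3_1_2, n3_0_0, u3_0_0, n3_0_1, u3_0_1, n3_0_2, u3_0_2] at hr
    rw [hr]
    ring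
  have u4_3_1 : cu 4 3 1 = -3 * x ^ 4 + 6 * x ^ 3 * v + 36 * x ^ 2 * v ^ 2 - 24 * x ^ 2 * d - 120 * x * v ^ 3 + 96 * x * v * d - 24 * x * m := by
    apply mul_left_cancel₀ h24
    have hr := hrec 3 3 1
    simp only [Finset.sum_range_succ, Finset.sum_range_zero, Fin.sum_univ_three,
      Nat.reduceAdd, Nat.reduceSub, zero_add, Nat.sub_zero, zero_mul, n0_1_0, u3_3_0, n0_1_1, u3_3_1, n0_1_2, u3_3_2, n1_1_0, u3_2_0, n1_1_1, u3_2_1, n1_1_2, u3_2_2, n2_1_0, u3_1_0, n2_1_1, u3_1_1, n2_1_2, u3_1_2, n3_1_0, u3_0_0, n3_1_1, u3_0_1, n3_1_2, u3_0_2] at hr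
    rw [hr]
    ring
  have u4_3_2 : cu 4 3 2 = 0 := by
    apply mul_left_cancel₀ h24
    have hr := hrec 3 3 2
    simp only [Finset.sum_range_succ, Finset.sum_range_zero, Fin.sum_univ_three,
      Nat.reduceAdd, Nat.reduceSub, zero_add, Nat.sub_zero, zero_mul, n0_2_0, u3_3_0, n0_2_1, u3_3_1, n0_2_2, u3_3_2, n1_2_0, u3_2_0, n1_2_1, u3_2_1, n1_2_2, u3_2_2, n2_2_0, u3_1_0, n2_2_1, u3_1_1, n2_2_2, u3_1_2, n3_2_0, u3_0_0, n3_2_1, u3_0_1, n3_2_2, u3_0_2] at hr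
    rw [hr]
    ring
  have u4_4_0 : cu 4 4 0 = -3 * x ^ 3 + 6 * x ^ 2 * v + 36 * x * v ^ 2 - 24 * x * d - 120 * v ^ 3 + 96 * v * d - 24 * m := by
    apply mul_left_cancel₀ h24
    have hr := hrec 3 4 0
    simp only [Finset.sum_range_succ, Finset.sum_range_zero, Fin.sum_univ_three,
      Nat.reduceAdd, Nat.reduceSub, zero_add, Nat.sub_zero, zero_mul, n0_0_0, u3_4_0, n0_0_1, n0_0_2, n1_0_0, u3_3_0, n1_0_1, u3_3_1, n1_0_2, u3_3_2, n2_0_0, u3_2_0, n2_0_1, u3_2_1, n2_0_2, u3_2_2, n3_0_0, u3_1_0, n3_0_1, u3_1_1, n3_0_2, u3_1_2, n4_0_0, u3_0_0, n4_0_1, u3_0_1, n4_0_2, u3_0_2] at hr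
    rw [hr]
    ring
  refine ⟨?_, ?_, ?_, ?_, ?_, ?_, ?_, ?_, ?_, ?_⟩
  · rw [u1_1_0, u2_1_0, u3_1_0, u4_1_0]; ring
  · rw [u1_2_0, u2_2_0, u3_2_0, u4_2_0]; ring
  · rw [u1_3_0, u2_3_0, u3_3_0, u4_3_0]; ring
  · rw [u1_4_0, u2_4_0, u3_4_0, u4_4_0]; ring
  · rw [u1_0_1, u2_0_1, u3_0_1, u4_0_1]; ring
  · rw [u1_1_1, u2_1_1, u3_1_1, u4_1_1]; ring
  · rw [u1_2_1, u2_2_1, u3_2_1, u4_2_1]; ring
  · rw [u1_3_1, u2_3_1, u3_3_1, u4_3_1]; ring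
  · rw [u1_1_2, u2_1_2, u3_1_2, u4_1_2]; ring
  · rw [u1_3_2, u2_3_2, u3_3_2, u4_3_2]; ring

end Pool.H51Loop
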