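import Mathlib

/-!
# Polynomial functions of bounded degree with prescribed top coefficient
-/

set_option autoImplicit false

namespace Pool.H51Loop

open PowerSeries

variable {K : Type} [Field K]

/-- `f` is a polynomial function of degree at most `d`, and `c` is its coefficient of degree
`d`. -/
def Pl (f : ℕ → K) (d : ℕ) (c : K) : Prop :=
  ∃ F : Polynomial K, F.natDegree ≤ d ∧ F.coeff d = c ∧ ∀ s : ℕ, f s = F.eval (s : K)

theorem Pl.congr {f g : ℕ → K} {d : ℕ} {c c' : K} (h : Pl f d c) (hfg : ∀ s, g s = f s)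
    (hc : c = c') : Pl g d c' := by
  obtain ⟨F, h1, h2, h3⟩ := h
  exact ⟨F, h1, h2.trans hc, fun s => (hfg s).trans (h3 s)⟩

theorem Pl.add {f g : ℕ → K} {d : ℕ} {c c' : K} (hf : Pl f d c) (hg : Pl g d c') :
    Pl (fun s => f s + g s) d (c + c') := by
  obtain ⟨F, h1, h2, h3⟩ := hf
  obtain ⟨G, k1, k2, k3⟩ := hg
  refine ⟨F + G, (Polynomial.natDegree_add_le F G).trans (max_le h1 k1), ?_, ?_⟩
  · rw [Polynomial.coeff_add, h2, k2]
  · intro s
    rw [Polynomial.eval_add, ← h3, ← k3]

theorem Pl.const (a : K) : Pl (fun _ => a) 0 a :=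
  ⟨Polynomial.C a, by simp, by simp, by simp⟩

theorem Pl.zero (d : ℕ) : Pl (fun _ => (0 : K)) d 0 :=
  ⟨0, by simp, by simp, by simp⟩

theorem Pl.mul {f g : ℕ → K} {d e : ℕ} {c c' : K} (hf : Pl f d c) (hg : Pl g e c') :
    Pl (fun s => f s * g s) (d + e) (c * c') := by
  obtain ⟨F, h1, h2, h3⟩ := hf
  obtain ⟨G, k1, k2, k3⟩ := hg
  refine ⟨F * G, Polynomial.natDegree_mul_le.trans (add_le_add h1 k1), ?_, ?_⟩
  · rw [Polynomial.coeff_mul_add_eq_of_natDegree_le h1 k1, h2, k2]
  · intro s
    rw [Polynomial.eval_mul, ← h3, ← k3]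

theorem Pl.cmul {f : ℕ → K} {d : ℕ} {c : K} (a : K) (hf : Pl f d c) :
    Pl (fun s => a * f s) d (a * c) := by
  have := (Pl.const a).mul hf
  rwa [zero_add] at this

theorem Pl.neg {f : ℕ → K} {d : ℕ} {c : K} (hf : Pl f d c) :
    Pl (fun s => - f s) d (-c) :=
  (hf.cmul (-1)).congr (fun s => by ring) (by ring)

theorem Pl.sub {f g : ℕ → K} {d : ℕ} {c c' : K} (hf : Pl f d c) (hg : Pl g d c') :
    Pl (fun s => f s - g s) d (c - c') :=
  (hf.add hg.neg).congr (fun s => by ring) (by ring)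

theorem Pl.pow {f : ℕ → K} {d : ℕ} {c : K} (hf : Pl f d c) (n : ℕ) :
    Pl (fun s => f s ^ n) (n * d) (c ^ n) := by
  induction n with
  | zero => simpa using Pl.const (1 : K)
  | succ n ih =>
    have := ih.mul hf
    rw [Nat.succ_mul]
    exact this.congr (fun s => by ring) (by ring)

theorem Pl.lift {f : ℕ → K} {d e : ℕ} {c : K} (hf : Pl f d c) (h : d < e) : Pl f e 0 := by
  obtain ⟨F, h1, h2, h3⟩ := hf
  refine ⟨F, h1.trans h.le, Polynomial.coeff_eq_zero_of_natDegree_lt (h1.trans_lt h), h3⟩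

theorem Pl.sum {ι : Type} (S : Finset ι) {f : ι → ℕ → K} {d : ℕ} {c : ι → K}
    (h : ∀ i ∈ S, Pl (f i) d (c i)) : Pl (fun s => ∑ i ∈ S, f i s) d (∑ i ∈ S, c i) := by
  classical
  induction S using Finset.induction_on with
  | empty => simpa using Pl.zero d
  | insert a S ha ih =>
    have h1 := (h a (Finset.mem_insert_self a S)).add
      (ih fun i hi => h i (Finset.mem_insert_of_mem hi))
    exact h1.congr (fun s => by rw [Finset.sum_insert ha]) (by rw [Finset.sum_insert ha])

theorem Pl.choose (m : ℕ) (hm : (m.factorial : K) ≠ 0) :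
    Pl (fun s => (s.choose m : K)) m (m.factorial : K)⁻¹ := by
  refine ⟨Polynomial.C (m.factorial : K)⁻¹ * descPochhammer K m, ?_, ?_, ?_⟩
  · refine Polynomial.natDegree_C_mul_le _ _ |>.trans ?_
    rw [descPochhammer_natDegree]
  · rw [Polynomial.coeff_C_mul]
    have h1 := monic_descPochhammer K m
    rw [Polynomial.Monic, Polynomial.leadingCoeff, descPochhammer_natDegree] at h1
    rw [h1, mul_one]
  · intro s
    rw [Polynomial.eval_mul, Polynomial.eval_C, descPochhammer_eval_eq_descFactorial,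
      Nat.descFactorial_eq_factorial_mul_choose, Nat.cast_mul, inv_mul_cancel_left₀ hm]

/-- Coefficient `d` is a polynomial function of degree at most `d` with the top coefficient given
by the power series `h`, for all `d ≤ 4`. -/
def SPl (f : ℕ → K⟦X⟧) (h : K⟦X⟧) : Prop :=
  ∀ d ≤ 4, Pl (fun s => coeff d (f s)) d (coeff d h)

theorem SPl.add {f g : ℕ → K⟦X⟧} {h k : K⟦X⟧} (hf : SPl f h) (hg : SPl g k) :
    SPl (fun s => f s + g s) (h + k) := by
  intro d hd
  exact ((hf d hd).add (hg d hd)).congr (fun s => by rw [map_add]) (by rw [map_add])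

theorem SPl.sub {f g : ℕ → K⟦X⟧} {h k : K⟦X⟧} (hf : SPl f h) (hg : SPl g k) :
    SPl (fun s => f s - g s) (h - k) := by
  intro d hd
  exact ((hf d hd).sub (hg d hd)).congr (fun s => by rw [map_sub]) (by rw [map_sub])

theorem SPl.sum {ι : Type} (S : Finset ι) {f : ι → ℕ → K⟦X⟧} {h : ι → K⟦X⟧}
    (hf : ∀ i ∈ S, SPl (f i) (h i)) : SPl (fun s => ∑ i ∈ S, f i s) (∑ i ∈ S, h i) := by
  intro d hd
  exact (Pl.sum S fun i hi => hf i hi d hd).congr (fun s => by rw [map_sum]) (by rw [map_sum])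

theorem SPl.mul {f g : ℕ → K⟦X⟧} {h k : K⟦X⟧} (hf : SPl f h) (hg : SPl g k) :
    SPl (fun s => f s * g s) (h * k) := by
  intro d hd
  have h1 : ∀ q ∈ Finset.HasAntidiagonal.antidiagonal d, Pl (fun s => coeff q.1 (f s) * coeff q.2 (g s)) d
      (coeff q.1 h * coeff q.2 k) := by
    intro q hq
    rw [Finset.HasAntidiagonal.mem_antidiagonal] at hq
    have := (hf q.1 (by omega)).mul (hg q.2 (by omega))
    rwa [hq] at this
  exact (Pl.sum _ h1).congr (fun s => by rw [coeff_mul]) (by rw [coeff_mul])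

theorem SPl.const (a : K⟦X⟧) : SPl (fun _ => a) (C (constantCoeff a)) := by
  intro d _
  rcases Nat.eq_zero_or_pos d with rfl | hd
  · exact (Pl.const (coeff 0 a)).congr (fun _ => rfl) (by simp)
  · refine ((Pl.const (coeff d a)).lift hd).congr (fun _ => rfl) ?_
    rw [coeff_C, if_neg hd.ne']

theorem SPl.natCast_mul {f : ℕ → K⟦X⟧} {h : K⟦X⟧} (n : ℕ) (hf : SPl f h) :
    SPl (fun s => (n : K⟦X⟧) * f s) ((n : K⟦X⟧) * h) := by
  intro d hd
  have h1 : ∀ q : K⟦X⟧, coeff d ((n : K⟦X⟧) * q) = (n : K) * coeff d q := by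
    intro q
    rw [← nsmul_eq_mul, map_nsmul, nsmul_eq_mul]
  exact ((hf d hd).cmul (n : K)).congr (fun s => h1 _) (h1 _).symm

/-- The square matrices of size three over the power series. -/
abbrev Mt (K : Type) [Field K] : Type := Matrix (Fin 3) (Fin 3) K⟦X⟧

/-- Entrywise version. -/
def MPl (G : ℕ → Mt K) (H : Mt K) : Prop := ∀ i j, SPl (fun s => G s i j) (H i j)

/-- Entrywise version for vectors. -/
def VPl (u : ℕ → Fin 3 → K⟦X⟧) (h : Fin 3 → K⟦X⟧) : Prop := ∀ i, SPl (fun s => u s i) (h i)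

theorem MPl.mul {G G' : ℕ → Mt K} {H H' : Mt K} (h : MPl G H) (h' : MPl G' H') :
    MPl (fun s => G s * G' s) (H * H') := by
  intro i j
  simp only [Matrix.mul_apply]
  exact SPl.sum _ fun l _ => (h i l).mul (h' l j)

theorem MPl.mulVec {G : ℕ → Mt K} {u : ℕ → Fin 3 → K⟦X⟧} {H : Mt K} {v : Fin 3 → K⟦X⟧}
    (h : MPl G H) (h' : VPl u v) : VPl (fun s => (G s).mulVec (u s)) (H.mulVec v) := by
  intro i
  simp only [Matrix.mulVec, dotProduct]
  exact SPl.sum _ fun l _ => (h i l).mul (h' l)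

/-- The constant part of a matrix of power series. -/
noncomputable def ct (M : Mt K) : Mt K := M.map fun f => C (constantCoeff f)

theorem MPl.const (M : Mt K) : MPl (fun _ => M) (ct M) := by
  intro i j
  exact SPl.const (M i j)

theorem ct_one : ct (1 : Mt K) = 1 := by
  ext i j : 2
  unfold ct
  rw [Matrix.map_apply]
  by_cases h : i = j
  · subst h; simp
  · simp [Matrix.one_apply_ne h]

theorem MPl.sub_one {G : ℕ → Mt K} {H : Mt K} (h : MPl G H) : MPl (fun s => G s - 1) (H - 1) := by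
  intro i j
  have h1 := (MPl.const (1 : Mt K)) i j
  rw [ct_one] at h1
  exact (h i j).sub h1

theorem ct_pow (M : Mt K) (n : ℕ) : ct (M ^ n) = ct M ^ n := by
  have : ∀ A : Mt K, ct A = (((C (R := K)).comp (constantCoeff (R := K))).mapMatrix) A :=
    fun A => rfl
  rw [this, this, map_pow]

/-- The truncated exponential series. -/
noncomputable def texp (M : Mt K) : Mt K :=
  ∑ m ∈ Finset.range 5, (C ((m.factorial : K)⁻¹) * X ^ m) • M ^ m

theorem MPl.binom (M : Mt K) (h24 : (24 : K) ≠ 0) :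
    MPl (fun s => (1 + (X : K⟦X⟧) • M) ^ s) (texp (ct M)) := by
  intro i j d hd
  have hfac : ∀ m ≤ 4, (m.factorial : K) ≠ 0 := by
    intro m hm h0
    have h1 : m.factorial ∣ 24 := by
      have := Nat.factorial_dvd_factorial hm
      exact this
    obtain ⟨c, hc⟩ := h1
    apply h24
    have h2 : ((24 : ℕ) : K) = (m.factorial : K) * (c : K) := by
      rw [← Nat.cast_mul, ← hc]
    rw [h0, zero_mul] at h2
    exact_mod_cast h2
  -- the coefficient formula
  have h1 : ∀ s : ℕ, coeff d (((1 + (X : K⟦X⟧) • M) ^ s) i j) =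
      ∑ m ∈ Finset.range (d + 1), (s.choose m : K) * coeff (d - m) ((M ^ m) i j) := by
    intro s
    have hc : Commute (1 : Mt K) ((X : K⟦X⟧) • M) := Commute.one_left _
    rw [add_comm, (hc.symm).add_pow]
    rw [Matrix.sum_apply, map_sum]
    have h2 : ∀ m, coeff d ((((X : K⟦X⟧) • M) ^ m * 1 ^ (s - m) *
        ((s.choose m : ℕ) : Mt K)) i j) =
        if m ≤ d then (s.choose m : K) * coeff (d - m) ((M ^ m) i j) else 0 := by
      intro m
      rw [one_pow, mul_one, smul_pow, ← nsmul_eq_mul', Matrix.smul_apply, Matrix.smul_apply,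
        smul_eq_mul, map_nsmul, coeff_X_pow_mul', nsmul_eq_mul]
      split_ifs
      · rfl
      · rw [mul_zero]
    rw [Finset.sum_congr rfl fun m _ => h2 m]
    rw [← Finset.sum_filter]
    refine Finset.sum_subset_zero_on_sdiff ?_ ?_ ?_
    · intro m hm
      rw [Finset.mem_filter] at hm
      rw [Finset.mem_range]
      omega
    · intro m hm
      rw [Finset.mem_sdiff, Finset.mem_filter, Finset.mem_range, Finset.mem_range] at hm
      have : s.choose m = 0 := Nat.choose_eq_zero_of_lt (by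
        by_contra hlt
        exact hm.2 ⟨by omega, by omega⟩)
      rw [this, Nat.cast_zero, zero_mul]
    · intro m _
      rfl
  have h2 : coeff d ((texp (ct M)) i j) =
      ∑ m ∈ Finset.range (d + 1),
        if m = d then ((m.factorial : K)⁻¹) * constantCoeff ((M ^ m) i j) else 0 := by
    unfold texp
    rw [Matrix.sum_apply, map_sum]
    have h3 : ∀ m, coeff d (((C ((m.factorial : K)⁻¹) * X ^ m) • ct M ^ m) i j) =
        if m = d then ((m.factorial : K)⁻¹) * constantCoeff ((M ^ m) i j) else 0 := by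
      intro m
      rw [Matrix.smul_apply, ← ct_pow, smul_eq_mul, mul_assoc, coeff_C_mul, coeff_X_pow_mul']
      unfold ct
      rw [Matrix.map_apply, coeff_C]
      by_cases hmd : m = d
      · subst hmd
        simp
      · rw [if_neg hmd]
        by_cases hle : m ≤ d
        · rw [if_pos hle, if_neg (by omega), mul_zero]
        · rw [if_neg hle, mul_zero]
    rw [Finset.sum_congr rfl fun m _ => h3 m]
    rw [Finset.sum_ite_eq', Finset.sum_ite_eq', if_pos (Finset.mem_range.mpr (by omega)),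
      if_pos (Finset.mem_range.mpr (by omega))]
  refine Pl.congr (c := ∑ m ∈ Finset.range (d + 1),
        if m = d then ((m.factorial : K)⁻¹) * constantCoeff ((M ^ m) i j) else 0)
    (Pl.sum (Finset.range (d + 1)) (f := fun m s => (s.choose m : K) * coeff (d - m) ((M ^ m) i j))
      ?_) h1 h2.symm
  intro m hm
  rw [Finset.mem_range] at hm
  have h4 := (Pl.choose (K := K) m (hfac m (by omega))).mul (Pl.const (coeff (d - m) ((M ^ m) i j)))
  rw [add_zero] at h4
  by_cases hmd : m = d
  · subst hmd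
    rw [if_pos rfl]
    refine h4.congr (fun _ => rfl) ?_
    rw [Nat.sub_self, coeff_zero_eq_constantCoeff_apply]
  · rw [if_neg hmd]
    exact h4.lift (by omega)

end Pool.H51Loop
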