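import Pool.Agent.Lib.H51Loop.Func

/-!
# The shape of the matrices
-/

set_option autoImplicit false

namespace Pool.H51Loop

open PowerSeries

variable {K : Type} [Field K]

/-- The shape of the first coefficients of the matrices in the group. All entries with a
denominator are multiplied by two. -/
structure Qs (G : Mt K) (a b t c d : K) : Prop where
  z00 : coeff 0 (G 0 0) = 1
  z01 : coeff 0 (G 0 1) = 0
  z02 : coeff 0 (G 0 2) = 0
  z10 : coeff 0 (G 1 0) = 0
  z11 : coeff 0 (G 1 1) = 1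
  z12 : coeff 0 (G 1 2) = 0
  z20 : coeff 0 (G 2 0) = b
  z21 : coeff 0 (G 2 1) = -a
  z22 : coeff 0 (G 2 2) = 1
  o00 : 2 * coeff 1 (G 0 0) = t + a * b
  o01 : 2 * coeff 1 (G 0 1) = -a ^ 2
  o02 : coeff 1 (G 0 2) = a
  o10 : 2 * coeff 1 (G 1 0) = b ^ 2
  o11 : 2 * coeff 1 (G 1 1) = t - a * b
  o12 : coeff 1 (G 1 2) = b
  o20 : 2 * coeff 1 (G 2 0) = -d - t * b
  o21 : 2 * coeff 1 (G 2 1) = c + t * a
  o22 : coeff 1 (G 2 2) = -t
  w02 : 2 * coeff 2 (G 0 2) = c
  w12 : 2 * coeff 2 (G 1 2) = d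

theorem coeff0_mul (G G' : Mt K) (i j : Fin 3) : coeff 0 ((G * G') i j) =
    coeff 0 (G i 0) * coeff 0 (G' 0 j) + coeff 0 (G i 1) * coeff 0 (G' 1 j) +
      coeff 0 (G i 2) * coeff 0 (G' 2 j) := by
  rw [Matrix.mul_apply, Fin.sum_univ_three]
  simp

theorem cf1 (f g : K⟦X⟧) : coeff 1 (f * g) = coeff 0 f * coeff 1 g + coeff 1 f * coeff 0 g := by
  rw [coeff_mul, Finset.Nat.antidiagonal_succ]
  simp

theorem cf2 (f g : K⟦X⟧) : coeff 2 (f * g) =
    coeff 0 f * coeff 2 g + coeff 1 f * coeff 1 g + coeff 2 f * coeff 0 g := by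
  rw [coeff_mul, Finset.Nat.sum_antidiagonal_eq_sum_range_succ_mk]
  simp only [Finset.sum_range_succ, Finset.sum_range_zero, Nat.reduceAdd, Nat.reduceSub,
    Nat.sub_zero, Nat.sub_self, zero_add]

theorem coeff1_mul (G G' : Mt K) (i j : Fin 3) : coeff 1 ((G * G') i j) =
    (coeff 0 (G i 0) * coeff 1 (G' 0 j) + coeff 1 (G i 0) * coeff 0 (G' 0 j)) +
    (coeff 0 (G i 1) * coeff 1 (G' 1 j) + coeff 1 (G i 1) * coeff 0 (G' 1 j)) +
    (coeff 0 (G i 2) * coeff 1 (G' 2 j) + coeff 1 (G i 2) * coeff 0 (G' 2 j)) := by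
  rw [Matrix.mul_apply, Fin.sum_univ_three, map_add, map_add, cf1, cf1, cf1]

theorem coeff2_mul (G G' : Mt K) (i j : Fin 3) : coeff 2 ((G * G') i j) =
    (coeff 0 (G i 0) * coeff 2 (G' 0 j) + coeff 1 (G i 0) * coeff 1 (G' 0 j) +
      coeff 2 (G i 0) * coeff 0 (G' 0 j)) +
    (coeff 0 (G i 1) * coeff 2 (G' 1 j) + coeff 1 (G i 1) * coeff 1 (G' 1 j) +
      coeff 2 (G i 1) * coeff 0 (G' 1 j)) +
    (coeff 0 (G i 2) * coeff 2 (G' 2 j) + coeff 1 (G i 2) * coeff 1 (G' 2 j) +
      coeff 2 (G i 2) * coeff 0 (G' 2 j)) := by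
  rw [Matrix.mul_apply, Fin.sum_univ_three, map_add, map_add, cf2, cf2, cf2]

theorem Qs.mul {G G' : Mt K} {a b t c d a' b' t' c' d' : K} (h : Qs G a b t c d)
    (k : Qs G' a' b' t' c' d') :
    Qs (G * G') (a + a') (b + b') (t + t' + a * b' - a' * b)
      (c + c' + (t + a * b) * a' - a ^ 2 * b' - 2 * a * t')
      (d + d' + b ^ 2 * a' + (t - a * b) * b' - 2 * b * t') where
  z00 := by
    rw [coeff0_mul, h.z00, h.z01, h.z02, k.z00, k.z10]; ring
  z01 := by
    rw [coeff0_mul, h.z00, h.z01, h.z02, k.z01, k.z11]; ring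
  z02 := by
    rw [coeff0_mul, h.z00, h.z01, h.z02, k.z02, k.z12]; ring
  z10 := by
    rw [coeff0_mul, h.z10, h.z11, h.z12, k.z00, k.z10]; ring
  z11 := by
    rw [coeff0_mul, h.z10, h.z11, h.z12, k.z01, k.z11]; ring
  z12 := by
    rw [coeff0_mul, h.z10, h.z11, h.z12, k.z02, k.z12]; ring
  z20 := by
    rw [coeff0_mul, h.z20, h.z21, h.z22, k.z00, k.z10, k.z20]; ring
  z21 := by
    rw [coeff0_mul, h.z20, h.z21, h.z22, k.z01, k.z11, k.z21]; ring
  z22 := by
    rw [coeff0_mul, h.z20, h.z21, h.z22, k.z02, k.z12, k.z22]; ring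
  o00 := by
    rw [coeff1_mul, h.z00, h.z01, h.z02, k.z00, k.z10, k.z20, h.o02]
    linear_combination h.o00 + k.o00
  o01 := by
    rw [coeff1_mul, h.z00, h.z01, h.z02, k.z01, k.z11, k.z21, h.o02]
    linear_combination h.o01 + k.o01
  o02 := by
    rw [coeff1_mul, h.z00, h.z01, h.z02, k.z02, k.z12, k.z22, h.o02, k.o02]
    ring
  o10 := by
    rw [coeff1_mul, h.z10, h.z11, h.z12, k.z00, k.z10, k.z20, h.o12]
    linear_combination h.o10 + k.o10
  o11 := by
    rw [coeff1_mul, h.z10, h.z11, h.z12, k.z01, k.z11, k.z21, h.o12]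
    linear_combination h.o11 + k.o11
  o12 := by
    rw [coeff1_mul, h.z10, h.z11, h.z12, k.z02, k.z12, k.z22, h.o12, k.o12]
    ring
  o20 := by
    rw [coeff1_mul, h.z20, h.z21, h.z22, k.z00, k.z10, k.z20, h.o22]
    linear_combination b * k.o00 + h.o20 - a * k.o10 + k.o20
  o21 := by
    rw [coeff1_mul, h.z20, h.z21, h.z22, k.z01, k.z11, k.z21, h.o22]
    linear_combination b * k.o01 - a * k.o11 + h.o21 + k.o21
  o22 := by
    rw [coeff1_mul, h.z20, h.z21, h.z22, k.z02, k.z12, k.z22, h.o22, k.o02, k.o12, k.o22]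
    ring
  w02 := by
    rw [coeff2_mul, h.z00, h.z01, h.z02, k.z02, k.z12, k.z22, k.o02, k.o12, k.o22, h.o02]
    linear_combination k.w02 + a' * h.o00 + b' * h.o01 + h.w02
  w12 := by
    rw [coeff2_mul, h.z10, h.z11, h.z12, k.z02, k.z12, k.z22, k.o02, k.o12, k.o22, h.o12]
    linear_combination k.w12 + a' * h.o10 + b' * h.o11 + h.w12

theorem Qs.one : Qs (1 : Mt K) 0 0 0 0 0 := by
  constructor <;> simp [coeff_one]

/-- Conjugation by a constant matrix. -/
theorem coeff_conj (A B : Matrix (Fin 3) (Fin 3) K) (G : Mt K) (n : ℕ) (i j : Fin 3) :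
    coeff n ((A.map (C (R := K)) * G * B.map (C (R := K))) i j) =
      (A i 0 * coeff n (G 0 0) + A i 1 * coeff n (G 1 0) + A i 2 * coeff n (G 2 0)) * B 0 j +
      (A i 0 * coeff n (G 0 1) + A i 1 * coeff n (G 1 1) + A i 2 * coeff n (G 2 1)) * B 1 j +
      (A i 0 * coeff n (G 0 2) + A i 1 * coeff n (G 1 2) + A i 2 * coeff n (G 2 2)) * B 2 j := by
  simp only [Matrix.mul_apply, Fin.sum_univ_three, Matrix.map_apply, map_add, coeff_mul_C,
    coeff_C_mul]

/-- The conjugating matrix. -/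
def cA (p q r s : K) : Matrix (Fin 3) (Fin 3) K := !![p, q, 0; r, s, 0; 0, 0, 1]

/-- Its inverse. -/
def cB (p q r s : K) : Matrix (Fin 3) (Fin 3) K := !![s, -q, 0; -r, p, 0; 0, 0, 1]

theorem cB_mul_cA {p q r s : K} (h : p * s - q * r = 1) :
    (cB p q r s).map (C (R := K)) * (cA p q r s).map (C (R := K)) = 1 := by
  have h1 : cB p q r s * cA p q r s = 1 := by
    ext i j
    fin_cases i <;> fin_cases j <;>
      simp [cA, cB, Matrix.mul_apply, Fin.sum_univ_three] <;>
      first | ring1 | linear_combination h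
  have h2 := congrArg ((C (R := K)).mapMatrix) h1
  rw [map_mul, map_one] at h2
  exact h2

/-- The conjugate matrix. -/
noncomputable def conjM (p q r s : K) (G : Mt K) : Mt K :=
  (cA p q r s).map (C (R := K)) * G * (cB p q r s).map (C (R := K))

theorem conjM_rel {p q r s : K} (h : p * s - q * r = 1) (G : Mt K) :
    (cA p q r s).map (C (R := K)) * G = conjM p q r s G * (cA p q r s).map (C (R := K)) := by
  unfold conjM
  rw [mul_assoc _ ((cB p q r s).map (C (R := K))), cB_mul_cA h, mul_one]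

theorem Qs.conj {G : Mt K} {a b t c d : K} (h : Qs G a b t c d) {p q r s : K}
    (hdet : p * s - q * r = 1) :
    Qs (conjM p q r s G) (p * a + q * b) (r * a + s * b) t (p * c + q * d) (r * c + s * d) := by
  have e00 : ∀ n, coeff n (conjM p q r s G 0 0) = p * s * coeff n (G 0 0) -
      p * r * coeff n (G 0 1) + q * s * coeff n (G 1 0) - q * r * coeff n (G 1 1) := by
    intro n; unfold conjM; rw [coeff_conj]; simp [cA, cB]; ring
  have e01 : ∀ n, coeff n (conjM p q r s G 0 1) = - (p * q * coeff n (G 0 0)) +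
      p * p * coeff n (G 0 1) - q * q * coeff n (G 1 0) + q * p * coeff n (G 1 1) := by
    intro n; unfold conjM; rw [coeff_conj]; simp [cA, cB]; ring
  have e02 : ∀ n, coeff n (conjM p q r s G 0 2) = p * coeff n (G 0 2) + q * coeff n (G 1 2) := by
    intro n; unfold conjM; rw [coeff_conj]; simp [cA, cB]
  have e10 : ∀ n, coeff n (conjM p q r s G 1 0) = r * s * coeff n (G 0 0) -
      r * r * coeff n (G 0 1) + s * s * coeff n (G 1 0) - s * r * coeff n (G 1 1) := by
    intro n; unfold conjM; rw [coeff_conj]; simp [cA, cB]; ring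
  have e11 : ∀ n, coeff n (conjM p q r s G 1 1) = - (r * q * coeff n (G 0 0)) +
      r * p * coeff n (G 0 1) - s * q * coeff n (G 1 0) + s * p * coeff n (G 1 1) := by
    intro n; unfold conjM; rw [coeff_conj]; simp [cA, cB]; ring
  have e12 : ∀ n, coeff n (conjM p q r s G 1 2) = r * coeff n (G 0 2) + s * coeff n (G 1 2) := by
    intro n; unfold conjM; rw [coeff_conj]; simp [cA, cB]
  have e20 : ∀ n, coeff n (conjM p q r s G 2 0) = s * coeff n (G 2 0) - r * coeff n (G 2 1) := by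
    intro n; unfold conjM; rw [coeff_conj]; simp [cA, cB]; ring
  have e21 : ∀ n, coeff n (conjM p q r s G 2 1) =
      - (q * coeff n (G 2 0)) + p * coeff n (G 2 1) := by
    intro n; unfold conjM; rw [coeff_conj]; simp [cA, cB]; ring
  have e22 : ∀ n, coeff n (conjM p q r s G 2 2) = coeff n (G 2 2) := by
    intro n; unfold conjM; rw [coeff_conj]; simp [cA, cB]
  constructor
  · rw [e00, h.z00, h.z01, h.z10, h.z11]; linear_combination hdet
  · rw [e01, h.z00, h.z01, h.z10, h.z11]; ring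
  · rw [e02, h.z02, h.z12]; ring
  · rw [e10, h.z00, h.z01, h.z10, h.z11]; ring
  · rw [e11, h.z00, h.z01, h.z10, h.z11]; linear_combination hdet
  · rw [e12, h.z02, h.z12]; ring
  · rw [e20, h.z20, h.z21]; ring
  · rw [e21, h.z20, h.z21]; ring
  · rw [e22, h.z22]
  · rw [e00]
    linear_combination p * s * h.o00 - p * r * h.o01 + q * s * h.o10 - q * r * h.o11 + t * hdet
  · rw [e01]
    linear_combination - (p * q * h.o00) + p * p * h.o01 - q * q * h.o10 + q * p * h.o11
  · rw [e02, h.o02, h.o12]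
  · rw [e10]
    linear_combination r * s * h.o00 - r * r * h.o01 + s * s * h.o10 - s * r * h.o11
  · rw [e11]
    linear_combination - (r * q * h.o00) + r * p * h.o01 - s * q * h.o10 + s * p * h.o11 +
      t * hdet
  · rw [e12, h.o02, h.o12]
  · rw [e20]; linear_combination s * h.o20 - r * h.o21
  · rw [e21]; linear_combination - (q * h.o20) + p * h.o21
  · rw [e22, h.o22]
  · rw [e02]; linear_combination p * h.w02 + q * h.w12
  · rw [e12]; linear_combination r * h.w02 + s * h.w12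

/-- The generating matrices. -/
noncomputable def Em (a b : K) : Mt K :=
  !![1 + C (2⁻¹ * a * b) * X, C (-(2⁻¹ * a ^ 2)) * X, C a * X;
    C (2⁻¹ * b ^ 2) * X, 1 + C (-(2⁻¹ * a * b)) * X, C b * X;
    C b, C (-a), 1]

theorem Em_mul (h2 : (2 : K) ≠ 0) (a b : K) : Em a b * Em (-a) (-b) = 1 := by
  have hh : 2 * C (R := K) (2⁻¹) = 1 := by
    have h1 : (2 : K⟦X⟧) = C (2 : K) := (map_ofNat (C (R := K)) 2).symm
    rw [h1, ← map_mul, mul_inv_cancel₀ h2, map_one]
  apply Matrix.ext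
  intro i j
  fin_cases i <;> fin_cases j <;>
    simp only [Em, Matrix.mul_apply, Fin.sum_univ_three, map_mul, map_neg, map_pow] <;>
    simp
  · linear_combination (C a * C b * X) * hh
  · linear_combination (-(C a ^ 2 * X)) * hh
  · ring
  · linear_combination (C b ^ 2 * X) * hh
  · linear_combination (-(C a * C b * X)) * hh
  · ring
  · ring
  · ring
  · ring

theorem Em_Qs (h2 : (2 : K) ≠ 0) (a b : K) : Qs (Em a b) a b 0 0 0 := by
  constructor <;> simp [Em, coeff_one, coeff_X, coeff_C, mul_assoc, mul_inv_cancel_left₀ h2]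

end Pool.H51Loop
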